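import Pool.Agent.EUD.Defs

/-!
AnaBasic: real analytic preliminaries.

`analytic_sqrt`: `qf A (x - c)` is a polynomial in `x`, positive for `x ≠ c`; `Real.sqrt` is analytic at positive points
(`Real.sqrt y = Real.exp (Real.log y / 2)` for `y > 0`, or `rpow`; use `AnalyticAt.congr`).

`compl_preconnected`: the complement of a finite (countable) set in a real vector space of dimension `≥ 2` is path
connected (`Set.Countable.isPathConnected_compl_of_one_lt_rank`).
-/

namespace Pool.Agent.EUD

theorem analytic_sqrt {n : ℕ} {A : Matrix (Fin n) (Fin n) ℤ} (hA : PosDef A) (c : Fin n → ℝ) :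
    AnalyticOnNhd ℝ (fun x : Fin n → ℝ => √(qf A (fun j => x j - c j))) {c}ᶜ := by
  intro x hx
  have hpr : ∀ i : Fin n, AnalyticAt ℝ (fun y : Fin n → ℝ => y i - c i) x := fun i =>
    ((ContinuousLinearMap.proj (R := ℝ) (φ := fun _ : Fin n => ℝ) i).analyticAt x).sub
      analyticAt_const
  have hq : AnalyticAt ℝ (fun y : Fin n → ℝ => qf A (fun j => y j - c j)) x := by
    unfold qf
    refine Finset.analyticAt_fun_sum _ fun i _ => Finset.analyticAt_fun_sum _ fun j _ => ?_
    exact (analyticAt_const.mul (hpr i)).mul (hpr j)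
  have hpos : 0 < qf A (fun j => x j - c j) := by
    apply hA
    intro h0
    apply hx
    funext j
    have := congrFun h0 j
    simp only [Pi.zero_apply] at this
    linarith
  have hlog : AnalyticAt ℝ (fun y : Fin n → ℝ =>
      Real.exp (Real.log (qf A (fun j => y j - c j)) * (1 / 2))) x := by
    have h1 : AnalyticAt ℝ (fun y : Fin n → ℝ => Real.log (qf A (fun j => y j - c j))) x :=
      AnalyticAt.comp' (g := Real.log) (analyticAt_log hpos) hq
    exact AnalyticAt.comp' (g := Real.exp) analyticAt_rexp (h1.mul analyticAt_const)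
  refine hlog.congr ?_
  have hev : ∀ᶠ y in nhds x, 0 < qf A (fun j => y j - c j) :=
    hq.continuousAt.eventually (lt_mem_nhds hpos)
  filter_upwards [hev] with y hy
  rw [Real.sqrt_eq_rpow, Real.rpow_def_of_pos hy]

theorem compl_preconnected {n : ℕ} (hn : 2 ≤ n) {F : Set (Fin n → ℝ)} (hF : F.Finite) :
    IsPreconnected Fᶜ := by
  refine (hF.countable.isPathConnected_compl_of_one_lt_rank ?_).isConnected.isPreconnected
  rw [rank_fun']
  simp only [Fintype.card_fin]
  exact_mod_cast hn

end Pool.Agent.EUD
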