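import Pool.Agent.EUD.Defs

/-!
Count: total degree of `2^(n k)` different exponent vectors.

PROOF.  `B = {I : all α I j < 2^(k-1)}` has at most `(2^(k-1))^n = 2^(n(k-1))` elements (`α` is injective into the functions
`Fin n → Fin (2^(k-1))`), and `2 * 2^(n(k-1)) ≤ 2^(n k)` because `n ≥ 1`.  So at least half of the `2^(n k)` indices `I` are not in
`B`; each of them has some `α I j ≥ 2^(k-1)`, so `∑_j α I j ≥ 2^(k-1)`.  Hence
`∑_I ∑_j α I j ≥ (2^(n k) / 2) 2^(k-1)`.
-/

namespace Pool.Agent.EUD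

theorem count_degree {ι : Type*} [Fintype ι] {n k : ℕ} (hn : 1 ≤ n) (hk : 1 ≤ k)
    (hι : Fintype.card ι = 2 ^ (n * k)) (α : ι → (Fin n → ℕ)) (hα : Function.Injective α) :
    2 ^ (n * k) * 2 ^ k ≤ 4 * ∑ I, ∑ j, α I j := by
  classical
  obtain ⟨M, hM⟩ : ∃ M, M = 2 ^ (k - 1) := ⟨_, rfl⟩
  have hk2 : 2 ^ k = 2 * M := by
    rw [hM, ← pow_succ', Nat.sub_add_cancel hk]
  have hN : 2 ^ (n * k) = 2 ^ n * M ^ n := by
    rw [mul_comm n k, pow_mul, hk2, mul_pow]
  have h2n : 2 ≤ 2 ^ n := by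
    calc 2 = 2 ^ 1 := (pow_one 2).symm
      _ ≤ 2 ^ n := Nat.pow_le_pow_right (by norm_num) hn
  obtain ⟨B, hB⟩ : ∃ B : Finset ι, B = Finset.univ.filter fun I => ∀ j, α I j < M := ⟨_, rfl⟩
  have hBm : ∀ I, I ∈ B ↔ ∀ j, α I j < M := by
    intro I
    rw [hB, Finset.mem_filter]
    simp
  have hcard : B.card ≤ M ^ n := by
    have h1 : Fintype.card (Fin n → Fin M) = M ^ n := by simp
    rw [← h1, ← Fintype.card_coe]
    refine Fintype.card_le_of_injective
      (fun I : B => fun j : Fin n => (⟨α I j, (hBm I).1 I.2 j⟩ : Fin M)) ?_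
    intro I J hIJ
    apply Subtype.ext
    apply hα
    funext j
    have := congrFun hIJ j
    exact congrArg Fin.val this
  have hsum : (Finset.univ \ B).card * M ≤ ∑ I, ∑ j, α I j := by
    calc (Finset.univ \ B).card * M = ∑ I ∈ Finset.univ \ B, M := by
          rw [Finset.sum_const, smul_eq_mul]
      _ ≤ ∑ I ∈ Finset.univ \ B, ∑ j, α I j := by
          refine Finset.sum_le_sum fun I hI => ?_
          rw [Finset.mem_sdiff, hBm] at hI
          have h3 := hI.2
          push Not at h3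
          obtain ⟨j, hj⟩ := h3
          exact hj.trans (Finset.single_le_sum (f := fun j => α I j) (fun _ _ => Nat.zero_le _)
            (Finset.mem_univ j))
      _ ≤ ∑ I, ∑ j, α I j :=
          Finset.sum_le_sum_of_subset (Finset.sdiff_subset)
  have hcd : (Finset.univ \ B).card + B.card = 2 ^ n * M ^ n := by
    rw [Finset.card_sdiff_add_card_eq_card (Finset.subset_univ B), Finset.card_univ, hι, hN]
  have h4 : 2 * M ^ n ≤ 2 ^ n * M ^ n := Nat.mul_le_mul_right _ h2n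
  have h5 : 2 ^ n * M ^ n ≤ 2 * (Finset.univ \ B).card := by omega
  rw [hN, hk2]
  calc 2 ^ n * M ^ n * (2 * M) ≤ 2 * (Finset.univ \ B).card * (2 * M) := Nat.mul_le_mul_right _ h5
    _ = 4 * ((Finset.univ \ B).card * M) := by ring
    _ ≤ 4 * ∑ I, ∑ j, α I j := Nat.mul_le_mul_left _ hsum

end Pool.Agent.EUD
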