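import Pool.Agent.EUD.Defs

/-!
DetDiv: divisibility of generalised Vandermonde determinants.

PROOF of `det_dvd`.  Write `F I = ∑_α coeff α (F I) * monomial α`.  The row `I` of the matrix is
`∑_α coeff α (F I) • (s ↦ ∏_j δ s j ^ α j)`.  By multilinearity of the determinant in the rows
(`MultilinearMap.map_sum`, or `MultilinearMap.map_sum_finset` over the supports; the determinant is
`Matrix.detRowAlternating`), the determinant is the sum over all choices `α : ι → (Fin n →₀ ℕ)`, `α I ∈ (F I).support`, of
`(∏_I coeff (α I) (F I)) * det (∏_j δ s j ^ (α I) j)_{I,s}`.  If `α` is not injective two rows are equal and the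
determinant is `0`.  If `α` is injective, row `I` is divisible by `π^(|α I|)` (`δ s j = π * δ' s j`), so the determinant is
divisible by `π^(∑ |α I|)` (`Matrix.det_mul_column`-type lemma), and `e ≤ ∑ |α I|` by `he`.
(`|α| = α.degree = ∑ j, α j`.)
-/

namespace Pool.Agent.EUD

open MvPolynomial

theorem det_dvd {R ι : Type*} [CommRing R] [Fintype ι] [DecidableEq ι] {n : ℕ} (π : R) (e : ℕ)
    (he : ∀ α : ι → (Fin n → ℕ), Function.Injective α → e ≤ ∑ I, ∑ j, α I j)
    (F : ι → MvPolynomial (Fin n) R) (δ : ι → Fin n → R) (hδ : ∀ s j, π ∣ δ s j) :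
    π ^ e ∣ Matrix.det (Matrix.of fun I s => eval (δ s) (F I)) := by
  classical
  choose δ' hδ' using hδ
  have h1 : (Matrix.of fun I s => eval (δ s) (F I)).det
      = ∑ α ∈ Fintype.piFinset (fun I => (F I).support),
        (Matrix.of fun I s => (F I).coeff (α I) * ∏ j, δ s j ^ (α I) j).det := by
    have h2 : (Matrix.of fun I s => eval (δ s) (F I))
        = (fun I => ∑ d ∈ (F I).support,
            (fun s => (F I).coeff d * ∏ j, δ s j ^ d j : ι → R)) := by
      funext I s
      rw [Finset.sum_apply]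
      exact eval_eq' (δ s) (F I)
    rw [h2]
    exact MultilinearMap.map_sum_finset
      (Matrix.detRowAlternating (n := ι) (R := R)).toMultilinearMap
      (fun I d => (fun s => (F I).coeff d * ∏ j, δ s j ^ d j : ι → R))
      (fun I => (F I).support)
  rw [h1]
  refine Finset.dvd_sum fun α _ => ?_
  have h3 : (Matrix.of fun I s => (F I).coeff (α I) * ∏ j, δ s j ^ (α I) j).det
      = (∏ I, (F I).coeff (α I)) * (Matrix.of fun I s => ∏ j, δ s j ^ (α I) j).det :=
    Matrix.det_mul_column (fun I => (F I).coeff (α I)) (Matrix.of fun I s => ∏ j, δ s j ^ (α I) j)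
  rw [h3]
  refine Dvd.dvd.mul_left ?_ _
  by_cases hinj : Function.Injective α
  · have h4 : (Matrix.of fun I s => ∏ j, δ s j ^ (α I) j)
        = Matrix.of fun I s => π ^ (∑ j, (α I) j) * ∏ j, δ' s j ^ (α I) j := by
      ext I s
      simp only [Matrix.of_apply]
      rw [← Finset.prod_pow_eq_pow_sum, ← Finset.prod_mul_distrib]
      refine Finset.prod_congr rfl fun j _ => ?_
      rw [hδ' s j, mul_pow]
    have h5 : (Matrix.of fun I s => π ^ (∑ j, (α I) j) * ∏ j, δ' s j ^ (α I) j).det
        = (∏ I, π ^ (∑ j, (α I) j)) * (Matrix.of fun I s => ∏ j, δ' s j ^ (α I) j).det :=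
      Matrix.det_mul_column (fun I => π ^ (∑ j, (α I) j))
        (Matrix.of fun I s => ∏ j, δ' s j ^ (α I) j)
    rw [h4, h5, Finset.prod_pow_eq_pow_sum]
    refine Dvd.dvd.mul_right (pow_dvd_pow π ?_) _
    exact he (fun I => ⇑(α I)) (fun a b hab => hinj (DFunLike.coe_injective hab))
  · have h6 : ∃ a b, α a = α b ∧ a ≠ b := by
      simpa [Function.Injective] using hinj
    obtain ⟨a, b, hab, hne⟩ := h6
    have h7 : (Matrix.of fun I s => ∏ j, δ s j ^ (α I) j).det = 0 := by
      apply Matrix.det_zero_of_row_eq hne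
      funext s
      simp only [Matrix.of_apply, hab]
    rw [h7]
    exact dvd_zero _

end Pool.Agent.EUD
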