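import Pool.Agent.EUD.SqrtPoly
import Pool.Agent.EUD.DetDiv
import Pool.Agent.EUD.Count

/-!
ClassDet: `p`-adic divisibility of the determinants.

PROOF.  `R = ℤ_[p]` is a local ring, `2` is a unit (`p ≠ 2`), `π = (p : R)` is not a unit.  `ι = Finset (Fin (n * k))` has
`2^(n k)` elements.  Fix the index `s₀ = ∅`.  Put `δ s = X s - X s₀` (all entries divisible by `π`).  Let `K = e` and `T` from
`exists_sqrt_poly`.  For each `i` let
`U i : MvPolynomial (Fin n) R = C (Z s₀ i)^(-2) * (Q i (X s₀ + ·) - C (Q i (X s₀)))`, i.e.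
`eval δ (U i) = (Z s₀ i)^(-2) (eval (X s₀ + δ) (Q i) - eval (X s₀) (Q i))` (`MvPolynomial.aeval` / `bind₁` with
`fun j => X j + C (X s₀ j)`).  Then `Z s i ^ 2 = eval (X s) (Q i) = (Z s₀ i)^2 (1 + u)`, `u = eval (δ s) (U i)`, and `π ∣ u`
(a polynomial difference: `π ∣ X s j - X s₀ j` for all `j` implies `π ∣ eval (X s) Q - eval (X s₀) Q`).  `sqrt_approx` gives
`π^K ∣ Z s i - Z s₀ i * T.eval u`.  Let `F I = ∏_{i ∈ I} C (Z s₀ i) * (Polynomial.aeval (U i) T)`; so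
`π^K ∣ ∏_{i ∈ I} Z s i - eval (δ s) (F I)`, and the two determinants are congruent modulo `π^K` (e.g. map to
`R ⧸ Ideal.span {π^K}`: `RingHom.map_det`).  `det_dvd` with `he` from `count_degree` (`4 e ≤ 2^(nk) 2^k ≤ 4 ∑∑`).
-/

namespace Pool.Agent.EUD

open MvPolynomial

theorem cdet_two_unit {p : ℕ} [Fact p.Prime] (hp : p ≠ 2) : IsUnit (2 : ℤ_[p]) := by
  rw [PadicInt.isUnit_iff]
  by_contra h
  have h1 : ‖((2 : ℤ) : ℤ_[p])‖ < 1 := by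
    have h2 := PadicInt.norm_le_one (2 : ℤ_[p])
    push_cast
    exact lt_of_le_of_ne h2 h
  rw [PadicInt.norm_int_lt_one_iff_dvd] at h1
  have h3 : p ∣ 2 := by exact_mod_cast h1
  exact hp ((Nat.prime_dvd_prime_iff_eq Fact.out Nat.prime_two).1 h3)

theorem cdet_eval_aeval {R : Type*} [CommRing R] {n : ℕ} (δ : Fin n → R)
    (U : MvPolynomial (Fin n) R) (T : Polynomial R) :
    eval δ (Polynomial.aeval U T) = Polynomial.eval (eval δ U) T := by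
  rw [Polynomial.aeval_def, Polynomial.hom_eval₂]
  have h : (eval δ).comp (algebraMap R (MvPolynomial (Fin n) R)) = RingHom.id R := by
    ext r
    simp [MvPolynomial.algebraMap_eq]
  rw [h]
  rfl

theorem class_det {p : ℕ} [Fact p.Prime] (hp : p ≠ 2) {n k : ℕ} (hn : 1 ≤ n) (hk : 1 ≤ k)
    (Q : Fin (n * k) → MvPolynomial (Fin n) ℤ_[p])
    (X : Finset (Fin (n * k)) → Fin n → ℤ_[p]) (Z : Finset (Fin (n * k)) → Fin (n * k) → ℤ_[p])
    (hZ : ∀ s i, Z s i ^ 2 = eval (X s) (Q i))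
    (hX : ∀ s s' j, (p : ℤ_[p]) ∣ X s j - X s' j) (hZ' : ∀ s s' i, (p : ℤ_[p]) ∣ Z s i - Z s' i)
    (hu : ∀ s i, IsUnit (Z s i)) (e : ℕ) (he : 4 * e ≤ 2 ^ (n * k) * 2 ^ k) :
    (p : ℤ_[p]) ^ e ∣ Matrix.det (Matrix.of fun I s => ∏ i ∈ I, Z s i) := by
  obtain ⟨π, hπd⟩ : ∃ π : ℤ_[p], π = (p : ℤ_[p]) := ⟨_, rfl⟩
  rw [← hπd] at hX hZ' ⊢
  have hπ : ¬ IsUnit π := by
    rw [hπd]
    exact PadicInt.p_nonunit
  have h2 := cdet_two_unit hp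
  obtain ⟨T, hT, hT0⟩ := exists_sqrt_poly h2 e
  obtain ⟨w, hw⟩ : ∃ w : Fin (n * k) → ℤ_[p], ∀ i, w i * Z ∅ i = 1 := by
    have h3 : ∀ i, ∃ w : ℤ_[p], w * Z ∅ i = 1 := fun i => (hu ∅ i).exists_left_inv
    choose w hw using h3
    exact ⟨w, hw⟩
  obtain ⟨δ, hδ⟩ : ∃ δ : Finset (Fin (n * k)) → Fin n → ℤ_[p],
      ∀ s j, δ s j = X s j - X ∅ j := ⟨fun s j => X s j - X ∅ j, fun _ _ => rfl⟩
  obtain ⟨U, hU⟩ : ∃ U : Fin (n * k) → MvPolynomial (Fin n) ℤ_[p], ∀ i, U i =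
      C (w i ^ 2) * (bind₁ (fun j => MvPolynomial.X j + C (X ∅ j)) (Q i) -
        C (eval (X ∅) (Q i))) := ⟨fun i => _, fun _ => rfl⟩
  have hUe : ∀ s i, eval (δ s) (U i) = w i ^ 2 * (Z s i ^ 2 - Z ∅ i ^ 2) := by
    intro s i
    rw [hU, map_mul, map_sub, eval_C, eval_C, ← hZ ∅ i]
    have h4 : eval (δ s) (bind₁ (fun j => MvPolynomial.X j + C (X ∅ j)) (Q i)) = Z s i ^ 2 := by
      rw [hZ s i]
      have h5 : (eval (δ s)) (bind₁ (fun j => MvPolynomial.X j + C (X ∅ j)) (Q i)) =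
          eval (fun j => eval (δ s) (MvPolynomial.X j + C (X ∅ j))) (Q i) :=
        eval₂Hom_bind₁ (RingHom.id _) _ _ _
      rw [h5]
      congr 1
      apply congrArg
      funext j
      rw [map_add, eval_X, eval_C, hδ, sub_add_cancel]
    rw [h4]
  have hap : ∀ s i, π ^ e ∣ Z s i - Z ∅ i * T.eval (w i ^ 2 * (Z s i ^ 2 - Z ∅ i ^ 2)) := by
    intro s i
    refine sqrt_approx hπ h2 hT hT0 (hu ∅ i) (hZ' s ∅ i) ?_ ?_
    · obtain ⟨c, hc⟩ := hZ' s ∅ i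
      refine ⟨w i ^ 2 * c * (Z s i + Z ∅ i), ?_⟩
      have h6 : Z s i ^ 2 - Z ∅ i ^ 2 = (Z s i - Z ∅ i) * (Z s i + Z ∅ i) := by ring
      rw [h6, hc]
      ring
    · have h7 := hw i
      have h8 : Z ∅ i ^ 2 * (1 + w i ^ 2 * (Z s i ^ 2 - Z ∅ i ^ 2)) =
          Z ∅ i ^ 2 + (w i * Z ∅ i) ^ 2 * (Z s i ^ 2 - Z ∅ i ^ 2) := by ring
      rw [h8, h7]
      ring
  obtain ⟨F, hF⟩ : ∃ F : Finset (Fin (n * k)) → MvPolynomial (Fin n) ℤ_[p], ∀ I, F I =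
      ∏ i ∈ I, (C (Z ∅ i) * Polynomial.aeval (U i) T) := ⟨fun I => _, fun _ => rfl⟩
  have hFe : ∀ I s, eval (δ s) (F I) =
      ∏ i ∈ I, (Z ∅ i * T.eval (w i ^ 2 * (Z s i ^ 2 - Z ∅ i ^ 2))) := by
    intro I s
    rw [hF, map_prod]
    refine Finset.prod_congr rfl fun i _ => ?_
    rw [map_mul, eval_C, cdet_eval_aeval, hUe]
  have hdet := det_dvd (ι := Finset (Fin (n * k))) π e (by
    intro α hα
    have h9 := count_degree hn hk (by rw [Fintype.card_finset, Fintype.card_fin]) α hα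
    omega) F δ (fun s j => by rw [hδ]; exact hX s ∅ j)
  rw [← Ideal.Quotient.eq_zero_iff_dvd] at hdet ⊢
  have hq : ∀ s i, Ideal.Quotient.mk (Ideal.span {π ^ e}) (Z s i) =
      Ideal.Quotient.mk (Ideal.span {π ^ e})
        (Z ∅ i * T.eval (w i ^ 2 * (Z s i ^ 2 - Z ∅ i ^ 2))) := by
    intro s i
    rw [← sub_eq_zero, ← map_sub, Ideal.Quotient.eq_zero_iff_dvd]
    exact hap s i
  rw [RingHom.map_det] at hdet ⊢
  rw [← hdet]
  congr 1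
  ext I s
  show Ideal.Quotient.mk (Ideal.span {π ^ e}) (∏ i ∈ I, Z s i) =
    Ideal.Quotient.mk (Ideal.span {π ^ e}) (eval (δ s) (F I))
  rw [hFe, map_prod, map_prod]
  exact Finset.prod_congr rfl fun i _ => hq s i

end Pool.Agent.EUD
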