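import Pool.Agent.EUD.Defs

/-!
LocalSplit: a square root singularity is not analytic.

`local_split`: PROOF.  Let `ν x = √(qf A (x - c))`, so `ν (c + t v) = |t| √(qf A v)`.  On a small ball around `c`
`f x = - g x ν x` for all `x ≠ c` and, by continuity, for `x = c` as well.  Fix `v ≠ 0` and put `F t = f (c + t v)`,
`Gt = g (c + t v)`, analytic in `t` near `0`, `F t = - κ |t| G t`, `κ = √(qf A v) > 0`.  Claim `G = 0` near `0`: the function
`F t + κ t G t` is analytic and vanishes for small `t > 0`, hence near `0` (identity theorem in one variable,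
`AnalyticAt.eventually_eq_or_eventually_ne` / `frequently_zero_iff_eventually_zero`); likewise `F t - κ t G t` vanishes for
small `t < 0`, hence near `0`.  Subtract: `2 κ t G t = 0` near `0`, so `G t = 0` for small `t ≠ 0`.
So for every `v` the function `g` vanishes at `c + t v` for small `t` (depending on `v`).  To get a neighbourhood: `g` is
analytic on a ball around `c` (so on each line segment in this ball through `c`), and by the identity theorem on
the segment (preconnected) `g` vanishes on the whole segment inside the ball.  Hence `g = 0` on the ball, and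
`f = - g ν = 0` there.
-/

namespace Pool.Agent.EUD

open Filter Topology

private theorem qf_smul {n : ℕ} (A : Matrix (Fin n) (Fin n) ℤ) (t : ℝ) (v : Fin n → ℝ) :
    qf A (fun j => t * v j) = t ^ 2 * qf A v := by
  unfold qf
  rw [Finset.mul_sum]
  refine Finset.sum_congr rfl fun i _ => ?_
  rw [Finset.mul_sum]
  refine Finset.sum_congr rfl fun j _ => ?_
  ring

/-- the statement on the punctured ball, at the point `c + v` -/
private theorem split_point {n : ℕ} {A : Matrix (Fin n) (Fin n) ℤ} (hA : PosDef A)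
    {c : Fin n → ℝ} {f g : (Fin n → ℝ) → ℝ} {r : ℝ}
    (h : ∀ x ∈ Metric.ball c r, AnalyticAt ℝ f x ∧ AnalyticAt ℝ g x ∧
      (x ≠ c → f x + g x * √(qf A (fun j => x j - c j)) = 0))
    {v : Fin n → ℝ} (hv : v ≠ 0) (hvr : ‖v‖ < r) : f (c + v) = 0 ∧ g (c + v) = 0 := by
  have hv0 : 0 < ‖v‖ := norm_pos_iff.mpr hv
  have hκ : 0 < √(qf A v) := Real.sqrt_pos.mpr (hA v hv)
  have hρ : 1 < r / ‖v‖ := (one_lt_div hv0).mpr hvr
  have hmem : ∀ t ∈ Metric.ball (0 : ℝ) (r / ‖v‖), c + t • v ∈ Metric.ball c r := by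
    intro t ht
    rw [mem_ball_zero_iff, lt_div_iff₀ hv0] at ht
    rw [mem_ball_iff_norm, add_sub_cancel_left, norm_smul]
    exact ht
  have hl : ∀ t : ℝ, AnalyticAt ℝ (fun t : ℝ => c + t • v) t := fun t =>
    analyticAt_const.add (analyticAt_id.smul analyticAt_const)
  have hF : ∀ t ∈ Metric.ball (0 : ℝ) (r / ‖v‖), AnalyticAt ℝ (fun t : ℝ => f (c + t • v)) t :=
    fun t ht => AnalyticAt.fun_comp (h _ (hmem t ht)).1 (hl t)
  have hG : ∀ t ∈ Metric.ball (0 : ℝ) (r / ‖v‖), AnalyticAt ℝ (fun t : ℝ => g (c + t • v)) t :=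
    fun t ht => AnalyticAt.fun_comp (h _ (hmem t ht)).2.1 (hl t)
  have hrel : ∀ t ∈ Metric.ball (0 : ℝ) (r / ‖v‖), t ≠ 0 →
      f (c + t • v) + g (c + t • v) * (|t| * √(qf A v)) = 0 := by
    intro t ht ht0
    have h1 := (h _ (hmem t ht)).2.2 (by
      rw [Ne, add_eq_left]
      exact smul_ne_zero ht0 hv)
    have h2 : (fun j => (c + t • v) j - c j) = fun j => t * v j := by
      funext j
      simp
    rw [h2, qf_smul, Real.sqrt_mul (sq_nonneg t), Real.sqrt_sq_eq_abs] at h1
    exact h1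
  have hpre : IsPreconnected (Metric.ball (0 : ℝ) (r / ‖v‖)) :=
    (convex_ball (0 : ℝ) (r / ‖v‖)).isPreconnected
  have hP : AnalyticOnNhd ℝ (fun t : ℝ => f (c + t • v) + g (c + t • v) * (t * √(qf A v)))
      (Metric.ball (0 : ℝ) (r / ‖v‖)) := fun t ht =>
    (hF t ht).add ((hG t ht).mul (analyticAt_id.mul analyticAt_const))
  have hQ : AnalyticOnNhd ℝ (fun t : ℝ => f (c + t • v) - g (c + t • v) * (t * √(qf A v)))
      (Metric.ball (0 : ℝ) (r / ‖v‖)) := fun t ht =>
    (hF t ht).sub ((hG t ht).mul (analyticAt_id.mul analyticAt_const))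
  have hm1 : (1 / 2 : ℝ) ∈ Metric.ball (0 : ℝ) (r / ‖v‖) := by
    rw [mem_ball_zero_iff, Real.norm_eq_abs, abs_of_pos (by norm_num)]
    linarith
  have hm2 : (-(1 / 2) : ℝ) ∈ Metric.ball (0 : ℝ) (r / ‖v‖) := by
    rw [mem_ball_zero_iff, Real.norm_eq_abs, abs_neg, abs_of_pos (by norm_num)]
    linarith
  have hm3 : (1 : ℝ) ∈ Metric.ball (0 : ℝ) (r / ‖v‖) := by
    rw [mem_ball_zero_iff, Real.norm_eq_abs, abs_one]
    exact hρ
  have eP := hP.eqOn_zero_of_preconnected_of_eventuallyEq_zero hpre hm1 (by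
    filter_upwards [Metric.isOpen_ball.mem_nhds hm1, lt_mem_nhds (show (0 : ℝ) < 1 / 2 by norm_num)]
      with t ht ht0
    have h1 := hrel t ht ht0.ne'
    rw [abs_of_pos ht0] at h1
    exact h1)
  have eQ := hQ.eqOn_zero_of_preconnected_of_eventuallyEq_zero hpre hm2 (by
    filter_upwards [Metric.isOpen_ball.mem_nhds hm2,
      gt_mem_nhds (show (-(1 / 2) : ℝ) < 0 by norm_num)] with t ht ht0
    have h1 := hrel t ht ht0.ne
    rw [abs_of_neg ht0] at h1
    show f (c + t • v) - g (c + t • v) * (t * √(qf A v)) = 0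
    linarith)
  have e1 := eP hm3
  have e2 := eQ hm3
  simp only [one_smul, one_mul, Pi.zero_apply] at e1 e2
  constructor
  · linarith
  · have h3 : g (c + v) * √(qf A v) = 0 := by linarith
    rcases mul_eq_zero.mp h3 with h4 | h4
    · exact h4
    · exact absurd h4 hκ.ne'

theorem local_split {n : ℕ} (hn : 1 ≤ n) {A : Matrix (Fin n) (Fin n) ℤ} (hA : PosDef A)
    {c : Fin n → ℝ} {f g : (Fin n → ℝ) → ℝ} (hf : AnalyticAt ℝ f c) (hg : AnalyticAt ℝ g c)
    (h : ∀ᶠ x in 𝓝[≠] c, f x + g x * √(qf A (fun j => x j - c j)) = 0) :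
    (∀ᶠ x in 𝓝 c, f x = 0) ∧ (∀ᶠ x in 𝓝 c, g x = 0) := by
  have : Nonempty (Fin n) := ⟨⟨0, hn⟩⟩
  have h1 := hf.eventually_analyticAt.and (hg.eventually_analyticAt.and
    (eventually_nhdsWithin_iff.mp h))
  obtain ⟨r, hr, h2⟩ := Metric.eventually_nhds_iff_ball.mp h1
  have h3 : ∀ x ∈ Metric.ball c r, x ≠ c → f x = 0 ∧ g x = 0 := by
    intro x hx hxc
    have h4 := split_point (A := A) hA (f := f) (g := g) (c := c) (r := r) (fun y hy =>
      ⟨(h2 y hy).1, (h2 y hy).2.1, fun hyc => (h2 y hy).2.2 hyc⟩) (v := x - c)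
      (sub_ne_zero.mpr hxc) (mem_ball_iff_norm.mp hx)
    rwa [add_sub_cancel] at h4
  have h5 : f =ᶠ[𝓝[≠] c] fun _ => 0 := by
    filter_upwards [self_mem_nhdsWithin, mem_nhdsWithin_of_mem_nhds (Metric.ball_mem_nhds c hr)]
      with x hx hx2
    exact (h3 x hx2 hx).1
  have h6 : g =ᶠ[𝓝[≠] c] fun _ => 0 := by
    filter_upwards [self_mem_nhdsWithin, mem_nhdsWithin_of_mem_nhds (Metric.ball_mem_nhds c hr)]
      with x hx hx2
    exact (h3 x hx2 hx).2
  exact ⟨(ContinuousAt.eventuallyEq_nhds_iff_eventuallyEq_nhdsNE hf.continuousAt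
      continuousAt_const).mp h5,
    (ContinuousAt.eventuallyEq_nhds_iff_eventuallyEq_nhdsNE hg.continuousAt
      continuousAt_const).mp h6⟩

end Pool.Agent.EUD
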