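import Pool.Agent.EUD.AnaBasic
import Pool.Agent.EUD.LocalSplit

/-!
Indep: the products of the functions `√(qf A (x - c i))` over the subsets `I` are linearly independent.

PROOF.  Write `ζ i x = √(qf A (x - c i))`, `S_T^a (x) = ∑_{I ⊆ T} a I ∏_{i ∈ I} ζ i x` for a finite set `T` of indices.
Claim by induction on `T` (for all `a` and all nonempty open `U`): if `S_T^a = 0` on `U` then `a I = 0` for all
`I ⊆ T`.  `T = ∅`: clear.  Step `insert i T`, `i ∉ T`: `S_{insert i T}^a = f + g ζ i` with `f = S_T^a`, `g = S_T^{a'}`,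
`a' I = a (insert i I)` (`Finset.sum_powerset_insert`).  The function `f + g ζ i` is analytic on the complement of the finite
set `{c j}` (`analytic_sqrt`), which is preconnected (`compl_preconnected`) and meets `U` in a nonempty open
set (`n ≥ 1`: finite sets have empty interior), so it vanishes on this complement (identity theorem,
`AnalyticOnNhd.eqOn_zero_of_preconnected_of_eventuallyEq_zero`), in particular at all `x ≠ c i` near `c i`
(`c` injective).  `f` and `g` are analytic at `c i` (`c j ≠ c i` for `j ∈ T`).  `local_split`: `f = g = 0` near `c i`.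
Apply the induction hypothesis to `f` and `g` on a small open ball around `c i`.
Finally `T = univ`.
-/

namespace Pool.Agent.EUD

open Filter Topology Set

private theorem sum_analytic {n m : ℕ} {A : Matrix (Fin n) (Fin n) ℤ} (hA : PosDef A)
    {c : Fin m → Fin n → ℝ} (a : Finset (Fin m) → ℝ) (T : Finset (Fin m)) {x : Fin n → ℝ}
    (hx : ∀ i ∈ T, x ≠ c i) :
    AnalyticAt ℝ (fun x : Fin n → ℝ =>
      ∑ I ∈ T.powerset, a I * ∏ i ∈ I, √(qf A (fun j => x j - c i j))) x := by
  refine Finset.analyticAt_fun_sum _ fun I hI => ?_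
  refine analyticAt_const.mul (Finset.analyticAt_fun_prod _ fun i hi => ?_)
  exact analytic_sqrt hA (c i) x (hx i (Finset.mem_powerset.mp hI hi))

private theorem indep_aux {n m : ℕ} (hn : 2 ≤ n) {A : Matrix (Fin n) (Fin n) ℤ} (hA : PosDef A)
    {c : Fin m → Fin n → ℝ} (hc : Function.Injective c) (T : Finset (Fin m)) :
    ∀ (a : Finset (Fin m) → ℝ) (U : Set (Fin n → ℝ)), IsOpen U → U.Nonempty →
      (∀ x ∈ U, ∑ I ∈ T.powerset, a I * ∏ i ∈ I, √(qf A (fun j => x j - c i j)) = 0) →
      ∀ I ⊆ T, a I = 0 := by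
  induction T using Finset.induction_on with
  | empty =>
    intro a U _ hne h I hI
    obtain ⟨x, hx⟩ := hne
    have h1 := h x hx
    rw [Finset.subset_empty.mp hI]
    simpa using h1
  | insert i T hi ih =>
    intro a U hU hne h
    set f : (Fin n → ℝ) → ℝ := fun x => ∑ I ∈ T.powerset, a I *
      ∏ i ∈ I, √(qf A (fun j => x j - c i j)) with hf
    set g : (Fin n → ℝ) → ℝ := fun x => ∑ I ∈ T.powerset, a (insert i I) *
      ∏ i ∈ I, √(qf A (fun j => x j - c i j)) with hg
    have hsplit : ∀ x : Fin n → ℝ, ∑ I ∈ (insert i T).powerset, a I *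
        ∏ i ∈ I, √(qf A (fun j => x j - c i j)) = f x + g x * √(qf A (fun j => x j - c i j)) := by
      intro x
      rw [Finset.sum_powerset_insert hi, hf, hg]
      congr 1
      rw [Finset.sum_mul]
      refine Finset.sum_congr rfl fun I hI => ?_
      have hiI : i ∉ I := fun h => hi (Finset.mem_powerset.mp hI h)
      rw [Finset.prod_insert hiI]
      ring
    have hfin : (range c).Finite := finite_range c
    have hFan : AnalyticOnNhd ℝ (fun x => f x + g x * √(qf A (fun j => x j - c i j)))
        (range c)ᶜ := by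
      intro x hx
      have hx' : ∀ j, x ≠ c j := fun j hj => hx ⟨j, hj.symm⟩
      exact (sum_analytic hA a T fun j _ => hx' j).add
        ((sum_analytic hA (fun I => a (insert i I)) T fun j _ => hx' j).mul
          (analytic_sqrt hA (c i) x (hx' i)))
    have hpre : IsPreconnected (range c)ᶜ := compl_preconnected hn hfin
    have : Nonempty (Fin n) := ⟨⟨0, by omega⟩⟩
    have : Nontrivial (Fin n → ℝ) := Function.nontrivial
    have hdense : Dense (range c)ᶜ := hfin.countable.dense_compl ℝ
    obtain ⟨x₀, hx₀, hx₀'⟩ := hdense.inter_open_nonempty U hU hne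
    have hzero := hFan.eqOn_zero_of_preconnected_of_eventuallyEq_zero hpre hx₀' (by
      filter_upwards [hU.mem_nhds hx₀] with x hx
      show f x + g x * √(qf A (fun j => x j - c i j)) = 0
      rw [← hsplit]
      exact h x hx)
    have hnear : ∀ᶠ x in 𝓝[≠] (c i), f x + g x * √(qf A (fun j => x j - c i j)) = 0 := by
      have h1 : ((range c) \ {c i})ᶜ ∈ 𝓝 (c i) := by
        refine (hfin.subset sdiff_subset).isClosed.isOpen_compl.mem_nhds ?_
        intro h2
        exact h2.2 rfl
      filter_upwards [mem_nhdsWithin_of_mem_nhds h1, self_mem_nhdsWithin] with x hx hx'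
      exact hzero fun h2 => hx ⟨h2, hx'⟩
    have hne' : ∀ j ∈ T, c i ≠ c j := by
      intro j hj hij
      exact hi ((hc hij) ▸ hj)
    obtain ⟨h1, h2⟩ := local_split (by omega) hA (sum_analytic hA a T hne')
      (sum_analytic hA (fun I => a (insert i I)) T hne') hnear
    obtain ⟨V, hV, hVo, hVc⟩ := mem_nhds_iff.mp h1
    obtain ⟨V', hV', hVo', hVc'⟩ := mem_nhds_iff.mp h2
    have k1 := ih a V hVo ⟨_, hVc⟩ fun x hx => hV hx
    have k2 := ih (fun I => a (insert i I)) V' hVo' ⟨_, hVc'⟩ fun x hx => hV' hx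
    intro I hI
    by_cases hiI : i ∈ I
    · have h3 := k2 (I.erase i) (by
        rw [← Finset.subset_insert_iff]
        exact hI)
      simpa [Finset.insert_erase hiI] using h3
    · exact k1 I ((Finset.subset_insert_iff_of_notMem hiI).mp hI)

theorem indep {n m : ℕ} (hn : 2 ≤ n) {A : Matrix (Fin n) (Fin n) ℤ} (hA : PosDef A)
    {c : Fin m → Fin n → ℝ} (hc : Function.Injective c) (a : Finset (Fin m) → ℝ)
    {U : Set (Fin n → ℝ)} (hU : IsOpen U) (hne : U.Nonempty)
    (h : ∀ x ∈ U, ∑ I : Finset (Fin m), a I * ∏ i ∈ I, √(qf A (fun j => x j - c i j)) = 0) :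
    a = 0 := by
  funext I
  refine indep_aux hn hA hc Finset.univ a U hU hne (fun x hx => ?_) I (Finset.subset_univ I)
  rw [Finset.powerset_univ]
  exact h x hx

end Pool.Agent.EUD
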