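import Pool.Agent.EUD.SignNorm
import Pool.Agent.EUD.Indep

/-!
NormPoly: the norm of a nontrivial relation is a nonzero polynomial in `x`.

PROOF.  `P` from `sign_norm`, `N = bind₁ (fun i => qfP A (c i)) P` (or `aeval`), so
`eval x N = eval (fun i => qf A (x - c i)) P`, and `totalDegree N ≤ 2 totalDegree P ≤ m 2^m` (`totalDegree (qfP A c) ≤ 2`;
composition: each monomial of degree `e` becomes a polynomial of degree `≤ 2 e`).
Vanishing: if `z i ^ 2 = qf A (x - c i)` and `∑ a I ∏ z i = 0`, the factor `σ = ∅` of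
`eval x N = ∏_σ ∑_I a I ∏_{i ∈ I} (if i ∈ σ then -z i else z i)` is `0`.
`N ≠ 0`: suppose `N = 0`.  For every `x` (take `z i = √(qf A (x - c i))`, `qf A ≥ 0`) some factor `σ` vanishes at `x`.  The factor
`σ` is the continuous function `∑_I a_σ I ∏_{i ∈ I} √(qf A (x - c i))`, `a_σ I = (-1)^(card (I ∩ σ)) a I`.  So the whole
space is the union of finitely many closed sets; one of them has nonempty interior (finite union of closed
sets; or Baire, `nonempty_interior_of_iUnion_of_closed`).  `indep` on this interior gives `a_σ = 0`, so `a = 0`.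
-/

namespace Pool.Agent.EUD

open MvPolynomial

private theorem normPoly_deg_qfP {n : ℕ} (A : Matrix (Fin n) (Fin n) ℤ) (c : Fin n → ℝ) :
    (qfP A c).totalDegree ≤ 2 := by
  have hX : ∀ i : Fin n, (X i - C (c i) : MvPolynomial (Fin n) ℝ).totalDegree ≤ 1 := by
    intro i
    refine (totalDegree_sub_C_le _ _).trans ?_
    rw [totalDegree_X]
  unfold qfP
  refine totalDegree_finsetSum_le fun i _ => totalDegree_finsetSum_le fun j _ => ?_
  refine (totalDegree_mul _ _).trans ?_
  have h1 : (C (A i j : ℝ) * (X i - C (c i)) : MvPolynomial (Fin n) ℝ).totalDegree ≤ 1 := by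
    refine (totalDegree_mul _ _).trans ?_
    rw [totalDegree_C, zero_add]
    exact hX i
  have h2 := hX j
  omega

private theorem normPoly_deg_aeval {n m : ℕ} (P : MvPolynomial (Fin m) ℝ)
    (f : Fin m → MvPolynomial (Fin n) ℝ) (hf : ∀ i, (f i).totalDegree ≤ 2) :
    (aeval f P).totalDegree ≤ 2 * P.totalDegree := by
  rw [aeval_def, eval₂_eq]
  refine totalDegree_finsetSum_le fun d hd => ?_
  refine (totalDegree_mul _ _).trans ?_
  have h1 : (algebraMap ℝ (MvPolynomial (Fin n) ℝ) (coeff d P)).totalDegree = 0 := totalDegree_C _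
  rw [h1, zero_add]
  refine (totalDegree_finsetProd _ _).trans ?_
  have h2 : ∀ i ∈ d.support, (f i ^ d i).totalDegree ≤ 2 * d i := by
    intro i _
    refine (totalDegree_pow _ _).trans ?_
    rw [mul_comm 2 (d i)]
    exact Nat.mul_le_mul_left _ (hf i)
  refine (Finset.sum_le_sum h2).trans ?_
  rw [← Finset.mul_sum]
  exact Nat.mul_le_mul_left _ (le_totalDegree hd)

private theorem normPoly_eval_aeval {n m : ℕ} (P : MvPolynomial (Fin m) ℝ)
    (f : Fin m → MvPolynomial (Fin n) ℝ) (x : Fin n → ℝ) :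
    eval x (aeval f P) = eval (fun i => eval x (f i)) P := by
  rw [aeval_def, eval₂_eq, map_sum, eval_eq (fun i => eval x (f i)) P]
  refine Finset.sum_congr rfl fun d _ => ?_
  rw [map_mul, map_prod]
  congr 1
  · exact eval_C _
  · refine Finset.prod_congr rfl fun i _ => ?_
    rw [map_pow]

private theorem normPoly_cont_qf {n : ℕ} (A : Matrix (Fin n) (Fin n) ℤ) (c : Fin n → ℝ) :
    Continuous fun x : Fin n → ℝ => qf A (fun j => x j - c j) := by
  unfold qf
  fun_prop

private theorem normPoly_qf_nonneg {n : ℕ} {A : Matrix (Fin n) (Fin n) ℤ} (hA : PosDef A)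
    (x : Fin n → ℝ) : 0 ≤ qf A x := by
  by_cases hx : x = 0
  · subst hx
    simp [qf]
  · exact (hA x hx).le

theorem norm_poly {n m : ℕ} (hn : 2 ≤ n) {A : Matrix (Fin n) (Fin n) ℤ} (hA : PosDef A)
    {c : Fin m → Fin n → ℝ} (hc : Function.Injective c) (a : Finset (Fin m) → ℝ) (ha : a ≠ 0) :
    ∃ N : MvPolynomial (Fin n) ℝ, N ≠ 0 ∧ N.totalDegree ≤ m * 2 ^ m ∧
      ∀ (x : Fin n → ℝ) (z : Fin m → ℝ), (∀ i, z i ^ 2 = qf A (fun j => x j - c i j)) →
        ∑ I : Finset (Fin m), a I * ∏ i ∈ I, z i = 0 → eval x N = 0 := by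
  classical
  obtain ⟨P, hP1, hP2⟩ := sign_norm a
  have key : ∀ (x : Fin n → ℝ) (z : Fin m → ℝ), (∀ i, z i ^ 2 = qf A (fun j => x j - c i j)) →
      eval x (aeval (fun i => qfP A (c i)) P) =
        ∏ σ : Finset (Fin m), ∑ I : Finset (Fin m), a I * ∏ i ∈ I, (if i ∈ σ then -z i else z i) := by
    intro x z hz
    rw [normPoly_eval_aeval, ← hP2 z]
    congr 1
    apply congrArg
    funext i
    rw [hz i, eval_qfP]
  refine ⟨aeval (fun i => qfP A (c i)) P, ?_, ?_, ?_⟩
  · intro h0
    -- some factor vanishes on an open set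
    let F : Finset (Fin m) → (Fin n → ℝ) → ℝ := fun σ x =>
      ∑ I : Finset (Fin m), a I * ∏ i ∈ I,
        (if i ∈ σ then -√(qf A (fun j => x j - c i j)) else √(qf A (fun j => x j - c i j)))
    have hFc : ∀ σ, Continuous (F σ) := by
      intro σ
      refine continuous_finsetSum _ fun I _ => continuous_const.mul (continuous_finsetProd _ fun i _ => ?_)
      split_ifs
      · exact ((normPoly_cont_qf A (c i)).sqrt).neg
      · exact (normPoly_cont_qf A (c i)).sqrt
    have hcl : ∀ σ, IsClosed {x | F σ x = 0} := fun σ => isClosed_eq (hFc σ) continuous_const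
    have hU : (⋃ σ, {x | F σ x = 0}) = Set.univ := by
      rw [Set.eq_univ_iff_forall]
      intro x
      have h1 := key x (fun i => √(qf A (fun j => x j - c i j)))
        (fun i => Real.sq_sqrt (normPoly_qf_nonneg hA _))
      rw [h0, map_zero] at h1
      obtain ⟨σ, _, hσ⟩ := Finset.prod_eq_zero_iff.1 h1.symm
      exact Set.mem_iUnion.2 ⟨σ, hσ⟩
    obtain ⟨σ, hσ⟩ := nonempty_interior_of_iUnion_of_closed hcl hU
    have h2 := indep hn hA hc (fun I => (∏ i ∈ I, (if i ∈ σ then (-1 : ℝ) else 1)) * a I)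
      isOpen_interior hσ (by
        intro x hx
        have h30 : x ∈ {x | F σ x = 0} := interior_subset hx
        have h3 : F σ x = 0 := h30
        rw [← h3]
        refine Finset.sum_congr rfl fun I _ => ?_
        have h4 : ∏ i ∈ I, (if i ∈ σ then -√(qf A (fun j => x j - c i j))
              else √(qf A (fun j => x j - c i j)))
            = (∏ i ∈ I, (if i ∈ σ then (-1 : ℝ) else 1)) * ∏ i ∈ I, √(qf A (fun j => x j - c i j)) := by
          rw [← Finset.prod_mul_distrib]
          refine Finset.prod_congr rfl fun i _ => ?_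
          split_ifs
          · ring
          · ring
        rw [h4]
        ring)
    apply ha
    funext I
    have h5 := congrFun h2 I
    have h6 : (∏ i ∈ I, (if i ∈ σ then (-1 : ℝ) else 1)) ≠ 0 := by
      refine Finset.prod_ne_zero_iff.2 fun i _ => ?_
      split_ifs
      · norm_num
      · norm_num
    exact (mul_eq_zero.1 h5).resolve_left h6
  · exact (normPoly_deg_aeval P _ (fun i => normPoly_deg_qfP A (c i))).trans hP1
  · intro x z hz hzero
    rw [key x z hz]
    refine Finset.prod_eq_zero (Finset.mem_univ ∅) ?_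
    rw [← hzero]
    refine Finset.sum_congr rfl fun I _ => ?_
    simp

end Pool.Agent.EUD
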