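import Pool.Agent.EUD.ClassZero
import Pool.Agent.EUD.NormPoly

/-!
ClassPoly: one class of points lies on a hypersurface of degree `≤ m 2^m`, `m = n k`.

PROOF.  Let `V = {(I ↦ ∏_{i ∈ I} z x i) : x ∈ Y}` (vectors in `Finset (Fin m) → ℚ`).  `class_zero` says that the hypothesis of
`exists_relation` (`K = ℚ`) holds (choose for each `s` a point `x s ∈ Y` with `f s = (I ↦ ∏ z (x s) i)`).  So there is
`a ≠ 0` with `∑_I a I ∏_{i ∈ I} z x i = 0` for all `x ∈ Y`.  Apply `norm_poly` to the real casts of `a` and `c` (cast is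
injective).
-/

namespace Pool.Agent.EUD

open MvPolynomial

theorem class_poly {p : ℕ} [Fact p.Prime] {n k L c0 : ℕ} (hn : 2 ≤ n) (hk : 1 ≤ k)
    {A : Matrix (Fin n) (Fin n) ℤ} (hA : PosDef A) {c : Fin (n * k) → Fin n → ℚ}
    (hci : Function.Injective c) {dc : Fin (n * k) → ℕ} (hdc : ∀ i, 0 < dc i ∧ dc i ≤ 2 ^ L)
    (hc : ∀ i j, ∃ a : ℤ, (dc i : ℚ) * c i j = a) (Y : Set (Fin n → ℚ))
    (d : (Fin n → ℚ) → ℕ) (hd : ∀ x ∈ Y, 0 < d x ∧ d x ≤ 2 ^ L)
    (z : (Fin n → ℚ) → Fin (n * k) → ℚ) (hz : ∀ x ∈ Y, ∀ i, z x i ^ 2 = qf A (fun j => x j - c i j))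
    (hzb : ∀ x ∈ Y, ∀ i, |z x i| ≤ 2 ^ c0) (hg : ∀ x ∈ Y, Good p (d x) x dc (z x))
    (hlab : ∀ x ∈ Y, ∀ x' ∈ Y, label p x (z x) = label p x' (z x'))
    (hL : 4 * (n * k) * (c0 + 2 * L + 1) ≤ 2 ^ k) :
    ∃ N : MvPolynomial (Fin n) ℝ, N ≠ 0 ∧ N.totalDegree ≤ (n * k) * 2 ^ (n * k) ∧
      ∀ x ∈ Y, eval (fun j => (x j : ℝ)) N = 0 := by
  classical
  have hn1 : 1 ≤ n := by omega
  obtain ⟨a, ha0, ha⟩ := exists_relation (K := ℚ) (ι := Finset (Fin (n * k)))
    {v | ∃ x ∈ Y, v = fun I => ∏ i ∈ I, z x i} (by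
      intro f hf
      choose x hxY hfx using hf
      have h1 := class_zero (p := p) (L := L) (c0 := c0) hn1 hk A c dc hdc hc (fun s => x s)
        (fun s => d (x s)) (fun s => hd _ (hxY s)) (fun s => z (x s))
        (fun s i => hz _ (hxY s) i) (fun s i => hzb _ (hxY s) i) (fun s => hg _ (hxY s))
        (fun s s' => hlab _ (hxY s) _ (hxY s')) hL
      have h2 : (Matrix.of fun I s => f s I) =
          (Matrix.of fun (I s : Finset (Fin (n * k))) => ∏ i ∈ I, z (x s) i) := by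
        ext I s
        simp [hfx s]
      rw [h2]
      exact h1)
  have hinj : Function.Injective (fun (i : Fin (n * k)) (j : Fin n) => (c i j : ℝ)) := by
    intro i i' h
    apply hci
    funext j
    have h3 : ((c i j : ℚ) : ℝ) = (c i' j : ℝ) := congrFun h j
    exact_mod_cast h3
  have hane : (fun I => (a I : ℝ)) ≠ 0 := by
    intro h
    apply ha0
    funext I
    have h3 := congrFun h I
    simpa using h3
  obtain ⟨N, hN0, hNd, hN⟩ := norm_poly (c := fun i j => (c i j : ℝ)) hn hA hinj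
    (fun I => (a I : ℝ)) hane
  refine ⟨N, hN0, hNd, fun x hx => hN _ (fun i => (z x i : ℝ)) ?_ ?_⟩
  · intro i
    have h4 := hz x hx i
    have h5 := qf_map (Rat.castHom ℝ) A (fun j => x j - c i j)
    rw [← h4] at h5
    simpa using h5
  · have h6 := ha _ ⟨x, hx, rfl⟩
    have h7 : ((∑ I, a I * ∏ i ∈ I, z x i : ℚ) : ℝ) = 0 := by rw [h6]; simp
    push_cast at h7
    exact h7

end Pool.Agent.EUD
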