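import Pool.Agent.EUD.Defs

/-!
IntDet: a divisible and small integer determinant is zero; linear relations from vanishing determinants.

`int_det_zero`: `|det B| ≤ N! H^N ≤ (N H)^N < p^e` (`Matrix.det_le` or the Leibniz formula `Matrix.det_apply`),
`N = card ι`, and `p^e ∣ det B` (`Int.eq_zero_of_abs_lt_dvd`-type lemma).

`exists_relation`: otherwise the vectors of `V` span `ι → K` (if the span is a proper subspace there is a nonzero
linear functional vanishing on it, given by a vector `c`); choose a basis of `ι → K` among the vectors of `V`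
(`exists_linearIndependent` / `Basis.ofSpan`...), indexed by `ι` (cardinality `card ι = finrank`); its matrix
has nonzero determinant.
-/

namespace Pool.Agent.EUD

theorem int_det_zero {ι : Type*} [Fintype ι] [DecidableEq ι] (B : Matrix ι ι ℤ) {H p e : ℕ}
    (hB : ∀ I s, |B I s| ≤ (H : ℤ)) (hdvd : ((p : ℤ) ^ e) ∣ B.det)
    (hsmall : (Fintype.card ι * H) ^ Fintype.card ι < p ^ e) : B.det = 0 := by
  have h1 : |B.det| ≤ Nat.factorial (Fintype.card ι) • (H : ℤ) ^ Fintype.card ι :=
    Matrix.det_le (abv := (AbsoluteValue.abs : AbsoluteValue ℤ ℤ)) (A := B) (x := (H : ℤ)) hB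
  apply Int.eq_zero_of_abs_lt_dvd hdvd
  refine lt_of_le_of_lt h1 ?_
  rw [nsmul_eq_mul]
  have h2 : ((Nat.factorial (Fintype.card ι) : ℕ) : ℤ) * (H : ℤ) ^ Fintype.card ι
      ≤ (((Fintype.card ι * H) ^ Fintype.card ι : ℕ) : ℤ) := by
    rw [Nat.mul_pow]
    push_cast
    have h3 : ((Nat.factorial (Fintype.card ι) : ℕ) : ℤ) ≤ ((Fintype.card ι : ℕ) : ℤ) ^ Fintype.card ι := by
      exact_mod_cast Nat.factorial_le_pow (Fintype.card ι)
    exact mul_le_mul_of_nonneg_right h3 (by positivity)
  refine lt_of_le_of_lt h2 ?_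
  exact_mod_cast hsmall

theorem exists_relation {K ι : Type*} [Field K] [Fintype ι] [DecidableEq ι] (V : Set (ι → K))
    (h : ∀ f : ι → (ι → K), (∀ s, f s ∈ V) → Matrix.det (Matrix.of fun I s => f s I) = 0) :
    ∃ c : ι → K, c ≠ 0 ∧ ∀ v ∈ V, ∑ I, c I * v I = 0 := by
  classical
  by_cases hS : Submodule.span K V = ⊤
  · exfalso
    obtain ⟨b, hbV, hbs, hli⟩ := exists_linearIndependent K V
    rw [hS] at hbs
    let bas : Module.Basis b K (ι → K) := Module.Basis.mk hli (by
      rw [Subtype.range_coe_subtype, Set.ofPred_mem_eq, hbs])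
    haveI : Fintype b := FiniteDimensional.fintypeBasisIndex bas
    have hcard : Fintype.card ι = Fintype.card b := by
      rw [← Module.finrank_eq_card_basis bas, Module.finrank_fintype_fun_eq_card]
    let E : ι ≃ b := Fintype.equivOfCardEq hcard
    have hdet := h (fun s => (E s : ι → K)) (fun s => hbV (E s).2)
    have hli2 : LinearIndependent K (fun s : ι => ((E s : b) : ι → K)) := hli.comp E E.injective
    have hU : IsUnit (Matrix.of fun s I => ((E s : b) : ι → K) I) :=
      Matrix.linearIndependent_rows_iff_isUnit.1 hli2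
    have hU2 := (Matrix.isUnit_iff_isUnit_det _).1 hU
    have hT : (Matrix.of fun I s => ((E s : b) : ι → K) I)
        = (Matrix.of fun s I => ((E s : b) : ι → K) I).transpose := by
      ext I s
      rfl
    rw [hT, Matrix.det_transpose] at hdet
    rw [hdet] at hU2
    exact not_isUnit_zero hU2
  · obtain ⟨f, hf0, hf⟩ := Submodule.exists_le_ker_of_lt_top (Submodule.span K V)
      (lt_top_iff_ne_top.2 hS)
    have hfv : ∀ v : ι → K, ∑ I, f (Pi.single I 1) * v I = f v := by
      intro v
      have h1 : v = ∑ I, v I • (Pi.single I 1 : ι → K) := by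
        ext J
        simp [Finset.sum_apply, Pi.single_apply]
      conv_rhs => rw [h1]
      rw [map_sum]
      refine Finset.sum_congr rfl (fun I _ => ?_)
      rw [map_smul, smul_eq_mul, mul_comm]
    refine ⟨fun I => f (Pi.single I 1), ?_, ?_⟩
    · intro h0
      apply hf0
      refine LinearMap.ext (fun v => ?_)
      rw [LinearMap.zero_apply, ← hfv v]
      refine Finset.sum_eq_zero (fun I _ => ?_)
      have h1 := congrFun h0 I
      simp only [Pi.zero_apply] at h1
      rw [h1, zero_mul]
    · intro v hv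
      rw [hfv v]
      exact hf (Submodule.subset_span hv)

end Pool.Agent.EUD
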