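import Pool.Agent.EUD.Defs

/-!
Label: residues of rational numbers and labels of points.

`coe_pz`: if `p ∤ d` and `d r` is an integer then `r` is a `p`-adic integer and `(pz p r : ℚ_[p]) = r`
(`‖r‖ = ‖d‖ ‖r‖ = ‖(a : ℤ)‖ ≤ 1`, as `‖(d : ℚ_[p])‖ = 1`).  So for such numbers `pz` is compatible with `+`, `-`, `*`, squares, `qf A`.
`pz_unit`: if moreover `d r = a` with `p ∤ a` then `‖r‖ = 1`, so `pz p r` is a unit.
`res_eq_iff`: `PadicInt.toZMod` has kernel the maximal ideal `span {p}`.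
`label_eq`: let `r = res p (z i)`, `r' = res p (z' i)`; `r^2 = r'^2` because both are the residue of
`qf A (x - c i)`, `qf A (x' - c i)` and the coordinates of `x`, `x'` have the same residues.  So `r = r'` or `r = - r'`;
both are nonzero (units).  In a field `ZMod p`, `p` odd, for `r ≠ 0` exactly one of `2 r.val < p`, `2 (-r).val < p` holds
(`(-r).val = p - r.val`), so equality of the second components of the labels excludes `r' = - r` (or gives `r = r'`).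
-/

namespace Pool.Agent.EUD

private theorem norm_den {p : ℕ} [Fact p.Prime] {r : ℚ} {d : ℕ} (hd : ¬ p ∣ d) {a : ℤ}
    (h : (d : ℚ) * r = a) : ‖(r : ℚ_[p])‖ = ‖((a : ℤ) : ℚ_[p])‖ := by
  have h1 : ‖((d : ℕ) : ℚ_[p])‖ = 1 := by
    rw [Padic.norm_natCast_eq_one_iff]
    exact (Nat.Prime.coprime_iff_not_dvd Fact.out).mpr hd
  have h2 : ((d : ℕ) : ℚ_[p]) * (r : ℚ_[p]) = ((a : ℤ) : ℚ_[p]) := by
    have := congrArg (fun q : ℚ => (q : ℚ_[p])) h
    push_cast at this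
    exact this
  rw [← h2, norm_mul, h1, one_mul]

private theorem pz_eq {p : ℕ} [Fact p.Prime] {r : ℚ} {u : ℤ_[p]} (h : (u : ℚ_[p]) = (r : ℚ_[p])) :
    pz p r = u := by
  have h1 : ‖(r : ℚ_[p])‖ ≤ 1 := by
    rw [← h]
    exact u.2
  have h2 : pz p r = (⟨(r : ℚ_[p]), h1⟩ : ℤ_[p]) := dif_pos h1
  rw [h2]
  exact Subtype.ext h.symm

theorem coe_pz {p : ℕ} [Fact p.Prime] {r : ℚ} {d : ℕ} (hd : ¬ p ∣ d) {a : ℤ}
    (h : (d : ℚ) * r = a) : ((pz p r : ℤ_[p]) : ℚ_[p]) = (r : ℚ_[p]) := by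
  have h1 : ‖(r : ℚ_[p])‖ ≤ 1 := by
    rw [norm_den hd h]
    exact Padic.norm_int_le_one a
  have h2 : pz p r = (⟨(r : ℚ_[p]), h1⟩ : ℤ_[p]) := dif_pos h1
  rw [h2]

theorem pz_unit {p : ℕ} [Fact p.Prime] {r : ℚ} {d : ℕ} (hd : ¬ p ∣ d) {a : ℤ}
    (h : (d : ℚ) * r = a) (ha : ¬ (p : ℤ) ∣ a) : IsUnit (pz p r) := by
  rw [PadicInt.isUnit_iff, PadicInt.norm_def, coe_pz hd h, norm_den hd h]
  refine le_antisymm (Padic.norm_int_le_one a) ?_
  by_contra hcon
  push Not at hcon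
  exact ha ((Padic.norm_intCast_lt_one_iff).mp hcon)

theorem res_eq_iff {p : ℕ} [Fact p.Prime] (r r' : ℚ) :
    res p r = res p r' ↔ (p : ℤ_[p]) ∣ pz p r - pz p r' := by
  unfold res
  rw [← Ideal.mem_span_singleton, ← PadicInt.maximalIdeal_eq_span_p, ← PadicInt.ker_toZMod,
    RingHom.mem_ker, map_sub, sub_eq_zero]

/-- the relation `z ^ 2 = qf A (x - c)` between the residues -/
private theorem res_sq {n : ℕ} {p : ℕ} [Fact p.Prime] (A : Matrix (Fin n) (Fin n) ℤ)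
    {c x : Fin n → ℚ} {z : ℚ} (hc : ∀ j, ((pz p (c j) : ℤ_[p]) : ℚ_[p]) = (c j : ℚ_[p]))
    (hx : ∀ j, ((pz p (x j) : ℤ_[p]) : ℚ_[p]) = (x j : ℚ_[p]))
    (hz : ((pz p z : ℤ_[p]) : ℚ_[p]) = (z : ℚ_[p])) (h : z ^ 2 = qf A (fun j => x j - c j)) :
    res p z ^ 2 = qf A (fun j => res p (x j) - res p (c j)) := by
  have h1 : (pz p z) ^ 2 = qf A (fun j => pz p (x j) - pz p (c j)) := by
    have hinj : Function.Injective (PadicInt.Coe.ringHom (p := p)) := Subtype.val_injective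
    apply hinj
    rw [map_pow, qf_map]
    have e1 : (PadicInt.Coe.ringHom (p := p)) (pz p z) = algebraMap ℚ ℚ_[p] z := hz
    have e2 : (fun j => (PadicInt.Coe.ringHom (p := p)) (pz p (x j) - pz p (c j))) =
        fun j => algebraMap ℚ ℚ_[p] (x j - c j) := by
      funext j
      rw [map_sub, map_sub]
      have e3 : (PadicInt.Coe.ringHom (p := p)) (pz p (x j)) = algebraMap ℚ ℚ_[p] (x j) := hx j
      have e4 : (PadicInt.Coe.ringHom (p := p)) (pz p (c j)) = algebraMap ℚ ℚ_[p] (c j) := hc j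
      rw [e3, e4]
    rw [e1, e2, ← qf_map, ← map_pow, h]
  have h2 := congrArg (PadicInt.toZMod (p := p)) h1
  rw [map_pow, qf_map] at h2
  simpa [res, map_sub] using h2

private theorem res_ne {p : ℕ} [Fact p.Prime] {r : ℚ} (h : IsUnit (pz p r)) : res p r ≠ 0 := by
  have := h.map (PadicInt.toZMod (p := p))
  exact this.ne_zero

/-- equal labels imply equal residues of all distances -/
theorem label_eq {n m : ℕ} {p : ℕ} [Fact p.Prime] (A : Matrix (Fin n) (Fin n) ℤ)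
    {c : Fin m → Fin n → ℚ} {dc : Fin m → ℕ} (hc : ∀ i j, ∃ a : ℤ, (dc i : ℚ) * c i j = a)
    {x x' : Fin n → ℚ} {z z' : Fin m → ℚ} {d d' : ℕ}
    (hg : Good p d x dc z) (hg' : Good p d' x' dc z')
    (hz : ∀ i, z i ^ 2 = qf A (fun j => x j - c i j))
    (hz' : ∀ i, z' i ^ 2 = qf A (fun j => x' j - c i j))
    (hlab : label p x z = label p x' z') (i : Fin m) : res p (z i) = res p (z' i) := by
  have hp : p.Prime := Fact.out
  obtain ⟨h2, hd, hdc, hxd, hzd⟩ := hg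
  obtain ⟨-, hd', -, hxd', hzd'⟩ := hg'
  have hcc : ∀ j, ((pz p (c i j) : ℤ_[p]) : ℚ_[p]) = (c i j : ℚ_[p]) := fun j => by
    obtain ⟨a, ha⟩ := hc i j
    exact coe_pz (hdc i) ha
  have hxx : ∀ j, ((pz p (x j) : ℤ_[p]) : ℚ_[p]) = (x j : ℚ_[p]) := fun j => by
    obtain ⟨a, ha⟩ := hxd j
    exact coe_pz hd ha
  have hxx' : ∀ j, ((pz p (x' j) : ℤ_[p]) : ℚ_[p]) = (x' j : ℚ_[p]) := fun j => by
    obtain ⟨a, ha⟩ := hxd' j
    exact coe_pz hd' ha
  have hm : ¬ p ∣ d * dc i := fun hcon => ((hp.dvd_mul).mp hcon).elim hd (hdc i)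
  have hm' : ¬ p ∣ d' * dc i := fun hcon => ((hp.dvd_mul).mp hcon).elim hd' (hdc i)
  obtain ⟨a, ha, hpa⟩ := hzd i
  obtain ⟨a', ha', hpa'⟩ := hzd' i
  have ha1 : ((d * dc i : ℕ) : ℚ) * z i = a := by push_cast; exact ha
  have ha1' : ((d' * dc i : ℕ) : ℚ) * z' i = a' := by push_cast; exact ha'
  have hs := res_sq A hcc hxx (coe_pz hm ha1) (hz i)
  have hs' := res_sq A hcc hxx' (coe_pz hm' ha1') (hz' i)
  have hl1 : ∀ j, res p (x j) = res p (x' j) := fun j => congrFun (congrArg Prod.fst hlab) j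
  have hl2 : (2 * (res p (z i)).val < p) ↔ (2 * (res p (z' i)).val < p) := by
    have := congrFun (congrArg Prod.snd hlab) i
    simpa [label] using this
  have hsq : res p (z i) ^ 2 = res p (z' i) ^ 2 := by
    rw [hs, hs']
    congr 1
    funext j
    rw [hl1 j]
  rcases sq_eq_sq_iff_eq_or_eq_neg.mp hsq with h | h
  · exact h
  · exfalso
    have hne : res p (z' i) ≠ 0 := res_ne (pz_unit hm' ha1' hpa')
    rw [h, ZMod.neg_val, if_neg hne] at hl2
    have hlt := ZMod.val_lt (res p (z' i))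
    have hodd : Odd p := hp.odd_of_ne_two h2
    obtain ⟨k, hk⟩ := hodd
    omega

end Pool.Agent.EUD
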