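import Pool.Agent.EUD.ClassDet
import Pool.Agent.EUD.IntDet
import Pool.Agent.EUD.Label

/-!
ClassZero: the determinants of one class vanish.

PROOF.  `m = n k`, `N = 2^m = card (Finset (Fin m))`, `K s = ∏_i (d s * dc i)`.  The number `(d s * dc i) z s i =: a s i` is an
integer (`Good`), and `B I s = (∏_{i ∈ I} a s i) (∏_{i ∉ I} d s * dc i) = K s * ∏_{i ∈ I} z s i` is an integer matrix with
`|B I s| ≤ H := (2^(2 L + c0))^m`.  In `ℤ_[p]` (`coe_pz`; `X s j = pz p (x s j)`, `Z s i = pz p (z s i)`,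
`Q i = qfP A (pz p (c i ·))`), `class_det` applies: the labels are equal, so `res p (x s j)` does not depend on `s`,
and `res p (z s i)` does not depend on `s` (`label_eq`); use `res_eq_iff`; `pz_unit` for `hu`.  So with
`e = 2^m 2^k / 4` (`2^k ≥ 4` by `hL`) `p^e ∣ det (∏_{i ∈ I} Z s i)` in `ℤ_[p]`, hence `p^e ∣ det B` in `ℤ_[p]`, and in `ℤ`
(`PadicInt.pow_p_dvd_int_iff`).  `(N H)^N = 2^(m (2 L + c0 + 1) N) ≤ 2^e < 3^e ≤ p^e` by `hL`.  `int_det_zero`: `det B = 0`, and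
`det B = (∏_s K s) det (∏_{i ∈ I} z s i)`, `K s ≠ 0`.
-/

namespace Pool.Agent.EUD

/-- the product formula for the integer matrix, in any field-like ring -/
private theorem prod_formula {R : Type*} [CommRing R] {m : ℕ} (I : Finset (Fin m)) (u v w : Fin m → R)
    (h : ∀ i, v i = u i * w i) :
    (∏ i, if i ∈ I then v i else u i) = (∏ i, u i) * ∏ i ∈ I, w i := by
  have h1 : ∀ i, (if i ∈ I then v i else u i) = u i * (if i ∈ I then w i else 1) := by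
    intro i
    by_cases hi : i ∈ I
    · rw [if_pos hi, if_pos hi, h]
    · rw [if_neg hi, if_neg hi, mul_one]
  rw [Finset.prod_congr rfl fun i _ => h1 i, Finset.prod_mul_distrib, Finset.prod_ite_mem,
    Finset.univ_inter]

private theorem det_formula {R : Type*} [CommRing R] {m : ℕ} (B : Matrix (Finset (Fin m)) (Finset (Fin m)) ℤ)
    (u v w : Finset (Fin m) → Fin m → R) (h : ∀ s i, v s i = u s i * w s i)
    (hB : ∀ I s, ((B I s : ℤ) : R) = ∏ i, if i ∈ I then v s i else u s i) :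
    ((B.det : ℤ) : R) = (∏ s, ∏ i, u s i) * Matrix.det (Matrix.of fun I s => ∏ i ∈ I, w s i) := by
  have h1 : ((B.det : ℤ) : R) = ((Int.castRingHom R).mapMatrix B).det :=
    RingHom.map_det (Int.castRingHom R) B
  rw [h1, ← Matrix.det_mul_row]
  congr 1
  ext I s
  show ((B I s : ℤ) : R) = (∏ i, u s i) * ∏ i ∈ I, w s i
  rw [hB I s, prod_formula I (u s) (v s) (w s) (h s)]

private theorem numeric {m k q p : ℕ} (hm : 1 ≤ m) (hq : 1 ≤ q) (hp : 3 ≤ p)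
    (hL : 4 * m * q ≤ 2 ^ k) :
    ∃ e : ℕ, 4 * e ≤ 2 ^ m * 2 ^ k ∧ (2 ^ m * (2 ^ (q - 1)) ^ m) ^ 2 ^ m < p ^ e := by
  have h0 : 1 ≤ m * q := Nat.mul_pos hm hq
  have h4 : 4 ≤ 2 ^ k := by
    calc 4 = 4 * 1 := rfl
      _ ≤ 4 * (m * q) := Nat.mul_le_mul_left 4 h0
      _ = 4 * m * q := by ring
      _ ≤ 2 ^ k := hL
  have hk : 2 ≤ k := by
    by_contra hk
    have h5 : k ≤ 1 := by omega
    have h6 : 2 ^ k ≤ 2 ^ 1 := Nat.pow_le_pow_right (by norm_num) h5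
    omega
  obtain ⟨j, rfl⟩ : ∃ j, k = j + 2 := ⟨k - 2, by omega⟩
  obtain ⟨r, rfl⟩ : ∃ r, q = r + 1 := ⟨q - 1, by omega⟩
  have h7 : m * (r + 1) ≤ 2 ^ j := by
    have h8 : 2 ^ (j + 2) = 4 * 2 ^ j := by ring
    rw [h8] at hL
    have h9 : 4 * (m * (r + 1)) ≤ 4 * 2 ^ j := by
      calc 4 * (m * (r + 1)) = 4 * m * (r + 1) := by ring
        _ ≤ _ := hL
    exact Nat.le_of_mul_le_mul_left h9 (by norm_num)
  refine ⟨2 ^ m * 2 ^ j, le_of_eq (by ring), ?_⟩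
  have h10 : 2 ^ m * (2 ^ (r + 1 - 1)) ^ m = 2 ^ (m * (r + 1)) := by
    rw [Nat.add_sub_cancel, ← pow_mul, ← pow_add]
    congr 1
    ring
  rw [h10, ← pow_mul]
  have h11 : m * (r + 1) * 2 ^ m ≤ 2 ^ m * 2 ^ j := by
    rw [mul_comm (2 ^ m)]
    exact Nat.mul_le_mul_right _ h7
  have h12 : 2 ^ m * 2 ^ j ≠ 0 := by positivity
  calc 2 ^ (m * (r + 1) * 2 ^ m) ≤ 2 ^ (2 ^ m * 2 ^ j) := Nat.pow_le_pow_right (by norm_num) h11
    _ < 3 ^ (2 ^ m * 2 ^ j) := Nat.pow_lt_pow_left (by norm_num) h12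
    _ ≤ p ^ (2 ^ m * 2 ^ j) := Nat.pow_le_pow_left hp _

private theorem hZ_aux {p : ℕ} [Fact p.Prime] {n : ℕ} (A : Matrix (Fin n) (Fin n) ℤ)
    {x c : Fin n → ℚ} {z : ℚ} (h : z ^ 2 = qf A (fun j => x j - c j))
    (hx : ∀ j, ((pz p (x j) : ℤ_[p]) : ℚ_[p]) = (x j : ℚ_[p]))
    (hc : ∀ j, ((pz p (c j) : ℤ_[p]) : ℚ_[p]) = (c j : ℚ_[p]))
    (hz : ((pz p z : ℤ_[p]) : ℚ_[p]) = (z : ℚ_[p])) :
    pz p z ^ 2 = MvPolynomial.eval (fun j => pz p (x j)) (qfP A (fun j => pz p (c j))) := by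
  rw [eval_qfP]
  apply Subtype.coe_injective
  show ((pz p z ^ 2 : ℤ_[p]) : ℚ_[p]) = _
  rw [PadicInt.coe_pow, hz]
  have h1 := qf_map (PadicInt.Coe.ringHom (p := p)) A (fun i => pz p (x i) - pz p (c i))
  have h2 : (PadicInt.Coe.ringHom (p := p)) (qf A fun i => pz p (x i) - pz p (c i)) =
      ((qf A fun i => pz p (x i) - pz p (c i) : ℤ_[p]) : ℚ_[p]) := rfl
  show (z : ℚ_[p]) ^ 2 = ((qf A fun i => pz p (x i) - pz p (c i) : ℤ_[p]) : ℚ_[p])
  rw [← h2, h1]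
  have h3 := qf_map (Rat.castHom ℚ_[p]) A (fun j => x j - c j)
  rw [← h] at h3
  rw [Rat.coe_castHom, Rat.cast_pow] at h3
  rw [h3]
  congr 1
  funext i
  rw [map_sub]
  show _ = ((pz p (x i) : ℤ_[p]) : ℚ_[p]) - ((pz p (c i) : ℤ_[p]) : ℚ_[p])
  rw [hx, hc, Rat.cast_sub]

theorem class_zero {p : ℕ} [Fact p.Prime] {n k L c0 : ℕ} (hn : 1 ≤ n) (hk : 1 ≤ k)
    (A : Matrix (Fin n) (Fin n) ℤ) (c : Fin (n * k) → Fin n → ℚ) (dc : Fin (n * k) → ℕ)
    (hdc : ∀ i, 0 < dc i ∧ dc i ≤ 2 ^ L) (hc : ∀ i j, ∃ a : ℤ, (dc i : ℚ) * c i j = a)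
    (x : Finset (Fin (n * k)) → Fin n → ℚ) (d : Finset (Fin (n * k)) → ℕ)
    (hd : ∀ s, 0 < d s ∧ d s ≤ 2 ^ L) (z : Finset (Fin (n * k)) → Fin (n * k) → ℚ)
    (hz : ∀ s i, z s i ^ 2 = qf A (fun j => x s j - c i j)) (hzb : ∀ s i, |z s i| ≤ 2 ^ c0)
    (hg : ∀ s, Good p (d s) (x s) dc (z s))
    (hlab : ∀ s s', label p (x s) (z s) = label p (x s') (z s'))
    (hL : 4 * (n * k) * (c0 + 2 * L + 1) ≤ 2 ^ k) :
    Matrix.det (Matrix.of fun I s => ∏ i ∈ I, z s i) = 0 := by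
  have hprime : p.Prime := Fact.out
  have hp2 : p ≠ 2 := (hg ∅).1
  have hp3 : 3 ≤ p := by
    have := hprime.two_le
    omega
  choose a ha using fun s i => (hg s).2.2.2.2 i
  have hdd : ∀ s i, ¬ p ∣ d s * dc i := by
    intro s i h
    rcases hprime.dvd_mul.1 h with h | h
    · exact (hg s).2.1 h
    · exact (hg s).2.2.1 i h
  have hzi : ∀ s i, (((d s * dc i : ℕ)) : ℚ) * z s i = ((a s i : ℤ) : ℚ) := by
    intro s i
    rw [Nat.cast_mul]
    exact (ha s i).1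
  have hcz : ∀ s i, ((pz p (z s i) : ℤ_[p]) : ℚ_[p]) = (z s i : ℚ_[p]) :=
    fun s i => coe_pz (hdd s i) (hzi s i)
  have hcx : ∀ s j, ((pz p (x s j) : ℤ_[p]) : ℚ_[p]) = (x s j : ℚ_[p]) := by
    intro s j
    obtain ⟨b, hb⟩ := (hg s).2.2.2.1 j
    exact coe_pz (hg s).2.1 hb
  have hcc : ∀ i j, ((pz p (c i j) : ℤ_[p]) : ℚ_[p]) = (c i j : ℚ_[p]) := by
    intro i j
    obtain ⟨b, hb⟩ := hc i j
    exact coe_pz ((hg ∅).2.2.1 i) hb
  obtain ⟨e, he, hnum⟩ := numeric (m := n * k) (k := k) (q := c0 + 2 * L + 1) (p := p)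
    (Nat.mul_pos hn hk) (by omega) hp3 hL
  rw [Nat.add_sub_cancel] at hnum
  -- the divisibility
  have hdet := class_det hp2 hn hk (fun i => qfP A (fun j => pz p (c i j)))
    (fun s j => pz p (x s j)) (fun s i => pz p (z s i))
    (fun s i => hZ_aux A (hz s i) (hcx s) (hcc i) (hcz s i))
    (fun s s' j => (res_eq_iff _ _).1 (congrFun (congrArg Prod.fst (hlab s s')) j))
    (fun s s' i => (res_eq_iff _ _).1 (label_eq A hc (hg s) (hg s') (hz s) (hz s') (hlab s s') i))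
    (fun s i => pz_unit (hdd s i) (hzi s i) (ha s i).2) e he
  -- the integer matrix
  let B : Matrix (Finset (Fin (n * k))) (Finset (Fin (n * k))) ℤ :=
    Matrix.of fun I s => ∏ i, if i ∈ I then a s i else ((d s * dc i : ℕ) : ℤ)
  have hBapp : ∀ I s, B I s = ∏ i, if i ∈ I then a s i else ((d s * dc i : ℕ) : ℤ) :=
    fun _ _ => rfl
  have hBcast : ∀ (R : Type) [CommRing R] (I s : Finset (Fin (n * k))), ((B I s : ℤ) : R) =
      ∏ i, if i ∈ I then ((a s i : ℤ) : R) else ((d s * dc i : ℕ) : R) := by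
    intro R _ I s
    rw [hBapp, Int.cast_prod]
    refine Finset.prod_congr rfl fun i _ => ?_
    by_cases hi : i ∈ I
    · rw [if_pos hi, if_pos hi]
    · rw [if_neg hi, if_neg hi, Int.cast_natCast]
  have hBQ := det_formula B (fun s i => ((d s * dc i : ℕ) : ℚ)) (fun s i => ((a s i : ℤ) : ℚ))
    z (fun s i => (hzi s i).symm) (hBcast ℚ)
  have hBZ := det_formula B (fun s i => ((d s * dc i : ℕ) : ℤ_[p]))
    (fun s i => ((a s i : ℤ) : ℤ_[p])) (fun s i => pz p (z s i)) (by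
      intro s i
      apply Subtype.coe_injective
      show (((a s i : ℤ) : ℤ_[p]) : ℚ_[p]) =
        ((((d s * dc i : ℕ) : ℤ_[p]) * pz p (z s i) : ℤ_[p]) : ℚ_[p])
      rw [PadicInt.coe_mul, hcz, PadicInt.coe_intCast, PadicInt.coe_natCast]
      have h1 := congrArg (fun r : ℚ => (r : ℚ_[p])) (hzi s i)
      beta_reduce at h1
      rw [Rat.cast_mul, Rat.cast_natCast, Rat.cast_intCast] at h1
      exact h1.symm) (hBcast ℤ_[p])
  have hdvd : (p : ℤ) ^ e ∣ B.det := by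
    have h1 : (p : ℤ_[p]) ^ e ∣ ((B.det : ℤ) : ℤ_[p]) := by
      rw [hBZ]
      exact Dvd.dvd.mul_left hdet _
    exact (PadicInt.pow_p_dvd_int_iff e B.det).1 h1
  -- the bound
  have hbound : ∀ I s, |B I s| ≤ (((2 ^ (c0 + 2 * L)) ^ (n * k) : ℕ) : ℤ) := by
    intro I s
    rw [hBapp, Finset.abs_prod, Nat.cast_pow]
    have h1 : (((2 ^ (c0 + 2 * L) : ℕ) : ℤ)) ^ (n * k) =
        ∏ _i : Fin (n * k), ((2 ^ (c0 + 2 * L) : ℕ) : ℤ) := by
      rw [Finset.prod_const, Finset.card_univ, Fintype.card_fin]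
    rw [h1]
    refine Finset.prod_le_prod (fun i _ => abs_nonneg _) fun i _ => ?_
    have h2 : d s * dc i ≤ 2 ^ (2 * L) := by
      calc d s * dc i ≤ 2 ^ L * 2 ^ L := Nat.mul_le_mul (hd s).2 (hdc i).2
        _ = 2 ^ (2 * L) := by rw [← pow_add, two_mul]
    by_cases hi : i ∈ I
    · rw [if_pos hi]
      have h3 : |((a s i : ℤ) : ℚ)| ≤ ((2 ^ (c0 + 2 * L) : ℕ) : ℚ) := by
        rw [← hzi s i, abs_mul, Nat.abs_cast]
        calc ((d s * dc i : ℕ) : ℚ) * |z s i| ≤ ((2 ^ (2 * L) : ℕ) : ℚ) * 2 ^ c0 :=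
              mul_le_mul (Nat.cast_le.2 h2) (hzb s i) (abs_nonneg _) (Nat.cast_nonneg _)
          _ = ((2 ^ (c0 + 2 * L) : ℕ) : ℚ) := by
              push_cast
              rw [pow_add, mul_comm]
      rw [← Int.cast_abs] at h3
      exact_mod_cast h3
    · rw [if_neg hi, Nat.abs_cast, Nat.cast_le]
      exact h2.trans (Nat.pow_le_pow_right (by norm_num) (by omega))
  have hB0 : B.det = 0 := by
    refine int_det_zero B hbound hdvd ?_
    rw [Fintype.card_finset, Fintype.card_fin]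
    exact hnum
  rw [hB0, Int.cast_zero] at hBQ
  have hK : (∏ s, ∏ i, (fun s i => ((d s * dc i : ℕ) : ℚ)) s i) ≠ 0 := by
    refine Finset.prod_ne_zero_iff.2 fun s _ => Finset.prod_ne_zero_iff.2 fun i _ => ?_
    exact Nat.cast_ne_zero.2 (Nat.mul_ne_zero (hd s).1.ne' (hdc i).1.ne')
  rcases mul_eq_zero.1 hBQ.symm with h | h
  · exact absurd h hK
  · exact h

end Pool.Agent.EUD
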