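import Pool.Agent.EUD.Defs

/-!
Numerics: numerical inequalities.

`numerics`: with `k = 2 log₂ L + 2` (`Nat.log 2 L`): `2^(log₂ L) ≤ L < 2^(log₂ L + 1)`, so `L^2 < 2^k ≤ 4 L^2`, and
`k ≤ 2 log₂ L + 2` is smaller than any power of `L`; `2^(n k) ≤ (4 L^2)^n`.
(3): `L^2 * ((L^2)^n * 2^m) * (m 2^m) + 2 m ≤ L^2 L^(2n) (4 L^2)^(2n) m + 2 m = 16^n m L^(6n+2) + 2 m ≤ L^(6n+3)`.
-/

namespace Pool.Agent.EUD

private theorem num_log (K : ℕ) : ∀ L ≥ 2 ^ (8 * K), K * (2 * Nat.log 2 L + 2) ≤ L := by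
  intro L hL
  have hL0 : L ≠ 0 := by
    have : 0 < 2 ^ (8 * K) := by positivity
    omega
  have ha : 8 * K ≤ Nat.log 2 L := (Nat.le_log_iff_pow_le (by norm_num) hL0).2 hL
  have hpow : 2 ^ Nat.log 2 L ≤ L := Nat.pow_log_le_self 2 hL0
  refine le_trans ?_ hpow
  generalize Nat.log 2 L = a at ha
  obtain ⟨b, hb⟩ : ∃ b, b = a / 2 := ⟨_, rfl⟩
  have h1 : 2 * b ≤ a := by omega
  have h2 : a ≤ 2 * b + 1 := by omega
  have h3 : 4 * K ≤ b := by omega
  have h4 : b < 2 ^ b := Nat.lt_two_pow_self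
  calc K * (2 * a + 2) ≤ K * (4 * (b + 1)) := Nat.mul_le_mul_left _ (by omega)
    _ = (4 * K) * (b + 1) := by ring
    _ ≤ 2 ^ b * 2 ^ b := Nat.mul_le_mul (by omega) h4
    _ = 2 ^ (2 * b) := by rw [← pow_add]; congr 1; ring
    _ ≤ 2 ^ a := Nat.pow_le_pow_right (by norm_num) h1

theorem numerics (n c0 : ℕ) : ∃ L₀ : ℕ, ∀ L ≥ L₀, ∀ k, k = 2 * Nat.log 2 L + 2 →
    4 * (n * k) * (c0 + 2 * L + 1) ≤ 2 ^ k ∧
    1 + L + (n * k) * (3 * L + c0) < L ^ 2 / 2 ∧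
    L ^ 2 * ((L ^ 2) ^ n * 2 ^ (n * k)) * ((n * k) * 2 ^ (n * k)) + 2 * (n * k) ≤ L ^ (6 * n + 3) := by
  obtain ⟨K, hK⟩ : ∃ K, K = 8 * n * (c0 + 3) + (16 ^ n + 2) * n + 16 := ⟨_, rfl⟩
  refine ⟨2 ^ (8 * K), ?_⟩
  intro L hL k hk
  have hL0 : L ≠ 0 := by
    have : 0 < 2 ^ (8 * K) := by positivity
    omega
  have hKk : K * k ≤ L := by
    rw [hk]; exact num_log K L hL
  have hk2 : 2 ≤ k := by omega
  -- consequences of the choice of `K`
  have e1 : 8 * n * (c0 + 3) * k ≤ L :=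
    le_trans (Nat.mul_le_mul_right k (by rw [hK]; omega)) hKk
  have e2 : (16 ^ n + 2) * n * k ≤ L :=
    le_trans (Nat.mul_le_mul_right k (by rw [hK]; omega)) hKk
  have e3 : 32 ≤ L := by
    have h : 16 * k ≤ L := le_trans (Nat.mul_le_mul_right k (by rw [hK]; omega)) hKk
    omega
  -- bounds for `2 ^ k`
  have hp : 2 ^ k = (2 * 2 ^ Nat.log 2 L) ^ 2 := by
    rw [hk, pow_add, pow_mul, mul_pow, ← pow_mul, ← pow_mul, mul_comm 2 (Nat.log 2 L)]
    ring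
  have hlo : L + 1 ≤ 2 * 2 ^ Nat.log 2 L := by
    have h := Nat.lt_pow_succ_log_self (b := 2) (by norm_num) L
    rw [Nat.pow_succ] at h
    omega
  have hhi : 2 ^ Nat.log 2 L ≤ L := Nat.pow_log_le_self 2 hL0
  have hk_lo : L ^ 2 ≤ 2 ^ k := by
    rw [hp]; exact Nat.pow_le_pow_left (by omega) 2
  have hk_hi : 2 ^ k ≤ 4 * L ^ 2 := by
    rw [hp, show 4 * L ^ 2 = (2 * L) ^ 2 by ring]
    exact Nat.pow_le_pow_left (by omega) 2
  refine ⟨?_, ?_, ?_⟩
  · refine le_trans ?_ hk_lo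
    calc 4 * (n * k) * (c0 + 2 * L + 1) ≤ 4 * (n * k) * ((c0 + 3) * L) := by
          apply Nat.mul_le_mul_left
          nlinarith [Nat.mul_le_mul_left c0 (show 1 ≤ L by omega)]
      _ ≤ (8 * n * (c0 + 3) * k) * L := by
          have : 4 * (n * k) * ((c0 + 3) * L) = (4 * n * (c0 + 3) * k) * L := by ring
          rw [this]
          apply Nat.mul_le_mul_right
          apply Nat.mul_le_mul_right
          apply Nat.mul_le_mul_right
          omega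
      _ ≤ L * L := Nat.mul_le_mul_right _ e1
      _ = L ^ 2 := by ring
  · have h1 : 8 * ((n * k) * (3 * L + c0)) ≤ L ^ 2 := by
      calc 8 * ((n * k) * (3 * L + c0)) ≤ 8 * ((n * k) * ((c0 + 3) * L)) := by
            apply Nat.mul_le_mul_left
            apply Nat.mul_le_mul_left
            nlinarith [Nat.mul_le_mul_left c0 (show 1 ≤ L by omega)]
        _ = (8 * n * (c0 + 3) * k) * L := by ring
        _ ≤ L * L := Nat.mul_le_mul_right _ e1
        _ = L ^ 2 := by ring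
    have h2 : 32 * L ≤ L ^ 2 := by
      rw [sq]; exact Nat.mul_le_mul_right _ e3
    generalize (n * k) * (3 * L + c0) = a at h1
    generalize L ^ 2 = X at h1 h2
    omega
  · have h1 : 2 ^ (n * k) ≤ (4 * L ^ 2) ^ n := by
      rw [mul_comm n k, pow_mul]
      exact Nat.pow_le_pow_left hk_hi n
    calc L ^ 2 * ((L ^ 2) ^ n * 2 ^ (n * k)) * ((n * k) * 2 ^ (n * k)) + 2 * (n * k)
        ≤ L ^ 2 * ((L ^ 2) ^ n * (4 * L ^ 2) ^ n) * ((n * k) * (4 * L ^ 2) ^ n) + 2 * (n * k) := by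
          gcongr
      _ = 16 ^ n * (n * k) * L ^ (6 * n + 2) + 2 * (n * k) := by
          have : (16 : ℕ) ^ n = 4 ^ n * 4 ^ n := by rw [← mul_pow]; norm_num
          rw [this, mul_pow, ← pow_mul]
          ring
      _ ≤ 16 ^ n * (n * k) * L ^ (6 * n + 2) + 2 * (n * k) * L ^ (6 * n + 2) := by
          apply Nat.add_le_add_left
          exact Nat.le_mul_of_pos_right _ (Nat.pow_pos (by omega))
      _ = ((16 ^ n + 2) * n * k) * L ^ (6 * n + 2) := by ring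
      _ ≤ L * L ^ (6 * n + 2) := Nat.mul_le_mul_right _ e2
      _ = L ^ (6 * n + 3) := by ring

end Pool.Agent.EUD
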