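import Pool.Agent.EUD.Defs

/-!
Primes: every point has a good prime `≤ L^2`.

`exists_prime`: `Chebyshev.theta_ge`, `Chebyshev.theta_eq_log_primorial`:
`log (primorial (L^2)) ≥ L^2 log 2 - log (L^2 + 1) - 2 L log (L^2) ≥ (L^2 / 2) log 2` for large `L`.  If all primes `p ≤ L^2`
divided `P` then `primorial (L^2) ∣ P` (pairwise coprime), so `2^(L^2/2) ≤ P`.

`sq_int`: a rational number `r` whose square is an integer is an integer.

`exists_good`: `d * dc i * z i` has the square `qf A (d * dc i * (x - c i))`, an integer, so it is an integer `a i`; it is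
nonzero, because `qf A (x - c i) > 0` (`PosDef`, `x ≠ c i`, cast to `ℝ`), and `|a i| ≤ 2^(2 L + c0)`.  Apply `exists_prime` to
`P = 2 * d * ∏_i dc i * ∏_i |a i| ≤ 2^(1 + L + m L + m (2 L + c0)) < 2^(L^2/2)`.  `p ∤ P` gives `Good` (`p ≠ 2`).
-/

namespace Pool.Agent.EUD

theorem exists_prime : ∃ L₀ : ℕ, ∀ L ≥ L₀, ∀ P : ℕ, P ≠ 0 → P < 2 ^ (L ^ 2 / 2) →
    ∃ p, p.Prime ∧ p ≤ L ^ 2 ∧ ¬ p ∣ P := by
  have h1 : ∀ᶠ x : ℝ in Filter.atTop, ‖Real.log x‖ ≤ (1 / 100) * ‖x‖ :=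
    Real.isLittleO_log_id_atTop.def (by norm_num)
  obtain ⟨x₀, hx₀⟩ := Filter.eventually_atTop.1 h1
  refine ⟨max ⌈x₀⌉₊ 10, fun L hL P hP hlt => ?_⟩
  by_contra hcon
  push Not at hcon
  have hL10 : (10 : ℝ) ≤ L := by
    exact_mod_cast (le_max_right _ _).trans hL
  have hLx : x₀ ≤ L := (Nat.le_ceil x₀).trans (by exact_mod_cast (le_max_left _ _).trans hL)
  have hlog : Real.log L ≤ (1 / 100) * L := by
    have h2 := hx₀ L hLx
    rw [Real.norm_eq_abs, Real.norm_eq_abs, abs_of_nonneg (by linarith : (0 : ℝ) ≤ L)] at h2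
    exact (le_abs_self _).trans h2
  have hdvd : primorial (L ^ 2) ∣ P := by
    unfold primorial
    apply Finset.prod_primes_dvd
    · intro p hp
      exact (Finset.mem_filter.1 hp).2.prime
    · intro p hp
      obtain ⟨h2, h3⟩ := Finset.mem_filter.1 hp
      exact hcon p h3 (Nat.lt_succ_iff.1 (Finset.mem_range.1 h2))
  have hle : primorial (L ^ 2) < 2 ^ (L ^ 2 / 2) := (Nat.le_of_dvd (Nat.pos_of_ne_zero hP) hdvd).trans_lt hlt
  have h2 := Chebyshev.theta_eq_log_primorial ((L ^ 2 : ℕ) : ℝ)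
  rw [Nat.floor_natCast] at h2
  have h3 := Chebyshev.theta_ge (L ^ 2)
  rw [h2] at h3
  have h4 : Real.log (primorial (L ^ 2)) ≤ (L : ℝ) ^ 2 / 2 * Real.log 2 := by
    have h5 : Real.log (primorial (L ^ 2)) ≤ Real.log ((2 : ℝ) ^ (L ^ 2 / 2)) := by
      apply Real.log_le_log
      · exact_mod_cast primorial_pos _
      · exact_mod_cast hle.le
    rw [Real.log_pow] at h5
    refine h5.trans ?_
    apply mul_le_mul_of_nonneg_right _ (Real.log_nonneg (by norm_num))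
    have h6 := Nat.cast_div_le (α := ℝ) (m := L ^ 2) (n := 2)
    push_cast at h6 ⊢
    exact h6
  have h5 : √((L ^ 2 : ℕ) : ℝ) = L := by
    push_cast
    exact Real.sqrt_sq (by linarith)
  rw [h5] at h3
  push_cast at h3
  have h6 : Real.log ((L : ℝ) ^ 2) = 2 * Real.log L := by
    rw [Real.log_pow]
    norm_num
  have h7 : Real.log ((L : ℝ) ^ 2 + 1) ≤ 3 * Real.log L := by
    have h8 : (L : ℝ) ^ 2 + 1 ≤ (L : ℝ) ^ 3 := by nlinarith
    have h9 := Real.log_le_log (by positivity) h8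
    rw [Real.log_pow] at h9
    exact_mod_cast h9
  rw [h6] at h3
  have h8 := Real.log_two_gt_d9
  have h9 : 0 ≤ Real.log L := Real.log_nonneg (by linarith)
  have h10 : (L : ℝ) * Real.log L ≤ (1 / 100) * (L : ℝ) ^ 2 := by nlinarith
  have h11 : (0.69 : ℝ) * (L : ℝ) ^ 2 ≤ (L : ℝ) ^ 2 * Real.log 2 := by nlinarith [sq_nonneg (L : ℝ)]
  nlinarith

theorem sq_int {r : ℚ} {a : ℤ} (h : r ^ 2 = a) : ∃ b : ℤ, r = b := by
  have h1 : IsIntegral ℤ r := by
    apply IsIntegral.of_pow (n := 2) (by norm_num)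
    rw [h]
    exact isIntegral_algebraMap (R := ℤ) (x := a)
  obtain ⟨b, hb⟩ := IsIntegrallyClosed.isIntegral_iff.mp h1
  exact ⟨b, by rw [← hb]; simp⟩

theorem exists_good : ∃ L₀ : ℕ, ∀ L ≥ L₀, ∀ {n m c0 : ℕ} {A : Matrix (Fin n) (Fin n) ℤ}
    (_ : PosDef A) {c : Fin m → Fin n → ℚ} {dc : Fin m → ℕ}
    (_ : ∀ i, 0 < dc i ∧ dc i ≤ 2 ^ L) (_ : ∀ i j, ∃ a : ℤ, (dc i : ℚ) * c i j = a)
    {x : Fin n → ℚ} {d : ℕ} (_ : 0 < d) (_ : d ≤ 2 ^ L) (_ : ∀ j, ∃ a : ℤ, (d : ℚ) * x j = a)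
    {z : Fin m → ℚ} (_ : ∀ i, z i ^ 2 = qf A (fun j => x j - c i j)) (_ : ∀ i, |z i| ≤ 2 ^ c0)
    (_ : ∀ i, x ≠ c i) (_ : 1 + L + m * (3 * L + c0) < L ^ 2 / 2),
    ∃ p, p.Prime ∧ p ≤ L ^ 2 ∧ Good p d x dc z := by
  obtain ⟨L₀, hL₀⟩ := exists_prime
  refine ⟨L₀, fun L hL n m c0 A hA c dc hdc hc x d hd hdL hx z hz hzb hne hm => ?_⟩
  have ha : ∀ i, ∃ a : ℤ, (d : ℚ) * dc i * z i = a ∧ a ≠ 0 ∧ a.natAbs ≤ 2 ^ (2 * L + c0) := by
    intro i
    choose u hu using hx
    choose v hv using hc i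
    have h1 : ((d : ℚ) * dc i * z i) ^ 2 =
        ((qf A (fun j => (dc i : ℤ) * u j - d * v j) : ℤ) : ℚ) := by
      have h2 := qf_map (Int.castRingHom ℚ) A (fun j => (dc i : ℤ) * u j - d * v j)
      have h3 : ((qf A (fun j => (dc i : ℤ) * u j - d * v j) : ℤ) : ℚ) =
          qf A (fun j => ((d : ℚ) * dc i) * (x j - c i j)) := by
        refine h2.trans ?_
        congr 1
        funext j
        simp only [eq_intCast]
        push_cast
        rw [← hu j, ← hv j]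
        ring
      rw [h3, mul_pow, hz i]
      unfold qf
      simp only [Finset.mul_sum]
      refine Finset.sum_congr rfl fun k _ => Finset.sum_congr rfl fun l _ => ?_
      ring
    obtain ⟨a, haa⟩ := sq_int h1
    have hzne : z i ≠ 0 := by
      intro h0
      have h2 := hz i
      rw [h0] at h2
      have h3 : (fun j => ((x j - c i j : ℚ) : ℝ)) ≠ 0 := by
        intro h4
        apply hne i
        funext j
        have h5 := congrFun h4 j
        simp only [Pi.zero_apply, Rat.cast_eq_zero] at h5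
        linarith
      have h4 := hA _ h3
      have h5 := qf_map (Rat.castHom ℝ) A (fun j => x j - c i j)
      rw [← h2] at h5
      simp only [Rat.coe_castHom] at h5
      rw [← h5] at h4
      simp at h4
    have hd' : (0 : ℚ) < d := by exact_mod_cast hd
    have hdc' : (0 : ℚ) < dc i := by exact_mod_cast (hdc i).1
    refine ⟨a, haa, ?_, ?_⟩
    · rintro rfl
      have h2 : (d : ℚ) * dc i * z i = 0 := by simpa using haa
      rcases mul_eq_zero.1 h2 with h3 | h3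
      · have h4 := mul_pos hd' hdc'
        linarith
      · exact hzne h3
    · have h2 : |(a : ℚ)| ≤ 2 ^ (2 * L + c0) := by
        rw [← haa, abs_mul, abs_of_pos (mul_pos hd' hdc')]
        have h3 : (d : ℚ) ≤ 2 ^ L := by exact_mod_cast hdL
        have h4 : (dc i : ℚ) ≤ 2 ^ L := by exact_mod_cast (hdc i).2
        have h5 : (2 : ℚ) ^ (2 * L + c0) = 2 ^ L * 2 ^ L * 2 ^ c0 := by
          rw [← pow_add, ← pow_add]
          congr 1
          ring
        rw [h5]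
        exact mul_le_mul (mul_le_mul h3 h4 hdc'.le (by positivity)) (hzb i) (abs_nonneg _)
          (by positivity)
      have h3 : ((a.natAbs : ℕ) : ℚ) = |(a : ℚ)| := by
        rw [Nat.cast_natAbs]
        push_cast
        rfl
      rw [← h3] at h2
      exact_mod_cast h2
  choose a ha1 ha2 ha3 using ha
  set P : ℕ := 2 * d * (∏ i, dc i) * ∏ i, (a i).natAbs with hP
  have hP0 : P ≠ 0 := by
    rw [hP]
    refine mul_ne_zero (mul_ne_zero (mul_ne_zero two_ne_zero hd.ne') ?_) ?_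
    · exact Finset.prod_ne_zero_iff.2 fun i _ => (hdc i).1.ne'
    · exact Finset.prod_ne_zero_iff.2 fun i _ => Int.natAbs_ne_zero.2 (ha2 i)
  have hPle : P ≤ 2 ^ (1 + L + m * (3 * L + c0)) := by
    have h1 : ∏ i, dc i ≤ 2 ^ (L * m) := by
      calc ∏ i, dc i ≤ ∏ _i : Fin m, 2 ^ L := Finset.prod_le_prod' fun i _ => (hdc i).2
        _ = 2 ^ (L * m) := by simp [pow_mul]
    have h2 : ∏ i, (a i).natAbs ≤ 2 ^ ((2 * L + c0) * m) := by
      calc ∏ i, (a i).natAbs ≤ ∏ _i : Fin m, 2 ^ (2 * L + c0) :=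
            Finset.prod_le_prod' fun i _ => ha3 i
        _ = 2 ^ ((2 * L + c0) * m) := by simp [pow_mul]
    calc P ≤ 2 * 2 ^ L * 2 ^ (L * m) * 2 ^ ((2 * L + c0) * m) := by
          rw [hP]
          gcongr
      _ = 2 ^ (1 + L + m * (3 * L + c0)) := by
          rw [show 1 + L + m * (3 * L + c0) = 1 + L + L * m + (2 * L + c0) * m by ring, pow_add,
            pow_add, pow_add, pow_one]
  obtain ⟨p, hp, hpL, hpP⟩ := hL₀ L hL P hP0
    (hPle.trans_lt (Nat.pow_lt_pow_right (by norm_num) hm))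
  refine ⟨p, hp, hpL, ?_, ?_, ?_, hx, fun i => ⟨a i, ha1 i, ?_⟩⟩
  · rintro rfl
    apply hpP
    rw [hP]
    exact Dvd.dvd.mul_right (Dvd.dvd.mul_right (Dvd.dvd.mul_right dvd_rfl _) _) _
  · intro h
    apply hpP
    rw [hP]
    exact Dvd.dvd.mul_right (Dvd.dvd.mul_right (Dvd.dvd.mul_left h _) _) _
  · intro i h
    apply hpP
    rw [hP]
    exact Dvd.dvd.mul_right (Dvd.dvd.mul_left (h.trans (Finset.dvd_prod_of_mem _ (Finset.mem_univ i))) _) _
  · intro h
    apply hpP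
    rw [hP]
    refine Dvd.dvd.mul_left ?_ _
    have h1 : p ∣ (a i).natAbs := Int.natCast_dvd.1 h
    exact h1.trans (Finset.dvd_prod_of_mem (fun i => (a i).natAbs) (Finset.mem_univ i))

end Pool.Agent.EUD
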