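import Pool.Agent.EUD.ClassPoly
import Pool.Agent.EUD.Primes
import Pool.Agent.EUD.Numerics

/-!
Core: the points of height `≤ 2^L` lie on a hypersurface of degree `≤ L^(6n+3)`.

PROOF.  `R` fixes `c0` with `|r| ≤ 2^c0` whenever `r^2 = qf A (x - y)`, `|x j|, |y j| ≤ R`
(`qf A (x - y) ≤ (∑ |A i j|) (2 R)^2 ≤ (2^c0)^2`; `q_bound`).  `k = 2 log₂ L + 2`, `m = n k`, `L` large (`numerics`, `exists_good`).
Case 1: `W` has fewer than `m` points.  `N = ∏_{w ∈ W} qfP A w` (real casts), degree `≤ 2 m ≤ L^(6n+3)`, nonzero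
(`qfP A w ≠ 0`: it is positive at a point different from `w`, `n ≥ 1`; `MvPolynomial` over `ℝ` is a domain).
Case 2: there is an injective `c : Fin m → W`.  Choose `dc i`, and for `x ∈ W` a denominator `d x` and square roots
`z x i`.  For a prime `p ≤ L^2` and a label `ℓ` let `Y p ℓ = {x ∈ W | Good p (d x) x dc (z x) ∧ label p x (z x) = ℓ}` and
`N p ℓ` from `class_poly`.  `N = ∏_i qfP A (c i) * ∏_{p ≤ L^2 prime} ∏_ℓ N p ℓ` (product over
`p ∈ (Finset.range (L^2+1)).filter Nat.Prime`, e.g. via `attach`, and over the finite type of labels, which has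
`p^n 2^m ≤ (L^2)^n 2^m` elements; at most `L^2` primes).  Degree:
`≤ 2 m + L^2 ((L^2)^n 2^m) (m 2^m) ≤ L^(6n+3)` by `numerics`.  Every `x ∈ W` is one of the `c i` (then `qfP A (c i)` vanishes) or
has a good prime (`exists_good`), so it lies in `Y p ℓ` for `ℓ = label p x (z x)`.
-/

set_option linter.all false

namespace Pool.Agent.EUD

open MvPolynomial

theorem q_bound {n : ℕ} (A : Matrix (Fin n) (Fin n) ℤ) (R : ℕ) : ∃ c0 : ℕ, ∀ x y : Fin n → ℚ,
    (∀ j, |x j| ≤ R) → (∀ j, |y j| ≤ R) → ∀ r : ℚ, r ^ 2 = qf A (fun j => x j - y j) →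
    |r| ≤ 2 ^ c0 := by
  refine ⟨∑ i, ∑ j, (A i j).natAbs * (2 * R) * (2 * R), fun x y hx hy r hr => ?_⟩
  have h1 : |qf A (fun j => x j - y j)| ≤
      ((∑ i, ∑ j, (A i j).natAbs * (2 * R) * (2 * R) : ℕ) : ℚ) := by
    unfold qf
    refine (Finset.abs_sum_le_sum_abs _ _).trans ?_
    push_cast
    refine Finset.sum_le_sum fun i _ => ?_
    refine (Finset.abs_sum_le_sum_abs _ _).trans ?_
    refine Finset.sum_le_sum fun j _ => ?_
    have h2 : ∀ j, |x j - y j| ≤ 2 * (R : ℚ) := by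
      intro j
      have := abs_sub (x j) (y j)
      linarith [hx j, hy j]
    rw [abs_mul, abs_mul]
    have h3 : |((A i j : ℤ) : ℚ)| = (((A i j).natAbs : ℕ) : ℚ) := by
      rw [Nat.cast_natAbs]
      push_cast
      rfl
    have h3' : |((A i j : ℤ) : ℚ)| ≤ |((A i j : ℤ) : ℚ)| := le_rfl
    have h4 : |((A i j : ℤ) : ℚ)| * |x i - y i| * |x j - y j| ≤
        |((A i j : ℤ) : ℚ)| * (2 * (R : ℚ)) * (2 * (R : ℚ)) := by
      gcongr
      · exact h2 i
      · exact h2 j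
    simpa using h4
  set c0 := ∑ i, ∑ j, (A i j).natAbs * (2 * R) * (2 * R) with hc0
  refine abs_le_of_sq_le_sq ?_ (by positivity)
  rw [hr]
  refine (le_abs_self _).trans (h1.trans ?_)
  have h5 : (c0 : ℚ) ≤ 2 ^ c0 := by
    exact_mod_cast (Nat.lt_two_pow_self (n := c0)).le
  have h6 : (1 : ℚ) ≤ 2 ^ c0 := one_le_pow₀ (by norm_num)
  nlinarith

private theorem qfP_ne_zero {n : ℕ} (hn : 1 ≤ n) {A : Matrix (Fin n) (Fin n) ℤ} (hA : PosDef A)
    (w : Fin n → ℝ) : qfP A w ≠ 0 := by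
  intro h
  have h1 := eval_qfP A w (fun i => w i + 1)
  rw [h, map_zero] at h1
  have h2 : (fun i => w i + 1 - w i) = fun _ : Fin n => (1 : ℝ) := by
    ext i
    ring
  rw [h2] at h1
  have h3 := hA (fun _ => 1) (fun h0 => by
    have := congrFun h0 ⟨0, hn⟩
    simp at this)
  exact h3.ne h1

private theorem qfP_deg {n : ℕ} (A : Matrix (Fin n) (Fin n) ℤ) (w : Fin n → ℝ) :
    (qfP A w).totalDegree ≤ 2 := by
  unfold qfP
  have hX : ∀ i : Fin n, (X i - C (w i) : MvPolynomial (Fin n) ℝ).totalDegree ≤ 1 := by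
    intro i
    refine (totalDegree_sub _ _).trans ?_
    rw [totalDegree_X, totalDegree_C]
    exact le_rfl
  refine totalDegree_finsetSum_le fun i _ => totalDegree_finsetSum_le fun j _ => ?_
  refine (totalDegree_mul _ _).trans ?_
  have h1 := totalDegree_mul (C ((A i j : ℤ) : ℝ)) (X i - C (w i) : MvPolynomial (Fin n) ℝ)
  rw [totalDegree_C] at h1
  have h2 := hX i
  have h3 := hX j
  omega

private theorem qfP_self {n : ℕ} (A : Matrix (Fin n) (Fin n) ℤ) (w : Fin n → ℝ) :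
    eval w (qfP A w) = 0 := by
  rw [eval_qfP]
  simp [qf]

/-- one prime -/
private theorem one_prime {n k L c0 : ℕ} (hn : 2 ≤ n) (hk : 1 ≤ k)
    {A : Matrix (Fin n) (Fin n) ℤ} (hA : PosDef A) {c : Fin (n * k) → Fin n → ℚ}
    (hci : Function.Injective c) {dc : Fin (n * k) → ℕ} (hdc : ∀ i, 0 < dc i ∧ dc i ≤ 2 ^ L)
    (hc : ∀ i j, ∃ a : ℤ, (dc i : ℚ) * c i j = a) (W : Set (Fin n → ℚ))
    (d : (Fin n → ℚ) → ℕ) (hd : ∀ x ∈ W, 0 < d x ∧ d x ≤ 2 ^ L)
    (z : (Fin n → ℚ) → Fin (n * k) → ℚ) (hz : ∀ x ∈ W, ∀ i, z x i ^ 2 = qf A (fun j => x j - c i j))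
    (hzb : ∀ x ∈ W, ∀ i, |z x i| ≤ 2 ^ c0)
    (hL : 4 * (n * k) * (c0 + 2 * L + 1) ≤ 2 ^ k) (p : ℕ) :
    ∃ N : MvPolynomial (Fin n) ℝ, N ≠ 0 ∧
      N.totalDegree ≤ (L ^ 2) ^ n * 2 ^ (n * k) * ((n * k) * 2 ^ (n * k)) ∧
      (p.Prime → p ≤ L ^ 2 → ∀ x ∈ W, Good p (d x) x dc (z x) →
        eval (fun j => (x j : ℝ)) N = 0) := by
  classical
  by_cases hp : p.Prime ∧ p ≤ L ^ 2
  · obtain ⟨hp, hpL⟩ := hp
    haveI : Fact p.Prime := ⟨hp⟩
    have hex : ∀ l : (Fin n → ZMod p) × (Fin (n * k) → Bool), ∃ N : MvPolynomial (Fin n) ℝ, N ≠ 0 ∧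
        N.totalDegree ≤ (n * k) * 2 ^ (n * k) ∧
        ∀ x ∈ {x ∈ W | Good p (d x) x dc (z x) ∧ label p x (z x) = l},
          eval (fun j => (x j : ℝ)) N = 0 := by
      intro l
      exact class_poly hn hk hA hci hdc hc _ d (fun x hx => hd x hx.1) z (fun x hx => hz x hx.1)
        (fun x hx => hzb x hx.1) (fun x hx => hx.2.1)
        (fun x hx x' hx' => hx.2.2.trans hx'.2.2.symm) hL
    choose N hN0 hNd hN using hex
    refine ⟨∏ l, N l, Finset.prod_ne_zero_iff.2 fun l _ => hN0 l, ?_, ?_⟩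
    · refine (totalDegree_finsetProd _ _).trans ?_
      refine (Finset.sum_le_card_nsmul _ _ _ fun l _ => hNd l).trans ?_
      rw [smul_eq_mul]
      refine Nat.mul_le_mul_right _ ?_
      rw [Finset.card_univ, Fintype.card_prod, Fintype.card_fun, Fintype.card_fun, ZMod.card,
        Fintype.card_bool, Fintype.card_fin, Fintype.card_fin]
      exact Nat.mul_le_mul_right _ (Nat.pow_le_pow_left hpL n)
    · intro _ _ x hx hg
      rw [map_prod]
      exact Finset.prod_eq_zero (Finset.mem_univ (label p x (z x))) (hN _ x ⟨hx, hg, rfl⟩)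
  · refine ⟨1, one_ne_zero, ?_, fun h1 h2 => absurd ⟨h1, h2⟩ hp⟩
    rw [totalDegree_one]
    exact Nat.zero_le _

theorem core {n : ℕ} (hn : 2 ≤ n) {A : Matrix (Fin n) (Fin n) ℤ} (hA : PosDef A) (R : ℕ) :
    ∃ L₀ : ℕ, ∀ L ≥ L₀, ∀ W : Set (Fin n → ℚ),
      (∀ x ∈ W, ∀ y ∈ W, ∃ r : ℚ, r ^ 2 = qf A (fun j => x j - y j)) →
      (∀ x ∈ W, HtLE L x) → (∀ x ∈ W, ∀ j, |x j| ≤ R) →
      ∃ N : MvPolynomial (Fin n) ℝ, N ≠ 0 ∧ N.totalDegree ≤ L ^ (6 * n + 3) ∧
        ∀ x ∈ W, eval (fun j => (x j : ℝ)) N = 0 := by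
  classical
  obtain ⟨c0, hc0⟩ := q_bound A R
  obtain ⟨L1, hL1⟩ := numerics n c0
  obtain ⟨L2, hL2⟩ := exists_good
  refine ⟨max L1 L2, fun L hL W hW hH hR => ?_⟩
  obtain ⟨hn1, hn2, hn3⟩ := hL1 L ((le_max_left _ _).trans hL) (2 * Nat.log 2 L + 2) rfl
  set k := 2 * Nat.log 2 L + 2 with hk
  by_cases hcase : W.Finite ∧ W.ncard < n * k
  · obtain ⟨hWf, hWc⟩ := hcase
    refine ⟨∏ w ∈ hWf.toFinset, qfP A (fun j => (w j : ℝ)),
      Finset.prod_ne_zero_iff.2 fun w _ => qfP_ne_zero (by omega) hA _, ?_, ?_⟩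
    · refine (totalDegree_finsetProd _ _).trans ?_
      refine (Finset.sum_le_card_nsmul _ _ _ fun w _ => qfP_deg A _).trans ?_
      rw [smul_eq_mul]
      have h1 : hWf.toFinset.card = W.ncard := (Set.ncard_eq_toFinset_card W hWf).symm
      rw [h1]
      omega
    · intro x hx
      rw [map_prod]
      exact Finset.prod_eq_zero (hWf.mem_toFinset.2 hx) (qfP_self A _)
  · have hsub : ∃ t : Finset (Fin n → ℚ), (t : Set (Fin n → ℚ)) ⊆ W ∧ t.card = n * k := by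
      by_cases hWf : W.Finite
      · have h1 : n * k ≤ hWf.toFinset.card := by
          rw [← Set.ncard_eq_toFinset_card W hWf]
          by_contra h
          exact hcase ⟨hWf, by omega⟩
        obtain ⟨t, ht, htc⟩ := Finset.exists_subset_card_eq h1
        refine ⟨t, fun x hx => hWf.mem_toFinset.1 (ht hx), htc⟩
      · exact Set.Infinite.exists_subset_card_eq hWf (n * k)
    obtain ⟨t, htW, htc⟩ := hsub
    let e := Finset.equivFinOfCardEq htc
    let c : Fin (n * k) → Fin n → ℚ := fun i => (e.symm i : Fin n → ℚ)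
    have hcW : ∀ i, c i ∈ W := fun i => htW (e.symm i).2
    have hci : Function.Injective c := fun i j hij => e.symm.injective (Subtype.ext hij)
    have hH' : ∀ x ∈ W, ∃ d : ℕ, 0 < d ∧ d ≤ 2 ^ L ∧ ∀ j, ∃ a : ℤ, (d : ℚ) * x j = a := hH
    choose! d hd0 hd1 hd2 using hH'
    choose! r hr using hW
    have hzb : ∀ x ∈ W, ∀ i, |r x (c i)| ≤ 2 ^ c0 := fun x hx i =>
      hc0 x (c i) (hR x hx) (hR _ (hcW i)) _ (hr x hx _ (hcW i))
    have hprime := one_prime hn (by omega : 1 ≤ k) hA hci (dc := fun i => d (c i))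
      (fun i => ⟨hd0 _ (hcW i), hd1 _ (hcW i)⟩) (fun i j => hd2 _ (hcW i) j) W d
      (fun x hx => ⟨hd0 x hx, hd1 x hx⟩) (fun x i => r x (c i)) (fun x hx i => hr x hx _ (hcW i))
      hzb hn1
    choose NN hNN0 hNNd hNN using hprime
    refine ⟨(∏ i, qfP A (fun j => (c i j : ℝ))) * ∏ p ∈ Finset.Icc 1 (L ^ 2), NN p, ?_, ?_, ?_⟩
    · exact mul_ne_zero (Finset.prod_ne_zero_iff.2 fun i _ => qfP_ne_zero (by omega) hA _)
        (Finset.prod_ne_zero_iff.2 fun p _ => hNN0 p)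
    · refine (totalDegree_mul _ _).trans ?_
      have h1 : (∏ i, qfP A (fun j => (c i j : ℝ))).totalDegree ≤ 2 * (n * k) := by
        refine (totalDegree_finsetProd _ _).trans ?_
        refine (Finset.sum_le_card_nsmul _ _ _ fun w _ => qfP_deg A _).trans ?_
        rw [smul_eq_mul, Finset.card_univ, Fintype.card_fin, mul_comm]
      have h2 : (∏ p ∈ Finset.Icc 1 (L ^ 2), NN p).totalDegree ≤
          L ^ 2 * ((L ^ 2) ^ n * 2 ^ (n * k) * ((n * k) * 2 ^ (n * k))) := by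
        refine (totalDegree_finsetProd _ _).trans ?_
        refine (Finset.sum_le_card_nsmul _ _ _ fun p _ => hNNd p).trans ?_
        rw [smul_eq_mul, Nat.card_Icc, Nat.add_sub_cancel]
      have h3 : L ^ 2 * ((L ^ 2) ^ n * 2 ^ (n * k) * ((n * k) * 2 ^ (n * k))) =
          L ^ 2 * ((L ^ 2) ^ n * 2 ^ (n * k)) * ((n * k) * 2 ^ (n * k)) := by
        rw [mul_assoc (L ^ 2)]
      rw [h3] at h2
      exact (add_le_add h1 h2).trans ((add_comm _ _).trans_le hn3)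
    · intro x hx
      rw [map_mul, map_prod, map_prod]
      by_cases hxc : ∃ i, x = c i
      · obtain ⟨i, hi⟩ := hxc
        have h1 : ∏ i, eval (fun j => (x j : ℝ)) (qfP A (fun j => (c i j : ℝ))) = 0 := by
          refine Finset.prod_eq_zero (Finset.mem_univ i) ?_
          rw [hi]
          exact qfP_self A _
        rw [h1, zero_mul]
      · push Not at hxc
        obtain ⟨p, hp, hpL, hg⟩ := hL2 L ((le_max_right _ _).trans hL) hA (c := c) (dc := fun i => d (c i))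
          (fun i => ⟨hd0 _ (hcW i), hd1 _ (hcW i)⟩) (fun i j => hd2 _ (hcW i) j) (hd0 x hx)
          (hd1 x hx) (hd2 x hx) (fun i => hr x hx _ (hcW i)) (hzb x hx) hxc hn2
        have h1 : ∏ p ∈ Finset.Icc 1 (L ^ 2), eval (fun j => (x j : ℝ)) (NN p) = 0 :=
          Finset.prod_eq_zero (Finset.mem_Icc.2 ⟨hp.one_le, hpL⟩) (hNN p hp hpL x hx hg)
        rw [h1, mul_zero]

end Pool.Agent.EUD
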