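import Mathlib

/-!
# EUD (problem MP_85281a_co): denominators of dense rational-distance sets

THEOREM (`Final.lean`).  Let `n ≥ 2`, let `S` be a rational-distance set in `E^n` containing an affinely independent
frame `b 0, ..., b n`.  For every ball `B` there is `T₀` such that for all `T ≥ T₀` some ball of radius
`(log T)^(-40n)` with centre in `B` contains no point `w ∈ S` of denominator `≤ T` (a denominator of `w` is a positive
integer `D` such that all `D |w - b j|` are integers).

STRATEGY.  In the coordinates of the frame the points of `S` are rational vectors, and `|w - w'|^2` is a rational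
quadratic form; after scaling by an integer: an integral positive definite form `qf A` with `qf A (x - y)` a rational
square for all `x, y` in the coordinate set `W` of the points of denominator `≤ 2^L` in a box.
Take `m = n k` base points `c i ∈ W`, `2^k ≍ L^2`, and the `2^m` functions `∏_{i ∈ I} z_i`, `z_i = sqrt (qf A (x - c i))`,
`I ⊆ {0..m-1}`.  For points in one class (same residues modulo a prime `p ≤ L^2` of `x` and of all `z_i`) the
`2^m × 2^m` determinants of these functions are divisible by `p^e`, `4 e ≤ 2^m 2^k` (`ClassDet`, power series of square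
roots), and too small to be nonzero (`IntDet`, `ClassZero`).  So there is a linear relation on each class
(`Relation`), its norm is a nonzero polynomial in `x` (`SignNorm`, `Indep`, `NormPoly`: here `n ≥ 2` is used) of
degree `≤ m 2^m`.  The product over all classes and primes `p ≤ L^2` has degree `≤ L^(6n+3)` and vanishes on `W`
(`Core`; every point has a good prime: `Primes`).  A nonzero polynomial of degree `D` has a zero free cube of
side `≫ D^(-4)` in every cube (`Markov`, `ZeroFree`).
-/

namespace Pool.Agent.EUD

open MvPolynomial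

/-- The quadratic form of a matrix. -/
def qf {n : ℕ} {R : Type*} [CommRing R] (A : Matrix (Fin n) (Fin n) ℤ) (x : Fin n → R) : R :=
  ∑ i, ∑ j, (A i j : R) * x i * x j

/-- The polynomial `qf A (x - c)` in `x`. -/
noncomputable def qfP {n : ℕ} {R : Type*} [CommRing R] (A : Matrix (Fin n) (Fin n) ℤ) (c : Fin n → R) :
    MvPolynomial (Fin n) R :=
  ∑ i, ∑ j, C (A i j : R) * (X i - C (c i)) * (X j - C (c j))

theorem eval_qfP {n : ℕ} {R : Type*} [CommRing R] (A : Matrix (Fin n) (Fin n) ℤ) (c x : Fin n → R) :
    eval x (qfP A c) = qf A (fun i => x i - c i) := by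
  simp [qfP, qf]

theorem qf_map {n : ℕ} {R R' : Type*} [CommRing R] [CommRing R'] (f : R →+* R')
    (A : Matrix (Fin n) (Fin n) ℤ) (x : Fin n → R) : f (qf A x) = qf A (fun i => f (x i)) := by
  simp [qf]

/-- `A` is positive definite (only the quadratic form is used, `A` need not be symmetric). -/
def PosDef {n : ℕ} (A : Matrix (Fin n) (Fin n) ℤ) : Prop :=
  ∀ x : Fin n → ℝ, x ≠ 0 → 0 < qf A x

/-- The rational vector `x` has a denominator `d ≤ 2^L`. -/
def HtLE {n : ℕ} (L : ℕ) (x : Fin n → ℚ) : Prop :=
  ∃ d : ℕ, 0 < d ∧ d ≤ 2 ^ L ∧ ∀ j, ∃ a : ℤ, (d : ℚ) * x j = a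

/-- A rational number as a `p`-adic integer (junk value `0` if it is not `p`-integral). -/
noncomputable def pz (p : ℕ) [Fact p.Prime] (r : ℚ) : ℤ_[p] :=
  if h : ‖(r : ℚ_[p])‖ ≤ 1 then ⟨(r : ℚ_[p]), h⟩ else 0

/-- Residue of a rational number modulo `p`. -/
noncomputable def res (p : ℕ) [Fact p.Prime] (r : ℚ) : ZMod p := PadicInt.toZMod (pz p r)

/-- Label of a point: residues of the coordinates, and the choice of signs of the residues of the
distances. -/
noncomputable def label {n m : ℕ} (p : ℕ) [Fact p.Prime] (x : Fin n → ℚ) (z : Fin m → ℚ) :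
    (Fin n → ZMod p) × (Fin m → Bool) :=
  (fun j => res p (x j), fun i => decide (2 * (res p (z i)).val < p))

/-- The prime `p` is good for the point `x` with distances `z` (to base points `c i` of denominators
`dc i`), `d` a denominator of `x`: `p` is odd and divides none of `d`, `dc i` and the integers
`d * dc i * z i`. -/
def Good {n m : ℕ} (p : ℕ) (d : ℕ) (x : Fin n → ℚ) (dc : Fin m → ℕ) (z : Fin m → ℚ) : Prop :=
  p ≠ 2 ∧ ¬ p ∣ d ∧ (∀ i, ¬ p ∣ dc i) ∧ (∀ j, ∃ a : ℤ, (d : ℚ) * x j = a) ∧
    ∀ i, ∃ a : ℤ, (d : ℚ) * dc i * z i = a ∧ ¬ (p : ℤ) ∣ a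

end Pool.Agent.EUD
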