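import Pool.Agent.EUD.Defs

/-!
Geo: coordinates with respect to a rational frame.

`frame`.  PROOF.  `e j = b (j+1) - b 0`, `j : Fin n`, is a basis of `E^n` (`AffineIndependent`, `finrank = n`); `φ x = b 0 + ∑ x j e j`.
The numbers `⟪e i, e j⟫ = (|b_{i+1} - b_0|^2 + |b_{j+1} - b_0|^2 - |b_{i+1} - b_{j+1}|^2) / 2` are rational; let `G > 0` be an integer with
`G ⟪e i, e j⟫` integral, and `A i j = G^2 ⟪e i, e j⟫`, an integral matrix.  Then `(G dist (φ x) (φ y))^2 = G^2 |∑ (x j - y j) e j|^2 = qf A (x - y)`;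
`PosDef A` since the `e j` are linearly independent.
Let `w = φ x` and `D |w - b j|` integral for all `j`.  `⟪w - b 0, e i⟫ = (|w - b 0|^2 + |e i|^2 - |w - b_{i+1}|^2) / 2`, and
`⟪w - b 0, e i⟫ = ∑_j ⟪e i, e j⟫ x j`.  So `A x` (matrix times vector) has the entries
`G^2 (|w - b 0|^2 + |e i|^2 - |w - b_{i+1}|^2) / 2`, and `2 D^2` times it is integral (`G ∣ G^2`, `G |e i|^2 = G ⟪e i, e i⟫` is an
integer).  `A` is symmetric with `det A ≠ 0` (a kernel vector would contradict `PosDef`), so by Cramer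
`det A * 2 D^2 * x` is integral (`adjugate A * A = det A`); `C = 2 |det A|`.
-/

namespace Pool.Agent.EUD

/-- Euclidean space -/
abbrev E (n : ℕ) := EuclideanSpace ℝ (Fin n)

private lemma geo_linInd {n : ℕ} (b : Fin (n + 1) → E n) (hb : AffineIndependent ℝ b) :
    LinearIndependent ℝ (fun j : Fin n => b j.succ - b 0) := by
  have h := (affineIndependent_iff_linearIndependent_vsub ℝ b 0).1 hb
  have h2 := h.comp (fun j : Fin n => (⟨j.succ, Fin.succ_ne_zero j⟩ : {x : Fin (n + 1) // x ≠ 0}))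
    (by
      intro i j hij
      have := congrArg Subtype.val hij
      exact Fin.succ_injective _ this)
  exact h2

private lemma geo_clear {n : ℕ} (g : Fin n → Fin n → ℚ) :
    ∃ (G : ℕ) (N : Fin n → Fin n → ℤ), 0 < G ∧ ∀ i j, (G : ℚ) * g i j = N i j := by
  classical
  refine ⟨∏ i, ∏ j, (g i j).den, ?_⟩
  have key : ∀ i j, ∃ N : ℤ, ((∏ i, ∏ j, (g i j).den : ℕ) : ℚ) * g i j = N := by
    intro i j
    have h1 : (g i j).den ∣ ∏ j, (g i j).den := Finset.dvd_prod_of_mem _ (Finset.mem_univ j)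
    have h2 : (∏ j, (g i j).den) ∣ ∏ i, ∏ j, (g i j).den :=
      Finset.dvd_prod_of_mem (fun i => ∏ j, (g i j).den) (Finset.mem_univ i)
    obtain ⟨c, hc⟩ := h1.trans h2
    refine ⟨c * (g i j).num, ?_⟩
    rw [hc]
    push_cast
    have h3 : ((g i j).den : ℚ) * g i j = (g i j).num := by
      rw [mul_comm]; exact Rat.mul_den_eq_num _
    linear_combination (c : ℚ) * h3
  choose N hN using key
  refine ⟨N, ?_, hN⟩
  exact Finset.prod_pos fun i _ => Finset.prod_pos fun j _ => (g i j).den_pos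

private lemma geo_qf {n : ℕ} (e : Fin n → E n) (A : Matrix (Fin n) (Fin n) ℤ) (G : ℕ)
    (hA : ∀ i j, (A i j : ℝ) = (G : ℝ) ^ 2 * inner ℝ (e i) (e j)) (x : Fin n → ℝ) :
    qf A x = ((G : ℝ) * ‖∑ j, x j • e j‖) ^ 2 := by
  rw [mul_pow, ← real_inner_self_eq_norm_sq, sum_inner, Finset.mul_sum]
  unfold qf
  refine Finset.sum_congr rfl fun i _ => ?_
  rw [inner_sum, Finset.mul_sum]
  refine Finset.sum_congr rfl fun j _ => ?_
  rw [hA i j, real_inner_smul_left, real_inner_smul_right]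
  ring

private lemma geo_det {n : ℕ} (A : Matrix (Fin n) (Fin n) ℤ) (hA : PosDef A) : A.det ≠ 0 := by
  intro h0
  have h1 : (A.map (Int.castRingHom ℝ)).det = 0 := by
    have := (Int.castRingHom ℝ).map_det A
    rw [h0] at this
    simpa using this.symm
  obtain ⟨v, hv, hv0⟩ := Matrix.exists_mulVec_eq_zero_iff.2 h1
  have h2 := hA v hv
  have h3 : qf A v = 0 := by
    unfold qf
    refine Finset.sum_eq_zero fun i _ => ?_
    have h4 : ∑ j, (A i j : ℝ) * v j = 0 := by
      have := congrFun hv0 i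
      simpa [Matrix.mulVec, dotProduct] using this
    have h5 : ∑ j, (A i j : ℝ) * v i * v j = v i * ∑ j, (A i j : ℝ) * v j := by
      rw [Finset.mul_sum]
      exact Finset.sum_congr rfl fun j _ => by ring
    rw [h5, h4, mul_zero]
  linarith

private lemma geo_cramer {n : ℕ} (A : Matrix (Fin n) (Fin n) ℤ) (x : Fin n → ℝ) (t : ℝ)
    (h : ∀ i, ∃ c : ℤ, t * ∑ j, (A i j : ℝ) * x j = c) (j : Fin n) :
    ∃ a : ℤ, (A.det : ℝ) * t * x j = a := by
  choose c hc using h
  refine ⟨∑ i, A.adjugate j i * c i, ?_⟩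
  have h1 : A.adjugate * A = A.det • (1 : Matrix (Fin n) (Fin n) ℤ) := Matrix.adjugate_mul A
  have h2 : ∀ k, ∑ i, (A.adjugate j i : ℝ) * (A i k : ℝ) = if j = k then (A.det : ℝ) else 0 := by
    intro k
    have h3 := congrFun (congrFun h1 j) k
    rw [Matrix.mul_apply, Matrix.smul_apply, Matrix.one_apply] at h3
    have h4 : ((∑ i, A.adjugate j i * A i k : ℤ) : ℝ) = ((A.det • (if j = k then (1 : ℤ) else 0) : ℤ) : ℝ) := by
      rw [h3]
    push_cast at h4
    rw [h4]
    split_ifs <;> simp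
  simp only [Int.cast_sum, Int.cast_mul]
  calc (A.det : ℝ) * t * x j = t * ∑ k, (if j = k then (A.det : ℝ) else 0) * x k := by
        simp [Finset.sum_ite_eq]; ring
    _ = t * ∑ k, (∑ i, (A.adjugate j i : ℝ) * (A i k : ℝ)) * x k := by
        simp_rw [h2]
    _ = ∑ i, (A.adjugate j i : ℝ) * (t * ∑ k, (A i k : ℝ) * x k) := by
        simp_rw [Finset.sum_mul, Finset.mul_sum]
        rw [Finset.sum_comm]
        refine Finset.sum_congr rfl fun i _ => Finset.sum_congr rfl fun k _ => ?_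
        ring
    _ = ∑ i, (A.adjugate j i : ℝ) * (c i : ℝ) := by
        simp_rw [hc]

theorem frame {n : ℕ} (b : Fin (n + 1) → E n) (hb : AffineIndependent ℝ b)
    (hrat : ∀ i j, ∃ q : ℚ, dist (b i) (b j) = q) :
    ∃ (A : Matrix (Fin n) (Fin n) ℤ) (G C : ℕ) (φ : (Fin n → ℝ) ≃ E n), PosDef A ∧ 0 < G ∧ 0 < C ∧
      (∀ x y, ((G : ℝ) * dist (φ x) (φ y)) ^ 2 = qf A (fun j => x j - y j)) ∧
      ∀ (x : Fin n → ℝ) (D : ℕ), 0 < D → (∀ j, ∃ a : ℤ, (D : ℝ) * dist (φ x) (b j) = a) →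
        ∀ j, ∃ a : ℤ, (C : ℝ) * D ^ 2 * x j = a := by
  classical
  set e : Fin n → E n := fun j => b j.succ - b 0 with he
  have hli : LinearIndependent ℝ e := geo_linInd b hb
  have hspan : ⊤ ≤ Submodule.span ℝ (Set.range e) := by
    rw [hli.span_eq_top_of_card_eq_finrank' (by simp)]
  let B : Module.Basis (Fin n) ℝ (E n) := Module.Basis.mk hli hspan
  let φ : (Fin n → ℝ) ≃ E n := B.equivFun.symm.toEquiv.trans (Equiv.addLeft (b 0))
  have hφ : ∀ x, φ x = b 0 + ∑ j, x j • e j := by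
    intro x
    simp [φ, B, Module.Basis.equivFun_symm_apply]
  choose q hq using hrat
  let g : Fin n → Fin n → ℚ := fun i j =>
    (q i.succ 0 ^ 2 + q j.succ 0 ^ 2 - q i.succ j.succ ^ 2) / 2
  have hg : ∀ i j, inner ℝ (e i) (e j) = (g i j : ℝ) := by
    intro i j
    rw [real_inner_eq_norm_mul_self_add_norm_mul_self_sub_norm_sub_mul_self_div_two]
    have h1 : ‖e i‖ = q i.succ 0 := by rw [← hq i.succ 0, dist_eq_norm]
    have h2 : ‖e j‖ = q j.succ 0 := by rw [← hq j.succ 0, dist_eq_norm]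
    have h3 : ‖e i - e j‖ = q i.succ j.succ := by
      rw [← hq i.succ j.succ, dist_eq_norm]
      simp [he]
    rw [h1, h2, h3]
    simp only [g]
    push_cast
    ring
  obtain ⟨G, N, hG, hN⟩ := geo_clear g
  have hNr : ∀ i j, (G : ℝ) * inner ℝ (e i) (e j) = N i j := by
    intro i j
    rw [hg]
    exact_mod_cast hN i j
  let A : Matrix (Fin n) (Fin n) ℤ := fun i j => (G : ℤ) * N i j
  have hA : ∀ i j, (A i j : ℝ) = (G : ℝ) ^ 2 * inner ℝ (e i) (e j) := by
    intro i j
    have : (A i j : ℝ) = (G : ℝ) * (N i j : ℝ) := by simp [A]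
    rw [this, ← hNr]; ring
  have hpos : PosDef A := by
    intro x hx
    rw [geo_qf e A G hA]
    have hne : ∑ j, x j • e j ≠ 0 := by
      intro h0
      apply hx
      have := Fintype.linearIndependent_iff.1 hli x h0
      funext j
      exact this j
    have : 0 < ‖∑ j, x j • e j‖ := norm_pos_iff.2 hne
    have hG' : (0 : ℝ) < G := by exact_mod_cast hG
    positivity
  have hdet := geo_det A hpos
  refine ⟨A, G, 2 * A.det.natAbs, φ, hpos, hG, ?_, ?_, ?_⟩
  · have : 0 < A.det.natAbs := Int.natAbs_pos.2 hdet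
    omega
  · intro x y
    rw [geo_qf e A G hA, dist_eq_norm, hφ, hφ]
    congr 3
    rw [add_sub_add_left_eq_sub, ← Finset.sum_sub_distrib]
    exact Finset.sum_congr rfl fun j _ => by rw [sub_smul]
  · intro x D hD hint j
    choose a ha using hint
    have hv : φ x - b 0 = ∑ j, x j • e j := by rw [hφ]; simp
    have hrow : ∀ i, ∃ c : ℤ, (2 * (D : ℝ) ^ 2) * ∑ j, (A i j : ℝ) * x j = c := by
      intro i
      refine ⟨G * D ^ 2 * N i i + G ^ 2 * a 0 ^ 2 - G ^ 2 * a i.succ ^ 2, ?_⟩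
      have h1 : ∑ j, (A i j : ℝ) * x j = (G : ℝ) ^ 2 * inner ℝ (e i) (φ x - b 0) := by
        rw [hv, inner_sum, Finset.mul_sum]
        refine Finset.sum_congr rfl fun j _ => ?_
        rw [hA, real_inner_smul_right]; ring
      rw [h1, real_inner_eq_norm_mul_self_add_norm_mul_self_sub_norm_sub_mul_self_div_two]
      have h2 : ‖e i - (φ x - b 0)‖ = dist (φ x) (b i.succ) := by
        rw [dist_comm, dist_eq_norm]
        simp [he]
      have h3 : ‖φ x - b 0‖ = dist (φ x) (b 0) := by rw [dist_eq_norm]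
      have h4 : (G : ℝ) * (‖e i‖ * ‖e i‖) = N i i := by
        rw [← hNr i i, real_inner_self_eq_norm_mul_norm]
      rw [h2, h3]
      push_cast
      rw [← h4, ← ha 0, ← ha i.succ]
      ring
    obtain ⟨c, hc⟩ := geo_cramer A x _ hrow j
    rcases Int.natAbs_eq A.det with h | h
    · refine ⟨c, ?_⟩
      rw [← hc]
      have : (A.det : ℝ) = (A.det.natAbs : ℝ) := by
        conv_lhs => rw [h]
        simp
      rw [this]
      push_cast
      ring
    · refine ⟨-c, ?_⟩
      push_cast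
      rw [← hc]
      have : (A.det : ℝ) = -(A.det.natAbs : ℝ) := by
        conv_lhs => rw [h]
        simp
      rw [this]
      ring

end Pool.Agent.EUD
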