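import Pool.Agent.EUD.Defs

/-!
QfBounds: the quadratic form is comparable with the square of the sup norm.

`qf_bounds`: the function `v ↦ qf A v` is continuous, positive on the compact unit sphere of the sup norm, and
homogeneous of degree two.
-/

namespace Pool.Agent.EUD

private theorem qf_cont {n : ℕ} (A : Matrix (Fin n) (Fin n) ℤ) :
    Continuous (fun v : Fin n → ℝ => qf A v) := by
  unfold qf
  fun_prop

private theorem qf_smul {n : ℕ} (A : Matrix (Fin n) (Fin n) ℤ) (t : ℝ) (v : Fin n → ℝ) :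
    qf A (t • v) = t ^ 2 * qf A v := by
  unfold qf
  rw [Finset.mul_sum]
  refine Finset.sum_congr rfl fun i _ => ?_
  rw [Finset.mul_sum]
  refine Finset.sum_congr rfl fun j _ => ?_
  simp only [Pi.smul_apply, smul_eq_mul]
  ring

theorem qf_bounds {n : ℕ} {A : Matrix (Fin n) (Fin n) ℤ} (hA : PosDef A) :
    ∃ κ : ℝ, 0 < κ ∧ ∀ v : Fin n → ℝ, (∀ t : ℝ, 0 ≤ t → (∀ j, |v j| ≤ t) → qf A v ≤ κ * t ^ 2) ∧
      ∀ j, (v j) ^ 2 ≤ κ * qf A v := by
  obtain ⟨μ, hμ, hμs⟩ : ∃ μ : ℝ, 0 < μ ∧ ∀ v ∈ Metric.sphere (0 : Fin n → ℝ) 1, μ ≤ qf A v := by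
    rcases (Metric.sphere (0 : Fin n → ℝ) 1).eq_empty_or_nonempty with h | h
    · exact ⟨1, one_pos, fun v hv => by simp [h] at hv⟩
    · obtain ⟨v₀, hv₀, hmin⟩ := (isCompact_sphere (0 : Fin n → ℝ) 1).exists_isMinOn h
        (qf_cont A).continuousOn
      have hv0 : v₀ ≠ 0 := by
        rintro rfl
        simp at hv₀
      exact ⟨qf A v₀, hA v₀ hv0, fun v hv => hmin hv⟩
  set s : ℝ := ∑ i, ∑ j, |(A i j : ℝ)| with hs
  have hs0 : 0 ≤ s := Finset.sum_nonneg fun i _ => Finset.sum_nonneg fun j _ => abs_nonneg _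
  refine ⟨s + 1 / μ, by positivity, fun v => ⟨fun t ht hv => ?_, fun j => ?_⟩⟩
  · have h1 : qf A v ≤ s * t ^ 2 := by
      rw [hs, Finset.sum_mul]
      unfold qf
      refine Finset.sum_le_sum fun i _ => ?_
      rw [Finset.sum_mul]
      refine Finset.sum_le_sum fun j _ => ?_
      calc (A i j : ℝ) * v i * v j ≤ |(A i j : ℝ) * v i * v j| := le_abs_self _
        _ = |(A i j : ℝ)| * (|v i| * |v j|) := by rw [abs_mul, abs_mul, mul_assoc]
        _ ≤ |(A i j : ℝ)| * (t * t) := by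
          gcongr
          · exact hv i
          · exact hv j
        _ = |(A i j : ℝ)| * t ^ 2 := by ring
    have h2 : 0 ≤ 1 / μ * t ^ 2 := by positivity
    linarith [add_mul s (1 / μ) (t ^ 2)]
  · by_cases hv : v = 0
    · subst hv
      simp [qf]
    have hn : 0 < ‖v‖ := norm_pos_iff.2 hv
    have h1 := hμs (‖v‖⁻¹ • v) (by
      rw [mem_sphere_zero_iff_norm, norm_smul, norm_inv, norm_norm]
      field_simp)
    rw [qf_smul] at h1
    have h2 : μ * ‖v‖ ^ 2 ≤ qf A v := by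
      have h3 := mul_le_mul_of_nonneg_right h1 (by positivity : 0 ≤ ‖v‖ ^ 2)
      have h4 : ‖v‖⁻¹ ^ 2 * qf A v * ‖v‖ ^ 2 = qf A v := by field_simp
      linarith
    have h5 : (v j) ^ 2 ≤ ‖v‖ ^ 2 := by
      have := norm_le_pi_norm v j
      rw [Real.norm_eq_abs] at this
      calc (v j) ^ 2 = |v j| ^ 2 := (sq_abs _).symm
        _ ≤ ‖v‖ ^ 2 := by gcongr
    have h6 : ‖v‖ ^ 2 ≤ 1 / μ * qf A v := by
      rw [one_div, inv_mul_eq_div, le_div_iff₀ hμ]
      linarith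
    have h7 : 0 ≤ s * qf A v := mul_nonneg hs0 (hA v hv).le
    linarith [add_mul s (1 / μ) (qf A v)]

end Pool.Agent.EUD
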