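import Pool.Agent.EUD.Markov

/-!
ZeroFree: a nonzero polynomial of degree `D` has a zero free cube of side `≫ a D^(-4)` in each cube of side `a`.

PROOF.  Let `Q = {x : |x j - x₀ j| ≤ a}` (compact), `M = max_Q |N| > 0` (a nonzero polynomial does not vanish on the whole
cube: `MvPolynomial.funext_set`-type lemma, infinite sets), attained at `x* ∈ Q`.  Let `δ = a / (100 n^2 D^4) ≤ a`.
(1) If `x, x' ∈ Q` differ only in one coordinate `j`, and `|x j - x' j| ≤ δ`, then
`|N x - N x'| ≤ 7 D^2 M √(δ / (2 a))`: apply `poly_holder` to the one-variable polynomial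
`s ↦ N (x with j-th coordinate x₀ j - a + 2 a s)`, of degree `≤ D`.
(2) For `x ∈ Q` with `|x j - x* j| ≤ δ` for all `j`: change the coordinates one after the other (at most `n` steps, all
intermediate points are in `Q`): `|N x - N x*| ≤ n 7 D^2 M √(δ / (2 a)) = 7 M / √200 < M`.  So `N x ≠ 0`.
(3) The set `{x ∈ Q : |x j - x* j| ≤ δ}` contains the cube with centre `y`, `y j = x* j - δ/2` if `x* j ≥ x₀ j` and
`x* j + δ/2` otherwise, and half side `δ / 2 = a / (200 n^2 D^4)`.
-/

namespace Pool.Agent.EUD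

open MvPolynomial

/-- changing one coordinate -/
private theorem step1 {n : ℕ} {N : MvPolynomial (Fin n) ℝ} {D : ℕ}
    (hD : N.totalDegree ≤ D) (hD1 : 1 ≤ D) (x₀ : Fin n → ℝ) {a M : ℝ} (ha : 0 < a)
    (hM : ∀ x : Fin n → ℝ, (∀ j, |x j - x₀ j| ≤ a) → |eval x N| ≤ M)
    (x : Fin n → ℝ) (hx : ∀ j, |x j - x₀ j| ≤ a) (j : Fin n) {t : ℝ} (ht : |t - x₀ j| ≤ a) :
    |eval (Function.update x j t) N - eval x N| ≤
      7 * D ^ 2 * M * √(|t - x j| / (2 * a)) := by
  classical
  let f : Fin n → Polynomial ℝ := fun i =>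
    if i = j then Polynomial.C (x₀ j - a) + Polynomial.C (2 * a) * Polynomial.X
    else Polynomial.C (x i)
  let p : Polynomial ℝ := MvPolynomial.aeval f N
  have hdeg : p.natDegree ≤ D := by
    have := MvPolynomial.aeval_natDegree_le (m := D) (n := 1) N hD f (fun i => by
      simp only [f]
      split_ifs
      · refine (Polynomial.natDegree_add_le _ _).trans ?_
        rw [Polynomial.natDegree_C]
        exact max_le (by omega) ((Polynomial.natDegree_C_mul_le _ _).trans
          Polynomial.natDegree_X_le)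
      · rw [Polynomial.natDegree_C]; omega)
    simpa using this
  have hev : ∀ s : ℝ, p.eval s = eval (Function.update x j (x₀ j - a + 2 * a * s)) N := by
    intro s
    have h1 : p.eval s = Polynomial.aeval s (MvPolynomial.aeval f N) := by
      rw [Polynomial.coe_aeval_eq_eval]
    rw [h1, MvPolynomial.comp_aeval_apply, ← MvPolynomial.coe_aeval_eq_eval]
    show MvPolynomial.aeval _ N = MvPolynomial.aeval _ N
    congr 2
    funext i
    simp only [Function.comp_apply, f]
    by_cases hij : i = j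
    · subst hij
      simp
    · simp [hij]
  have hbd : ∀ s ∈ Set.Icc (0 : ℝ) 1, |p.eval s| ≤ M := by
    intro s hs
    rw [hev]
    apply hM
    intro i
    by_cases hij : i = j
    · subst hij
      rw [Function.update_self, abs_le]
      constructor <;> nlinarith [hs.1, hs.2]
    · rw [Function.update_of_ne hij]
      exact hx i
  have h2a : (0 : ℝ) < 2 * a := by linarith
  have hpar : ∀ u : ℝ, |u - x₀ j| ≤ a → (u - x₀ j + a) / (2 * a) ∈ Set.Icc (0 : ℝ) 1 := by
    intro u hu
    rw [abs_le] at hu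
    constructor
    · exact div_nonneg (by linarith) h2a.le
    · rw [div_le_one h2a]; linarith
  have hup : ∀ u : ℝ, x₀ j - a + 2 * a * ((u - x₀ j + a) / (2 * a)) = u := by
    intro u
    field_simp
    ring
  have key := poly_holder p hdeg hD1 hbd _ (hpar t ht) _ (hpar (x j) (hx j))
  rw [hev, hev, hup, hup, Function.update_eq_self] at key
  refine key.trans (le_of_eq ?_)
  congr 2
  rw [← sub_div, abs_div, abs_of_pos h2a]
  congr 2
  ring

theorem zero_free {n : ℕ} (hn : 1 ≤ n) {N : MvPolynomial (Fin n) ℝ} (hN : N ≠ 0) {D : ℕ}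
    (hD : N.totalDegree ≤ D) (hD1 : 1 ≤ D) (x₀ : Fin n → ℝ) {a : ℝ} (ha : 0 < a) :
    ∃ y : Fin n → ℝ, (∀ j, |y j - x₀ j| ≤ a) ∧
      ∀ x : Fin n → ℝ, (∀ j, |x j - y j| ≤ a / (200 * n ^ 2 * D ^ 4)) → eval x N ≠ 0 := by
  classical
  have hn' : (1 : ℝ) ≤ n := by exact_mod_cast hn
  have hD' : (1 : ℝ) ≤ D := by exact_mod_cast hD1
  -- the maximum
  have hQ : IsCompact (Set.Icc (fun j => x₀ j - a) (fun j => x₀ j + a) : Set (Fin n → ℝ)) :=
    isCompact_Icc
  have hQm : ∀ x : Fin n → ℝ, x ∈ Set.Icc (fun j => x₀ j - a) (fun j => x₀ j + a) ↔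
      ∀ j, |x j - x₀ j| ≤ a := by
    intro x
    rw [Set.mem_Icc, Pi.le_def, Pi.le_def, ← forall_and]
    refine forall_congr' fun j => ?_
    rw [abs_le]
    constructor
    · rintro ⟨h1, h2⟩
      constructor <;> linarith
    · rintro ⟨h1, h2⟩
      constructor <;> linarith
  have hne : (Set.Icc (fun j => x₀ j - a) (fun j => x₀ j + a) : Set (Fin n → ℝ)).Nonempty :=
    ⟨x₀, (hQm x₀).2 fun j => by simp [ha.le]⟩
  have hcont : Continuous fun x : Fin n → ℝ => |eval x N| :=
    (MvPolynomial.continuous_eval N).abs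
  obtain ⟨xs, hxs, hmax⟩ := hQ.exists_isMaxOn hne hcont.continuousOn
  rw [hQm] at hxs
  obtain ⟨M, hMdef⟩ : ∃ M, M = |eval xs N| := ⟨_, rfl⟩
  have hM : ∀ x : Fin n → ℝ, (∀ j, |x j - x₀ j| ≤ a) → |eval x N| ≤ M := by
    intro x hx
    rw [hMdef]
    exact hmax ((hQm x).2 hx)
  have hMpos : 0 < M := by
    by_contra hle
    apply hN
    refine MvPolynomial.funext_set (fun j => Set.Icc (x₀ j - a) (x₀ j + a))
      (fun j => Set.Icc_infinite (by linarith)) ?_
    intro x hx
    rw [map_zero]
    have h1 : |eval x N| ≤ M := hM x fun j => by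
      have := hx j (Set.mem_univ j)
      rw [abs_le]
      constructor <;> linarith [this.1, this.2]
    have h2 := abs_nonneg (eval x N)
    exact abs_eq_zero.1 (by linarith)
  obtain ⟨δ, hδ⟩ : ∃ δ, δ = a / (100 * n ^ 2 * D ^ 4) := ⟨_, rfl⟩
  have hden : (1 : ℝ) ≤ 100 * n ^ 2 * D ^ 4 := by
    have h1 : (1 : ℝ) ≤ (n : ℝ) ^ 2 := one_le_pow₀ hn'
    have h2 : (1 : ℝ) ≤ (D : ℝ) ^ 4 := one_le_pow₀ hD'
    nlinarith [mul_le_mul h1 h2 zero_le_one (by positivity : (0:ℝ) ≤ (n:ℝ)^2)]
  have hδpos : 0 < δ := by rw [hδ]; positivity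
  have hδa : δ ≤ a := by
    rw [hδ]
    exact div_le_self ha.le hden
  have hδ2 : a / (200 * n ^ 2 * D ^ 4) = δ / 2 := by
    rw [hδ]
    field_simp
    norm_num
  -- many coordinates
  have hstep : ∀ x : Fin n → ℝ, (∀ j, |x j - x₀ j| ≤ a) → (∀ j, |x j - xs j| ≤ δ) →
      eval x N ≠ 0 := by
    intro x hx hxx
    obtain ⟨ε, hε⟩ : ∃ ε, ε = 7 * D ^ 2 * M * √(δ / (2 * a)) := ⟨_, rfl⟩
    have hind : ∀ k : ℕ, k ≤ n →
        |eval (fun i : Fin n => if (i : ℕ) < k then x i else xs i) N - eval xs N| ≤ k * ε := by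
      intro k
      induction k with
      | zero => intro _; simp
      | succ k ih =>
        intro hk
        have hkn : k < n := hk
        obtain ⟨z, hz⟩ : ∃ z : Fin n → ℝ, z = fun i : Fin n => if (i : ℕ) < k then x i else xs i :=
          ⟨_, rfl⟩
        have e1 : (fun i : Fin n => if (i : ℕ) < k + 1 then x i else xs i) =
            Function.update z ⟨k, hkn⟩ (x ⟨k, hkn⟩) := by
          funext i
          by_cases hik : i = ⟨k, hkn⟩
          · subst hik
            simp
          · rw [Function.update_of_ne hik, hz]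
            have : (i : ℕ) ≠ k := fun h => hik (Fin.ext h)
            by_cases h1 : (i : ℕ) < k
            · simp [h1, Nat.lt_succ_of_lt h1]
            · have h2 : ¬ (i : ℕ) < k + 1 := by omega
              simp [h1, h2]
        have hzQ : ∀ j, |z j - x₀ j| ≤ a := by
          intro j
          rw [hz]
          simp only
          split_ifs
          · exact hx j
          · exact hxs j
        have hzk : z ⟨k, hkn⟩ = xs ⟨k, hkn⟩ := by
          rw [hz]; simp
        have h3 := step1 hD hD1 x₀ ha hM z hzQ ⟨k, hkn⟩ (hx ⟨k, hkn⟩)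
        rw [hzk] at h3
        have h4 : 7 * (D : ℝ) ^ 2 * M * √(|x ⟨k, hkn⟩ - xs ⟨k, hkn⟩| / (2 * a)) ≤ ε := by
          rw [hε]
          refine mul_le_mul_of_nonneg_left (Real.sqrt_le_sqrt ?_) (by positivity)
          exact div_le_div_of_nonneg_right (hxx _) (by linarith)
        have h5 := ih (by omega)
        rw [← hz] at h5
        rw [e1]
        have h6 := abs_sub_le (eval (Function.update z ⟨k, hkn⟩ (x ⟨k, hkn⟩)) N) (eval z N)
          (eval xs N)
        push_cast
        linarith
    have hall : (fun i : Fin n => if (i : ℕ) < n then x i else xs i) = x := by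
      funext i
      simp
    have hfin := hind n le_rfl
    rw [hall] at hfin
    have hsq : √(δ / (2 * a)) = 1 / (√200 * n * D ^ 2) := by
      rw [Real.sqrt_eq_iff_mul_self_eq (by positivity) (by positivity), hδ]
      have : √200 * √200 = (200 : ℝ) := Real.mul_self_sqrt (by norm_num)
      field_simp
      rw [show (√200 : ℝ) ^ 2 = 200 by rw [sq]; exact this]
      norm_num
    have hlt : (n : ℝ) * ε < M := by
      rw [hε, hsq]
      have h14 : (14 : ℝ) < √200 := by
        rw [Real.lt_sqrt (by norm_num)]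
        norm_num
      have : (n : ℝ) * (7 * D ^ 2 * M * (1 / (√200 * n * D ^ 2))) = 7 * M / √200 := by
        field_simp
      rw [this, div_lt_iff₀ (by linarith)]
      nlinarith
    intro h0
    rw [h0, zero_sub, abs_neg, ← hMdef] at hfin
    linarith
  refine ⟨fun j => if x₀ j ≤ xs j then xs j - δ / 2 else xs j + δ / 2, ?_, ?_⟩
  · intro j
    have h1 := abs_le.1 (hxs j)
    simp only
    split_ifs with h
    · rw [abs_le]; constructor <;> linarith [h1.1, h1.2]
    · push Not at h
      rw [abs_le]; constructor <;> linarith [h1.1, h1.2]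
  · intro x hx
    rw [hδ2] at hx
    have h2 : ∀ j, |x j - xs j| ≤ δ ∧ |x j - x₀ j| ≤ a := by
      intro j
      have h1 := abs_le.1 (hxs j)
      have h3 := hx j
      simp only at h3
      split_ifs at h3 with h
      · rw [abs_le] at h3
        constructor
        · rw [abs_le]; constructor <;> linarith [h1.1, h1.2, h3.1, h3.2]
        · rw [abs_le]; constructor <;> linarith [h1.1, h1.2, h3.1, h3.2]
      · push Not at h
        rw [abs_le] at h3
        constructor
        · rw [abs_le]; constructor <;> linarith [h1.1, h1.2, h3.1, h3.2]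
        · rw [abs_le]; constructor <;> linarith [h1.1, h1.2, h3.1, h3.2]
    exact hstep x (fun j => (h2 j).2) (fun j => (h2 j).1)

end Pool.Agent.EUD
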