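import Pool.Agent.EUD.Core
import Pool.Agent.EUD.ZeroFree
import Pool.Agent.EUD.Geo
import Pool.Agent.EUD.QfBounds

/-!
Final: the theorem.

PROOF.  `frame` gives `A, G, C, φ`; `κ ≥ 1` from `qf_bounds` (increase it).  `x₀ = φ⁻¹ y₀`.  For `x, y`:
`dist (φ x) (φ y) ≤ √κ sup |x j - y j| / G` and `|x j - y j| ≤ √κ G dist (φ x) (φ y)`.  Choose `a > 0` with `√κ a / G < ρ` (so the
coordinate cube `|x j - x₀ j| ≤ a` is mapped into `ball y₀ ρ`), and `R : ℕ` with `R ≥ |x₀ j| + √κ G (ρ + 1)` for all `j`.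
`L₀` from `core`.  For `T` large let `L = ⌈log₂ (C T^2)⌉ + 1`-like: any `L : ℕ` with `C T^2 ≤ 2^L`, `L₀ ≤ L`, `L ≤ 4 log T`
(possible for large `T`: `log₂ (C T^2) = (log C + 2 log T) / log 2`, `2 / log 2 < 2.9`).
`W` = the rational vectors `x` with `|x j| ≤ R`, `φ x ∈ S` (real cast) having some `D : ℕ`, `0 < D ≤ T`, with all
`D dist (φ x) (b j)` integral.  For `x, y ∈ W`, `qf A (x - y) = (G dist (φ x) (φ y))^2` is a rational square.  `HtLE L x`: the
denominator is `C D^2 ≤ C T^2 ≤ 2^L`.  `core` gives `N`, `zero_free` (with `D = L^(6n+3) ≥ 1`) a point `y` with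
`|y j - x₀ j| ≤ a`, such that `N` has no zero `x` with `|x j - y j| ≤ δ := a / (200 n^2 L^(24n+12))`.
The point `φ y ∈ ball y₀ ρ` is the required one: let `w ∈ S`, `dist w (φ y) < (log T)^(-40n)`, `D dist w (b j)` integral for all
`j`, `0 < D ≤ T`.  `x = φ⁻¹ w` is rational by `frame` (`C D^2 x j` integral), `|x j - y j| ≤ √κ G (log T)^(-40n) ≤ δ` for large `T`
(`L ≤ 4 log T`, `24n+12 < 40n` as `n ≥ 1`), and `dist w y₀ < ρ + 1` gives `|x j| ≤ R`.  So `x ∈ W` and `N x = 0`, contradiction.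
-/

namespace Pool.Agent.EUD

/-- `S` is a rational-distance set. -/
def RationalDistances {n : ℕ} (S : Set (E n)) : Prop :=
  ∀ x ∈ S, ∀ y ∈ S, ∃ q : ℚ, dist x y = q

private theorem choose_L {C L₀ : ℕ} (hC : 0 < C) {T : ℝ}
    (hT : Real.log C / Real.log 2 + L₀ + 3 ≤ Real.log T) (hT1 : 1 ≤ Real.log T) (hT0 : 0 < T) :
    ∃ L : ℕ, (C : ℝ) * T ^ 2 ≤ 2 ^ L ∧ L₀ ≤ L ∧ 1 ≤ L ∧ (L : ℝ) ≤ 4 * Real.log T := by
  have hl2 : (0.69314 : ℝ) < Real.log 2 := by
    have := Real.log_two_gt_d9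
    linarith
  have hl2' : (0 : ℝ) < Real.log 2 := by linarith
  have hC' : (0 : ℝ) < C := by exact_mod_cast hC
  set u : ℝ := (Real.log C + 2 * Real.log T) / Real.log 2 with hu
  refine ⟨⌈u⌉₊ + L₀ + 1, ?_, by omega, by omega, ?_⟩
  · have h1 : u ≤ ((⌈u⌉₊ + L₀ + 1 : ℕ) : ℝ) := by
      push_cast
      have := Nat.le_ceil u
      have h2 : (0 : ℝ) ≤ L₀ := Nat.cast_nonneg _
      linarith
    have h2 : Real.log C + 2 * Real.log T ≤ ((⌈u⌉₊ + L₀ + 1 : ℕ) : ℝ) * Real.log 2 := by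
      rw [hu, div_le_iff₀ hl2'] at h1
      exact h1
    have h3 : Real.log (C * T ^ 2) = Real.log C + 2 * Real.log T := by
      rw [Real.log_mul hC'.ne' (by positivity), Real.log_pow]
      norm_num
    have h4 : Real.log ((2 : ℝ) ^ (⌈u⌉₊ + L₀ + 1)) = ((⌈u⌉₊ + L₀ + 1 : ℕ) : ℝ) * Real.log 2 := by
      rw [Real.log_pow]
    rw [← h3, ← h4] at h2
    exact (Real.log_le_log_iff (by positivity) (by positivity)).1 h2
  · have hCl : 0 ≤ Real.log C := Real.log_nonneg (by exact_mod_cast hC)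
    have hu0 : 0 ≤ u := by
      rw [hu]
      positivity
    have h1 := Nat.ceil_lt_add_one hu0
    have h2 : u ≤ Real.log C / Real.log 2 + 2.9 * Real.log T := by
      rw [hu, add_div]
      have : 2 * Real.log T / Real.log 2 ≤ 2.9 * Real.log T := by
        rw [div_le_iff₀ hl2']
        nlinarith
      linarith
    push_cast
    linarith

theorem main {n : ℕ} (hn : 2 ≤ n) {S : Set (E n)} (hS : RationalDistances S)
    (b : Fin (n + 1) → E n) (hb : AffineIndependent ℝ b) (hbS : ∀ j, b j ∈ S) (y₀ : E n) {ρ : ℝ}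
    (hρ : 0 < ρ) :
    ∃ T₀ : ℝ, 1 < T₀ ∧ ∀ T : ℝ, T₀ ≤ T → ∃ y ∈ Metric.ball y₀ ρ,
      ∀ w ∈ S, dist w y < 1 / Real.log T ^ (40 * n) →
        ∀ D : ℕ, 0 < D → (∀ j, ∃ a : ℤ, (D : ℝ) * dist w (b j) = a) → T < D := by
  obtain ⟨A, G, C, φ, hA, hG, hC, hdist, hden⟩ :=
    frame b hb (fun i j => hS _ (hbS i) _ (hbS j))
  obtain ⟨κ, hκ, hbd⟩ := qf_bounds hA
  have hn1 : 1 ≤ n := by omega
  have hG' : (0 : ℝ) < G := by exact_mod_cast hG
  have hC' : (0 : ℝ) < C := by exact_mod_cast hC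
  have hsκ : 0 < √κ := Real.sqrt_pos.2 hκ
  have hsκ2 : √κ ^ 2 = κ := Real.sq_sqrt hκ.le
  set x₀ := φ.symm y₀ with hx₀
  have hφx₀ : φ x₀ = y₀ := φ.apply_symm_apply y₀
  -- comparison of coordinates and distances
  have hcomp : ∀ x y : Fin n → ℝ, ∀ j, |x j - y j| ≤ √κ * G * dist (φ x) (φ y) := by
    intro x y j
    have h1 := (hbd (fun j => x j - y j)).2 j
    rw [← hdist x y] at h1
    apply abs_le_of_sq_le_sq _ (by positivity)
    calc (x j - y j) ^ 2 ≤ κ * (G * dist (φ x) (φ y)) ^ 2 := h1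
      _ = (√κ * G * dist (φ x) (φ y)) ^ 2 := by
        rw [mul_assoc, mul_pow √κ, hsκ2]
  set a : ℝ := G * ρ / (2 * √κ) with ha
  have ha0 : 0 < a := by positivity
  have hball : ∀ y : Fin n → ℝ, (∀ j, |y j - x₀ j| ≤ a) → φ y ∈ Metric.ball y₀ ρ := by
    intro y hy
    have h1 := (hbd (fun j => y j - x₀ j)).1 a ha0.le hy
    rw [← hdist y x₀, hφx₀] at h1
    have h2 : κ * a ^ 2 = (G * ρ / 2) ^ 2 := by
      rw [ha]
      have : (G * ρ / (2 * √κ)) ^ 2 = (G * ρ / 2) ^ 2 / √κ ^ 2 := by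
        field_simp
      rw [this, hsκ2]
      field_simp
    rw [h2] at h1
    have h3 : G * dist (φ y) y₀ ≤ G * ρ / 2 := by
      apply le_of_sq_le_sq _ (by positivity)
      exact h1
    have h4 : dist (φ y) y₀ ≤ ρ / 2 := by
      have : G * dist (φ y) y₀ ≤ G * (ρ / 2) := by linarith
      exact le_of_mul_le_mul_left this hG'
    rw [Metric.mem_ball]
    linarith
  obtain ⟨R, hR⟩ := exists_nat_ge ((∑ j, |x₀ j|) + √κ * G * (1 + ρ))
  have hRj : ∀ j, |x₀ j| + √κ * G * (1 + ρ) ≤ R := by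
    intro j
    have := Finset.single_le_sum (f := fun j => |x₀ j|) (fun i _ => abs_nonneg _)
      (Finset.mem_univ j)
    linarith
  obtain ⟨L₀, hcore⟩ := core hn hA R
  set B : ℝ := √κ * G * (200 * n ^ 2 * 4 ^ (24 * n + 12)) / a with hB
  set K : ℝ := max (Real.log C / Real.log 2 + L₀ + 3) (max 1 B) with hK
  refine ⟨Real.exp K, ?_, ?_⟩
  · rw [Real.one_lt_exp_iff]
    have : (1 : ℝ) ≤ K := (le_max_left _ _).trans (le_max_right _ _)
    linarith
  intro T hT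
  have hTpos : 0 < T := lt_of_lt_of_le (Real.exp_pos _) hT
  have hlogT : K ≤ Real.log T := by
    rw [Real.le_log_iff_exp_le hTpos]
    exact hT
  have h1K : Real.log C / Real.log 2 + L₀ + 3 ≤ Real.log T := (le_max_left _ _).trans hlogT
  have h2K : 1 ≤ Real.log T := ((le_max_left _ _).trans (le_max_right _ _)).trans hlogT
  have h3K : B ≤ Real.log T := ((le_max_right _ _).trans (le_max_right _ _)).trans hlogT
  obtain ⟨L, hLT, hLL₀, hL1, hL4⟩ := choose_L hC h1K h2K hTpos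
  set W : Set (Fin n → ℚ) := {x | (∀ j, |x j| ≤ R) ∧ φ (fun j => (x j : ℝ)) ∈ S ∧
    ∃ D : ℕ, 0 < D ∧ (D : ℝ) ≤ T ∧
      ∀ j, ∃ a : ℤ, (D : ℝ) * dist (φ fun j => (x j : ℝ)) (b j) = a} with hW
  obtain ⟨N, hN0, hNdeg, hNW⟩ := hcore L hLL₀ W
    (by
      intro x hx y hy
      obtain ⟨q, hq⟩ := hS _ hx.2.1 _ hy.2.1
      refine ⟨G * q, ?_⟩
      have h1 := hdist (fun j => (x j : ℝ)) (fun j => (y j : ℝ))
      rw [hq] at h1
      have h2 := qf_map (Rat.castHom ℝ) A (fun j => x j - y j)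
      simp only [Rat.coe_castHom, Rat.cast_sub] at h2
      rw [← h2] at h1
      exact_mod_cast h1)
    (by
      rintro x ⟨-, -, D, hD0, hDT, hD⟩
      refine ⟨C * D ^ 2, by positivity, ?_, ?_⟩
      · have h1 : ((C * D ^ 2 : ℕ) : ℝ) ≤ ((2 ^ L : ℕ) : ℝ) := by
          push_cast
          refine le_trans ?_ hLT
          gcongr
        exact_mod_cast h1
      · intro j
        obtain ⟨a, ha⟩ := hden _ D hD0 hD j
        refine ⟨a, ?_⟩
        push_cast
        exact_mod_cast ha)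
    (fun x hx => hx.1)
  have hD1 : 1 ≤ L ^ (6 * n + 3) := Nat.one_le_pow _ _ hL1
  obtain ⟨y, hy1, hy2⟩ := zero_free hn1 hN0 hNdeg hD1 x₀ ha0
  refine ⟨φ y, hball y hy1, ?_⟩
  intro w hw hwy D hD0 hD
  by_contra hTD
  rw [not_lt] at hTD
  set x := φ.symm w with hx
  have hφx : φ x = w := φ.apply_symm_apply w
  have hD' : ∀ j, ∃ a : ℤ, (D : ℝ) * dist (φ x) (b j) = a := by
    rw [hφx]
    exact hD
  choose z hz using hden x D hD0 hD'
  have hD0' : (0 : ℝ) < D := by exact_mod_cast hD0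
  set xq : Fin n → ℚ := fun j => (z j : ℚ) / (C * D ^ 2) with hxq
  have hxq' : (fun j => (xq j : ℝ)) = x := by
    funext j
    rw [hxq]
    push_cast
    rw [← hz j]
    field_simp
  -- size of the gap
  have hlogpos : 0 < Real.log T := by linarith
  have hgap : √κ * G * (1 / Real.log T ^ (40 * n)) ≤
      a / (200 * n ^ 2 * ((L ^ (6 * n + 3) : ℕ) : ℝ) ^ 4) := by
    have hL0 : (0 : ℝ) < L := by exact_mod_cast hL1
    have hn0 : (0 : ℝ) < n := by exact_mod_cast hn1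
    have e1 : ((L ^ (6 * n + 3) : ℕ) : ℝ) ^ 4 = (L : ℝ) ^ (24 * n + 12) := by
      push_cast
      rw [← pow_mul]
      congr 1
      ring
    rw [e1, le_div_iff₀ (by positivity)]
    have e2 : (L : ℝ) ^ (24 * n + 12) ≤ 4 ^ (24 * n + 12) * Real.log T ^ (24 * n + 12) := by
      rw [← mul_pow]
      exact pow_le_pow_left₀ hL0.le hL4 _
    have e3 : Real.log T ^ (24 * n + 12) * Real.log T ≤ Real.log T ^ (40 * n) := by
      rw [← pow_succ]
      exact pow_le_pow_right₀ h2K (by omega)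
    have e4 : √κ * G * (200 * n ^ 2 * 4 ^ (24 * n + 12)) ≤ a * Real.log T := by
      rw [hB, div_le_iff₀ ha0] at h3K
      linarith
    calc √κ * G * (1 / Real.log T ^ (40 * n)) * (200 * n ^ 2 * (L : ℝ) ^ (24 * n + 12))
        ≤ √κ * G * (1 / Real.log T ^ (40 * n)) *
          (200 * n ^ 2 * (4 ^ (24 * n + 12) * Real.log T ^ (24 * n + 12))) := by gcongr
      _ = (√κ * G * (200 * n ^ 2 * 4 ^ (24 * n + 12))) * Real.log T ^ (24 * n + 12) *
          (1 / Real.log T ^ (40 * n)) := by ring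
      _ ≤ (a * Real.log T) * Real.log T ^ (24 * n + 12) * (1 / Real.log T ^ (40 * n)) := by
          gcongr
      _ = a * (Real.log T ^ (24 * n + 12) * Real.log T) / Real.log T ^ (40 * n) := by ring
      _ ≤ a * Real.log T ^ (40 * n) / Real.log T ^ (40 * n) := by gcongr
      _ = a := by field_simp
  have hclose : ∀ j, |x j - y j| ≤ a / (200 * n ^ 2 * ((L ^ (6 * n + 3) : ℕ) : ℝ) ^ 4) := by
    intro j
    refine (hcomp x y j).trans (le_trans ?_ hgap)
    rw [hφx]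
    gcongr
  apply hy2 x hclose
  rw [← hxq']
  apply hNW
  refine ⟨?_, ?_, D, hD0, hTD, ?_⟩
  · intro j
    have h1 := hcomp x x₀ j
    rw [hφx, hφx₀] at h1
    have h2 : dist w y₀ ≤ 1 + ρ := by
      have h3 := dist_triangle w (φ y) y₀
      have h4 := hball y hy1
      rw [Metric.mem_ball] at h4
      have h5 : 1 / Real.log T ^ (40 * n) ≤ 1 := by
        rw [div_le_one (by positivity)]
        exact one_le_pow₀ h2K
      linarith
    have h6 : |x j| ≤ R := by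
      have h7 : |x j| ≤ |x₀ j| + |x j - x₀ j| := by
        have := abs_add_le (x₀ j) (x j - x₀ j)
        simpa using this
      have h8 : √κ * G * dist w y₀ ≤ √κ * G * (1 + ρ) := by gcongr
      have := hRj j
      linarith
    have h9 : ((xq j : ℚ) : ℝ) = x j := congrFun hxq' j
    rw [← h9] at h6
    exact_mod_cast h6
  · rw [hxq', hφx]
    exact hw
  · rw [hxq']
    exact hD'

end Pool.Agent.EUD
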