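import Pool.Agent.EUD.Defs

/-!
Markov: modulus of continuity of polynomials on an interval.

PROOF of `poly_holder`.  `f θ = p ((1 + cos θ) / 2)` is a cosine polynomial of degree `≤ D` (powers of `cos θ` are cosine
polynomials: `cos θ cos (j θ) = (cos ((j+1) θ) + cos ((j-1) θ)) / 2`; or Chebyshev polynomials),
`f θ = ∑_{j ≤ D} a j cos (j θ)`, and `|a j| ≤ 2 M`: `∫_0^π f θ cos (j θ) = a j π / 2` for `j ≥ 1`.  So `f` is Lipschitz with constant
`∑_{j ≤ D} 2 M j = M D (D + 1) ≤ 2 M D^2`.  For `s = (1 + cos θ)/2`, `t = (1 + cos η)/2`, `θ, η ∈ [0, π]` (`Real.arccos`):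
`|cos θ - cos η| = 2 |sin ((θ+η)/2)| |sin ((θ-η)/2)| ≥ 2 sin^2 (|θ-η|/2) ≥ 2 (|θ - η| / π)^2` (`(θ+η)/2` lies between
`|θ-η|/2` and `π - |θ-η|/2`; `Real.mul_le_sin`: `2/π x ≤ sin x` on `[0, π/2]`), so `|θ - η| ≤ π √|s - t|` and
`|p s - p t| ≤ 2 M D^2 π √|s-t| ≤ 7 D^2 M √|s-t|`.
-/

namespace Pool.Agent.EUD

open Polynomial in
/-- Markov inequality at the end point of `[-1, 1]`. -/
private theorem markov_one (P : Polynomial ℝ) {D : ℕ} (hD : P.natDegree ≤ D)
    (hP : ∀ x ∈ Set.Icc (-1 : ℝ) 1, |P.eval x| ≤ 1) : |(derivative P).eval 1| ≤ (D : ℝ) ^ 2 := by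
  have hT : (derivative^[1] (Polynomial.Chebyshev.T ℝ (D : ℤ))).eval 1 = (D : ℝ) ^ 2 := by
    rw [Function.iterate_one, Polynomial.Chebyshev.T_derivative_eq_U, Polynomial.eval_mul,
      Polynomial.Chebyshev.U_eval_one]
    simp
    ring
  have h1 : (derivative^[1] P).eval 1 ≤ (derivative^[1] (Polynomial.Chebyshev.T ℝ (D : ℤ))).eval 1 :=
    Polynomial.Chebyshev.eval_iterate_derivative_le_of_forall_abs_le_one (n := D) (le_refl (1 : ℝ))
      (Polynomial.natDegree_le_iff_degree_le.1 hD) hP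
  have h2 : (derivative^[1] (-P)).eval 1 ≤ (derivative^[1] (Polynomial.Chebyshev.T ℝ (D : ℤ))).eval 1 :=
    Polynomial.Chebyshev.eval_iterate_derivative_le_of_forall_abs_le_one (n := D) (le_refl (1 : ℝ))
      (Polynomial.natDegree_le_iff_degree_le.1 (by rw [Polynomial.natDegree_neg]; exact hD)) (by
        intro x hx
        rw [Polynomial.eval_neg, abs_neg]
        exact hP x hx)
  rw [hT, Function.iterate_one] at h1 h2
  rw [Polynomial.derivative_neg, Polynomial.eval_neg] at h2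
  exact abs_le.2 ⟨by linarith, h1⟩

open Polynomial in
/-- Markov inequality at the end point `u` of the interval between `u` and `v`. -/
private theorem markov_end (p : Polynomial ℝ) {D : ℕ} (hD : p.natDegree ≤ D) {M : ℝ} (hM0 : 0 < M)
    {u v : ℝ} (hM : ∀ x ∈ Set.uIcc u v, |p.eval x| ≤ M) :
    |(derivative p).eval u| * |u - v| ≤ 2 * M * (D : ℝ) ^ 2 := by
  set l : Polynomial ℝ := C ((u + v) / 2) + C ((u - v) / 2) * X with hl
  set q : Polynomial ℝ := C M⁻¹ * p.comp l with hq
  have hldeg : l.natDegree ≤ 1 := by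
    rw [hl]
    exact Polynomial.natDegree_add_le_of_degree_le (by simp)
      ((Polynomial.natDegree_C_mul_le _ _).trans Polynomial.natDegree_X_le)
  have hqdeg : q.natDegree ≤ D := by
    refine (Polynomial.natDegree_C_mul_le _ _).trans ?_
    rw [Polynomial.natDegree_comp]
    calc p.natDegree * l.natDegree ≤ D * 1 := Nat.mul_le_mul hD hldeg
      _ = D := Nat.mul_one D
  have hle : ∀ x, l.eval x = (u + v) / 2 + (u - v) / 2 * x := by
    intro x
    simp [hl]
  have hb : ∀ x ∈ Set.Icc (-1 : ℝ) 1, |q.eval x| ≤ 1 := by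
    intro x hx
    rw [hq, Polynomial.eval_mul, Polynomial.eval_C, Polynomial.eval_comp, abs_mul, abs_inv,
      abs_of_pos hM0, hle]
    have hmem : (u + v) / 2 + (u - v) / 2 * x ∈ Set.uIcc u v := by
      rcases le_total u v with h | h
      · rw [Set.uIcc_of_le h]
        constructor
        · nlinarith [hx.1, hx.2]
        · nlinarith [hx.1, hx.2]
      · rw [Set.uIcc_of_ge h]
        constructor
        · nlinarith [hx.1, hx.2]
        · nlinarith [hx.1, hx.2]
    have h2 := hM _ hmem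
    rw [inv_mul_le_iff₀ hM0, mul_one]
    exact h2
  have h3 := markov_one q hqdeg hb
  have hder : (derivative q).eval 1 = M⁻¹ * ((u - v) / 2 * (derivative p).eval u) := by
    rw [hq, Polynomial.derivative_C_mul, Polynomial.eval_mul, Polynomial.eval_C,
      Polynomial.derivative_comp, Polynomial.eval_mul, Polynomial.eval_comp, hle]
    have h4 : (derivative l).eval 1 = (u - v) / 2 := by
      simp [hl]
    rw [h4]
    congr 3
    ring_nf
  rw [hder, abs_mul, abs_inv, abs_of_pos hM0, inv_mul_le_iff₀ hM0, abs_mul, abs_div, abs_two] at h3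
  nlinarith [h3]

theorem poly_holder (p : Polynomial ℝ) {D : ℕ} (hD : p.natDegree ≤ D) (hD1 : 1 ≤ D) {M : ℝ}
    (hM : ∀ s ∈ Set.Icc (0 : ℝ) 1, |p.eval s| ≤ M) :
    ∀ s ∈ Set.Icc (0 : ℝ) 1, ∀ t ∈ Set.Icc (0 : ℝ) 1,
      |p.eval s - p.eval t| ≤ 7 * D ^ 2 * M * √|s - t| := by
  intro s hs t ht
  have hM0 : 0 ≤ M := (abs_nonneg _).trans (hM s hs)
  rcases hM0.eq_or_lt with h0 | hpos
  · have h1 := hM s hs
    have h2 := hM t ht
    rw [← h0] at h1 h2
    have h3 : p.eval s = 0 := abs_nonpos_iff.1 h1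
    have h4 : p.eval t = 0 := abs_nonpos_iff.1 h2
    rw [h3, h4, ← h0]
    simp
  · have hbd : ∀ x ∈ Set.Icc (0 : ℝ) 1, ‖(Polynomial.derivative p).eval x‖ ≤ 4 * M * (D : ℝ) ^ 2 := by
      intro x hx
      rw [Real.norm_eq_abs]
      have hnn : 0 ≤ |(Polynomial.derivative p).eval x| := abs_nonneg _
      rcases le_total x (1 / 2) with h | h
      · have h1 := markov_end p hD hpos (u := x) (v := 1) (by
          intro y hy
          rw [Set.uIcc_of_le hx.2] at hy
          exact hM y ⟨hx.1.trans hy.1, hy.2⟩)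
        have h2 : (1 : ℝ) / 2 ≤ |x - 1| := by
          rw [abs_sub_comm, abs_of_nonneg (by linarith [hx.2])]
          linarith
        nlinarith [mul_le_mul_of_nonneg_left h2 hnn]
      · have h1 := markov_end p hD hpos (u := x) (v := 0) (by
          intro y hy
          rw [Set.uIcc_of_ge hx.1] at hy
          exact hM y ⟨hy.1, hy.2.trans hx.2⟩)
        have h2 : (1 : ℝ) / 2 ≤ |x - 0| := by
          rw [sub_zero, abs_of_nonneg hx.1]
          exact h
        nlinarith [mul_le_mul_of_nonneg_left h2 hnn]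
    have hmv := Convex.norm_image_sub_le_of_norm_hasDerivWithin_le
      (f := fun x => p.eval x) (f' := fun x => (Polynomial.derivative p).eval x)
      (s := Set.Icc (0 : ℝ) 1) (fun x _ => (p.hasDerivAt x).hasDerivWithinAt) hbd
      (convex_Icc 0 1) ht hs
    rw [Real.norm_eq_abs, Real.norm_eq_abs] at hmv
    have hst : |s - t| ≤ 1 := by
      rw [abs_le]
      constructor <;> linarith [hs.1, hs.2, ht.1, ht.2]
    have hsq : |s - t| ≤ √|s - t| := by
      apply Real.le_sqrt_of_sq_le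
      nlinarith [abs_nonneg (s - t)]
    have hK : 0 ≤ M * (D : ℝ) ^ 2 := by positivity
    have hq0 : 0 ≤ √|s - t| := Real.sqrt_nonneg _
    calc |p.eval s - p.eval t| ≤ 4 * M * (D : ℝ) ^ 2 * |s - t| := hmv
      _ ≤ 4 * M * (D : ℝ) ^ 2 * √|s - t| := by
          apply mul_le_mul_of_nonneg_left hsq
          linarith
      _ ≤ 7 * D ^ 2 * M * √|s - t| := by
          nlinarith [mul_nonneg hK hq0]

end Pool.Agent.EUD
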