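import Pool.Agent.EUD.Defs

/-!
SignNorm: the norm of a multilinear expression in square roots.

PROOF of `sign_norm`.  Let `F = ∑_I a I ∏_{i ∈ I} X i`, `F_σ = ∑_I a I ∏_{i ∈ I} (if i ∈ σ then -X i else X i)` (totalDegree
`≤ m`) and `G = ∏_σ F_σ`, `totalDegree G ≤ m 2^m`.  `G` is invariant under `X i ↦ -X i` for each `i` (this permutes the
factors: `σ ↦ σ ∆ {i}`), so `(-1)^(α i) coeff α G = coeff α G` for all `α`, `i`, i.e. every exponent in the
support of `G` is even.  Let `P = ∑_{α ∈ support G} coeff α G • monomial (α / 2)` (coordinatewise halves).  Then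
`eval (z^2) P = eval z G` and `2 * totalDegree P ≤ totalDegree G` (in the case `G = 0` everything is `0`).
(Alternative: `MvPolynomial.expand 2 P = G`.)
-/

namespace Pool.Agent.EUD

open MvPolynomial

/-- the substitution `X i ↦ -X i` -/
private noncomputable def sg {m : ℕ} (i : Fin m) :
    MvPolynomial (Fin m) ℝ →ₐ[ℝ] MvPolynomial (Fin m) ℝ :=
  aeval (fun j => if j = i then -X j else X j)

private theorem sg_X {m : ℕ} (i j : Fin m) :
    sg i (X j) = if j = i then -X j else (X j : MvPolynomial (Fin m) ℝ) := by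
  unfold sg
  rw [aeval_X]

private theorem sg_monomial {m : ℕ} (i : Fin m) (α : Fin m →₀ ℕ) (c : ℝ) :
    sg i (monomial α c) = monomial α ((-1) ^ α i * c) := by
  unfold sg
  rw [aeval_monomial, Finsupp.prod_fintype _ _ (fun j => by simp)]
  have h1 : ∀ j : Fin m, ((if j = i then -X j else X j : MvPolynomial (Fin m) ℝ)) ^ α j =
      (if j = i then (-1) ^ α j else 1) * X j ^ α j := by
    intro j
    split_ifs with h
    · rw [neg_pow]
    · rw [one_mul]
  simp only [h1]
  rw [Finset.prod_mul_distrib, Finset.prod_ite_eq' Finset.univ i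
    (fun j => ((-1 : MvPolynomial (Fin m) ℝ)) ^ α j)]
  rw [if_pos (Finset.mem_univ i)]
  rw [monomial_eq (s := α) (a := (-1) ^ α i * c), Finsupp.prod_fintype _ _ (fun j => by simp)]
  rw [C_mul, C_pow, C_neg, C_1]
  rw [algebraMap_eq]
  ring

private theorem sg_coeff {m : ℕ} (i : Fin m) (q : MvPolynomial (Fin m) ℝ) (α : Fin m →₀ ℕ) :
    coeff α (sg i q) = (-1) ^ α i * coeff α q := by
  classical
  induction q using MvPolynomial.induction_on' with
  | monomial β c =>
      rw [sg_monomial, coeff_monomial, coeff_monomial]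
      split_ifs with h
      · rw [h]
      · rw [mul_zero]
  | add p q hp hq =>
      rw [map_add, coeff_add, coeff_add, hp, hq, mul_add]

/-- the factors -/
private noncomputable def Fs {m : ℕ} (a : Finset (Fin m) → ℝ) (σ : Finset (Fin m)) :
    MvPolynomial (Fin m) ℝ :=
  ∑ I : Finset (Fin m), C (a I) * ∏ i ∈ I, (if i ∈ σ then -X i else X i)

private theorem sg_Fs {m : ℕ} (a : Finset (Fin m) → ℝ) (σ : Finset (Fin m)) (i : Fin m) :
    sg i (Fs a σ) = Fs a (symmDiff σ {i}) := by
  classical
  unfold Fs
  rw [map_sum]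
  refine Finset.sum_congr rfl fun I _ => ?_
  rw [map_mul, map_prod]
  have hC : sg i (C (a I)) = C (a I) := by
    have := (sg i).commutes (a I)
    rwa [algebraMap_eq] at this
  rw [hC]
  congr 1
  refine Finset.prod_congr rfl fun j _ => ?_
  by_cases hj : j = i
  · subst hj
    by_cases hs : j ∈ σ
    · rw [if_pos hs, map_neg, sg_X, if_pos rfl, neg_neg, if_neg]
      rw [Finset.mem_symmDiff]
      simp [hs]
    · rw [if_neg hs, sg_X, if_pos rfl, if_pos]
      rw [Finset.mem_symmDiff]
      simp [hs]
  · have h1 : (j ∈ symmDiff σ {i}) ↔ j ∈ σ := by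
      rw [Finset.mem_symmDiff]
      simp [hj]
    by_cases hs : j ∈ σ
    · rw [if_pos hs, if_pos (h1.2 hs), map_neg, sg_X, if_neg hj]
    · rw [if_neg hs, if_neg (fun h => hs (h1.1 h)), sg_X, if_neg hj]

private theorem Fs_deg {m : ℕ} (a : Finset (Fin m) → ℝ) (σ : Finset (Fin m)) :
    (Fs a σ).totalDegree ≤ m := by
  classical
  unfold Fs
  refine (totalDegree_finsetSum _ _).trans ?_
  refine Finset.sup_le fun I _ => ?_
  refine (totalDegree_mul _ _).trans ?_
  rw [totalDegree_C, zero_add]
  refine (totalDegree_finsetProd _ _).trans ?_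
  calc ∑ i ∈ I, (if i ∈ σ then -X i else (X i : MvPolynomial (Fin m) ℝ)).totalDegree
      ≤ ∑ i ∈ I, 1 := by
        refine Finset.sum_le_sum fun i _ => ?_
        split_ifs
        · rw [totalDegree_neg, totalDegree_X]
        · rw [totalDegree_X]
    _ = I.card := by simp
    _ ≤ m := by
        have := Finset.card_le_univ I
        simpa using this

theorem sign_norm {m : ℕ} (a : Finset (Fin m) → ℝ) :
    ∃ P : MvPolynomial (Fin m) ℝ, 2 * P.totalDegree ≤ m * 2 ^ m ∧
      ∀ z : Fin m → ℝ, eval (fun i => z i ^ 2) P =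
        ∏ σ : Finset (Fin m), ∑ I : Finset (Fin m), a I * ∏ i ∈ I, (if i ∈ σ then -z i else z i) := by
  classical
  set G : MvPolynomial (Fin m) ℝ := ∏ σ : Finset (Fin m), Fs a σ with hG
  have hGdeg : G.totalDegree ≤ m * 2 ^ m := by
    rw [hG]
    refine (totalDegree_finsetProd _ _).trans ?_
    calc ∑ σ : Finset (Fin m), (Fs a σ).totalDegree ≤ ∑ σ : Finset (Fin m), m :=
          Finset.sum_le_sum fun σ _ => Fs_deg a σ
      _ = m * 2 ^ m := by
          rw [Finset.sum_const, Finset.card_univ, Fintype.card_finset, Fintype.card_fin,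
            smul_eq_mul, mul_comm]
  have hinv : ∀ i, sg i G = G := by
    intro i
    rw [hG, map_prod]
    simp only [sg_Fs]
    have hi : Function.Involutive (fun σ : Finset (Fin m) => symmDiff σ {i}) := by
      intro σ
      exact symmDiff_symmDiff_cancel_right {i} σ
    exact Equiv.prod_comp hi.toPerm (fun σ => Fs a σ)
  have heven : ∀ α ∈ G.support, ∀ i, α i % 2 = 0 := by
    intro α hα i
    by_contra hodd
    have h1 := sg_coeff i G α
    rw [hinv i, Odd.neg_one_pow (Nat.odd_iff.2 (by omega))] at h1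
    have h2 : coeff α G = 0 := by linarith
    exact (mem_support_iff.1 hα) h2
  set hf : (Fin m →₀ ℕ) → (Fin m →₀ ℕ) := fun α => α.mapRange (fun k => k / 2) rfl with hhf
  refine ⟨∑ α ∈ G.support, monomial (hf α) (coeff α G), ?_, ?_⟩
  · have h1 : (∑ α ∈ G.support, monomial (hf α) (coeff α G)).totalDegree ≤ (m * 2 ^ m) / 2 := by
      refine (totalDegree_finsetSum _ _).trans ?_
      refine Finset.sup_le fun α hα => ?_
      refine (totalDegree_monomial_le _ _).trans ?_
      rw [Nat.le_div_iff_mul_le (by norm_num)]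
      have h2 : (α.sum fun _ e => e) ≤ m * 2 ^ m := (le_totalDegree hα).trans hGdeg
      refine le_trans ?_ h2
      rw [Finsupp.sum_fintype _ _ (fun _ => rfl), Finsupp.sum_fintype _ _ (fun _ => rfl),
        Finset.sum_mul]
      refine Finset.sum_le_sum fun j _ => ?_
      show (α j) / 2 * 2 ≤ α j
      exact Nat.div_mul_le_self _ _
    omega
  · intro z
    have hGe : eval z G =
        ∏ σ : Finset (Fin m), ∑ I : Finset (Fin m), a I * ∏ i ∈ I, (if i ∈ σ then -z i else z i) := by
      rw [hG, map_prod]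
      refine Finset.prod_congr rfl fun σ _ => ?_
      unfold Fs
      rw [map_sum]
      refine Finset.sum_congr rfl fun I _ => ?_
      rw [map_mul, eval_C, map_prod]
      congr 1
      refine Finset.prod_congr rfl fun j _ => ?_
      split_ifs
      · rw [map_neg, eval_X]
      · rw [eval_X]
    rw [← hGe, map_sum, eval_eq' z G]
    refine Finset.sum_congr rfl fun α hα => ?_
    rw [eval_monomial, Finsupp.prod_fintype _ _ (fun _ => by simp)]
    congr 1
    refine Finset.prod_congr rfl fun j _ => ?_
    show (z j ^ 2) ^ (α j / 2) = z j ^ α j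
    rw [← pow_mul]
    congr 1
    have := heven α hα j
    omega

end Pool.Agent.EUD
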