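import Pool.Agent.EUD.Defs

/-!
SqrtPoly: polynomial approximation of square roots in a local ring.

`exists_sqrt_poly`: induction on `K`.  `K = 0`: `T = 1` (`X^0 = 1` divides everything).  `K = 1`: `T = 1` as well
(`T^2 - (1 + X) = -X`).  Step `K → K + 1` for `K ≥ 1`: `T^2 - (1 + X) = X^K * G`; take `T' = T + C c * X^K` with
`2 c = - G.coeff 0` (`2` is a unit); then
`T'^2 - (1 + X) = X^K (G + 2 c T) + c^2 X^(2K)` and `G + 2 c T` has constant coefficient
`G.coeff 0 + 2 c = 0`, so it is divisible by `X`; `2 K ≥ K + 1`.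

`sqrt_approx`: `(z - z1 T(u)) (z + z1 T(u)) = z1^2 (1 + u - T(u)^2)` is divisible by `u^K`, hence by `π^K`.
`T(u) - 1` is divisible by `u` (`T.coeff 0 = 1`), so `z + z1 T(u) = 2 z1 + (z - z1) + z1 (T(u) - 1)` is a unit plus a
multiple of `π` (a nonunit), i.e. a unit in the local ring `R`.
-/

namespace Pool.Agent.EUD

open Polynomial

theorem exists_sqrt_poly {R : Type*} [CommRing R] (h2 : IsUnit (2 : R)) (K : ℕ) :
    ∃ T : R[X], (X : R[X]) ^ K ∣ T ^ 2 - (1 + X) ∧ T.coeff 0 = 1 := by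
  induction K with
  | zero => exact ⟨1, by simp, by simp⟩
  | succ K ih =>
    rcases Nat.eq_zero_or_pos K with hK | hK
    · subst hK
      refine ⟨1, ⟨-1, by ring⟩, by simp⟩
    · obtain ⟨T, ⟨G, hG⟩, hT0⟩ := ih
      obtain ⟨v, hv⟩ := h2
      have hv' : (2 : R) * ((v⁻¹ : Rˣ) : R) = 1 := by
        rw [← hv]
        exact Units.mul_inv v
      set c : R := -(((v⁻¹ : Rˣ) : R) * G.coeff 0) with hc
      have hc2 : 2 * c + G.coeff 0 = 0 := by
        rw [hc]
        linear_combination (-G.coeff 0) * hv'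
      have h3 : (X : R[X]) ∣ G + C (2 * c) * T := by
        rw [X_dvd_iff]
        simp only [coeff_add, coeff_C_mul, hT0, mul_one]
        linear_combination hc2
      obtain ⟨G', hG'⟩ := h3
      refine ⟨T + C c * X ^ K, ⟨G' + C (c ^ 2) * X ^ (K - 1), ?_⟩, ?_⟩
      · have e1 : (X : R[X]) ^ (K + 1) * X ^ (K - 1) = X ^ K * X ^ K := by
          rw [← pow_add, ← pow_add]
          congr 1
          omega
        have e2 : (T + C c * X ^ K) ^ 2 - (1 + X) = (T ^ 2 - (1 + X)) +
            (C (2 * c) * T) * X ^ K + C (c ^ 2) * (X ^ K * X ^ K) := by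
          rw [C_mul, C_pow]
          have : (C (2 : R)) = 2 := rfl
          rw [this]
          ring
        rw [e2, hG, ← e1]
        linear_combination (X : R[X]) ^ K * hG'
      · have h4 : (X ^ K : R[X]).coeff 0 = 0 := by
          rw [coeff_X_pow, if_neg (by omega)]
        rw [coeff_add, coeff_C_mul, h4, hT0]
        ring

theorem sqrt_approx {R : Type*} [CommRing R] [IsLocalRing R] {π : R} (hπ : ¬ IsUnit π)
    (h2 : IsUnit (2 : R)) {K : ℕ} {T : R[X]} (hT : (X : R[X]) ^ K ∣ T ^ 2 - (1 + X))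
    (hT0 : T.coeff 0 = 1) {z z1 u : R} (hz1 : IsUnit z1) (hz : π ∣ z - z1) (hu : π ∣ u)
    (h : z ^ 2 = z1 ^ 2 * (1 + u)) : π ^ K ∣ z - z1 * T.eval u := by
  obtain ⟨G, hG⟩ := hT
  have h1 : (T.eval u) ^ 2 - (1 + u) = u ^ K * G.eval u := by
    have h2 := congrArg (Polynomial.eval u) hG
    simpa using h2
  have h3 : (z - z1 * T.eval u) * (z + z1 * T.eval u) = -(z1 ^ 2 * G.eval u) * u ^ K := by
    linear_combination h - z1 ^ 2 * h1
  have h4 : π ∣ T.eval u - 1 := by
    have h5 : (X : R[X]) ∣ T - 1 := by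
      rw [X_dvd_iff]
      simp [hT0]
    obtain ⟨H, hH⟩ := h5
    have h6 := congrArg (Polynomial.eval u) hH
    simp only [eval_sub, eval_one, eval_mul, eval_X] at h6
    rw [h6]
    exact Dvd.dvd.mul_right hu _
  have h5 : IsUnit (z + z1 * T.eval u) := by
    by_contra hn
    obtain ⟨a, ha⟩ := hz
    obtain ⟨c, hc⟩ := h4
    have h6 : ¬ IsUnit (-(π * (a + z1 * c))) := by
      intro h7
      rw [IsUnit.neg_iff] at h7
      exact hπ (isUnit_of_mul_isUnit_left h7)
    have h7 : (z + z1 * T.eval u) + -(π * (a + z1 * c)) ∈ nonunits R :=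
      IsLocalRing.nonunits_add hn h6
    apply h7
    have h8 : (z + z1 * T.eval u) + -(π * (a + z1 * c)) = 2 * z1 := by
      linear_combination ha + z1 * hc
    rw [h8]
    exact h2.mul hz1
  have h6 : π ^ K ∣ (z - z1 * T.eval u) * (z + z1 * T.eval u) := by
    rw [h3]
    exact Dvd.dvd.mul_left (pow_dvd_pow_of_dvd hu K) _
  exact h5.dvd_mul_right.mp h6

end Pool.Agent.EUD
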